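import Mathlib
import Pool.Agent.H283R2.DR.GenExists

set_option autoImplicit false
set_option linter.unusedSectionVars false

/-! Linear algebra of one-parameter families of linear maps. -/

namespace Pool.Agent.T2h34.CP

open Pool.Agent.H283R2.DR Pool.Agent.H283R2.DR.TA

section lin

variable {X Z : Type*} [AddCommGroup X] [Module ℝ X] [AddCommGroup Z] [Module ℝ Z]
  [FiniteDimensional ℝ X] [FiniteDimensional ℝ Z]

/-- the dimension of the kernel is upper semicontinuous -/
theorem ker_good (f g : X →ₗ[ℝ] Z) :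
    {s : ℝ | Module.finrank ℝ (LinearMap.ker f) <
      Module.finrank ℝ (LinearMap.ker (f + s • g))}.Finite := by
  refine (rank_good f g).subset ?_
  intro s hs
  rw [Set.mem_ofPred_eq] at hs ⊢
  have h1 := LinearMap.finrank_range_add_finrank_ker f
  have h2 := LinearMap.finrank_range_add_finrank_ker (f + s • g)
  omega

/-- first order perturbation -/
theorem first_order (f g : X →ₗ[ℝ] Z) :
    {s : ℝ | s ≠ 0 ∧ Module.finrank ℝ
        (LinearMap.ker f ⊓ (LinearMap.range f).comap g : Submodule ℝ X) <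
      Module.finrank ℝ (LinearMap.ker (f + s • g))}.Finite := by
  obtain ⟨C, hC⟩ := (LinearMap.range f).exists_isCompl
  set π : Z →ₗ[ℝ] Z := C.subtype ∘ₗ C.projectionOnto (LinearMap.range f) hC.symm with hπ
  have hπf : ∀ z ∈ LinearMap.range f, π z = 0 := by
    intro z hz
    simp only [hπ, LinearMap.comp_apply, Submodule.subtype_apply]
    rw [(Submodule.projectionOnto_apply_eq_zero_iff hC.symm).2 hz]
    rfl
  have hπC : ∀ z, π z ∈ C := fun z => by
    simp only [hπ, LinearMap.comp_apply, Submodule.subtype_apply]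
    exact Submodule.coe_mem _
  have hπ2 : ∀ z, z - π z ∈ LinearMap.range f := by
    intro z
    rw [← Submodule.projectionOnto_apply_eq_zero_iff hC.symm, map_sub]
    have : (C.projectionOnto (LinearMap.range f) hC.symm) (π z) =
        (C.projectionOnto (LinearMap.range f) hC.symm) z := by
      simp only [hπ, LinearMap.comp_apply, Submodule.subtype_apply]
      exact Submodule.projectionOnto_apply_left hC.symm _
    rw [this, sub_self]
  have hsplit : ∀ a ∈ LinearMap.range f, ∀ b ∈ C, a + b = 0 → a = 0 ∧ b = 0 := by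
    intro a ha b hb hab
    have h1 : a ∈ LinearMap.range f ⊓ C := ⟨ha, by
      have : a = -b := by rw [← add_eq_zero_iff_eq_neg]; exact hab
      rw [this]
      exact C.neg_mem hb⟩
    rw [hC.inf_eq_bot, Submodule.mem_bot] at h1
    subst h1
    exact ⟨rfl, by simpa using hab⟩
  set f' : X →ₗ[ℝ] Z := f + π ∘ₗ g with hf'
  set g' : X →ₗ[ℝ] Z := g - π ∘ₗ g with hg'
  have hker : ∀ s : ℝ, s ≠ 0 → LinearMap.ker (f + s • g) = LinearMap.ker (f' + s • g') := by
    intro s hs
    ext x
    rw [LinearMap.mem_ker, LinearMap.mem_ker]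
    simp only [hf', hg', LinearMap.add_apply, LinearMap.smul_apply, LinearMap.sub_apply,
      LinearMap.comp_apply]
    have hr : f x + s • (g x - π (g x)) ∈ LinearMap.range f :=
      Submodule.add_mem _ ⟨x, rfl⟩ (Submodule.smul_mem _ _ (hπ2 _))
    constructor
    · intro h
      have e : (f x + s • (g x - π (g x))) + s • π (g x) = 0 := by
        rw [← h, smul_sub]
        abel
      obtain ⟨h1, h2⟩ := hsplit _ hr _ (C.smul_mem _ (hπC _)) e
      have h3 : π (g x) = 0 := (smul_eq_zero.1 h2).resolve_left hs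
      rw [h3] at h1 ⊢
      rw [add_zero]
      exact h1
    · intro h
      have e : (f x + s • (g x - π (g x))) + π (g x) = 0 := by
        rw [← h]
        abel
      obtain ⟨h1, h2⟩ := hsplit _ hr _ (hπC _) e
      rw [h2, sub_zero] at h1
      exact h1
  have hker0 : LinearMap.ker f' = (LinearMap.ker f ⊓ (LinearMap.range f).comap g : Submodule ℝ X) := by
    ext x
    rw [LinearMap.mem_ker, Submodule.mem_inf, LinearMap.mem_ker, Submodule.mem_comap]
    simp only [hf', LinearMap.add_apply, LinearMap.comp_apply]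
    constructor
    · intro h
      obtain ⟨h1, h2⟩ := hsplit _ ⟨x, rfl⟩ _ (hπC _) h
      refine ⟨h1, ?_⟩
      have := hπ2 (g x)
      rwa [h2, sub_zero] at this
    · rintro ⟨h1, h2⟩
      rw [h1, hπf _ h2, add_zero]
  refine (ker_good f' g').subset ?_
  rintro s ⟨hs, h⟩
  rw [Set.mem_ofPred_eq, hker0, ← hker s hs]
  exact h

/-- at a point of maximal rank of a linear family the derivative maps the kernel to the range -/
theorem deriv_mem (f g : X →ₗ[ℝ] Z) (hmax : ∀ s : ℝ, Module.finrank ℝ (LinearMap.ker f) ≤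
    Module.finrank ℝ (LinearMap.ker (f + s • g))) : ∀ x ∈ LinearMap.ker f, g x ∈ LinearMap.range f := by
  intro x hx
  by_contra hgx
  have h1 := first_order f g
  have h2 : ({s : ℝ | s ≠ 0 ∧ Module.finrank ℝ
        (LinearMap.ker f ⊓ (LinearMap.range f).comap g : Submodule ℝ X) <
      Module.finrank ℝ (LinearMap.ker (f + s • g))} ∪ {0} : Set ℝ).Finite :=
    h1.union (Set.finite_singleton 0)
  obtain ⟨s, hs⟩ := h2.infinite_compl.nonempty
  simp only [Set.mem_compl_iff, Set.mem_union, Set.mem_singleton_iff, not_or,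
    Set.mem_ofPred_eq, not_and, not_lt] at hs
  have h3 := hs.1 hs.2
  have h4 : Module.finrank ℝ (LinearMap.ker f ⊓ (LinearMap.range f).comap g : Submodule ℝ X) <
      Module.finrank ℝ (LinearMap.ker f) := by
    apply Submodule.finrank_lt_finrank_of_lt
    refine lt_of_le_of_ne inf_le_left ?_
    intro h
    rw [← h] at hx
    exact hgx hx.2
  have h5 := hmax s
  omega

omit [FiniteDimensional ℝ Z] in
/-- quadratic families -/
theorem inj_good2 (f g h : X →ₗ[ℝ] Z) (hf : Function.Injective f) :
    {s : ℝ | ¬ Function.Injective (f + s • g + (s * s) • h)}.Finite := by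
  classical
  obtain ⟨L, hL⟩ := f.exists_leftInverse_of_injective (LinearMap.ker_eq_bot.2 hf)
  let b := Module.finBasis ℝ X
  set B := LinearMap.toMatrix b b (L.comp g) with hB
  set C := LinearMap.toMatrix b b (L.comp h) with hC
  set M : Matrix (Fin (Module.finrank ℝ X)) (Fin (Module.finrank ℝ X)) (Polynomial ℝ) :=
    1 + (Polynomial.X : Polynomial ℝ) • B.map Polynomial.C +
      (Polynomial.X * Polynomial.X : Polynomial ℝ) • C.map Polynomial.C with hM
  have hev : ∀ s : ℝ, Polynomial.eval s M.det = (1 + s • B + (s * s) • C).det := by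
    intro s
    rw [← Polynomial.coe_evalRingHom, RingHom.map_det]
    congr 1
    ext i j
    simp only [hM, RingHom.mapMatrix_apply, Matrix.map_apply, Matrix.add_apply,
      Matrix.smul_apply, smul_eq_mul, map_add, Polynomial.coe_evalRingHom]
    by_cases hij : i = j
    · subst hij; simp; ring
    · simp [hij]; ring
  have hne : M.det ≠ 0 := by
    intro h0
    have := hev 0
    rw [h0] at this
    simp at this
  have hfin : {s : ℝ | Polynomial.eval s M.det = 0}.Finite := by
    have := Polynomial.finite_setOfPred_isRoot hne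
    exact this
  refine hfin.subset ?_
  intro s hs
  rw [Set.mem_ofPred_eq] at hs ⊢
  rw [injective_iff_map_eq_zero] at hs
  push Not at hs
  obtain ⟨x, hx, hx0⟩ := hs
  rw [hev s, ← Matrix.exists_mulVec_eq_zero_iff]
  refine ⟨b.equivFun x, ?_, ?_⟩
  · intro h
    apply hx0
    have := congrArg b.equivFun.symm h
    simpa using this
  · have h3 := congrArg L hx
    have h4 : L (f x) = x := by
      have := LinearMap.congr_fun hL x
      simpa using this
    simp only [LinearMap.add_apply, LinearMap.smul_apply, map_add, map_smul, map_zero, h4] at h3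
    have h5 := congrArg b.equivFun h3
    simp only [map_add, map_smul, map_zero] at h5
    have h6 : B.mulVec (b.equivFun x) = b.equivFun (L (g x)) := by
      rw [hB]
      exact LinearMap.toMatrix_mulVec_repr b b (L.comp g) x
    have h7 : C.mulVec (b.equivFun x) = b.equivFun (L (h x)) := by
      rw [hC]
      exact LinearMap.toMatrix_mulVec_repr b b (L.comp h) x
    rw [Matrix.add_mulVec, Matrix.add_mulVec, Matrix.one_mulVec, Matrix.smul_mulVec,
      Matrix.smul_mulVec, h6, h7]
    exact h5

end lin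

/-! ### Good predicates -/

section good

variable {E E' X Z : Type*} [AddCommGroup E] [Module ℝ E] [AddCommGroup E'] [Module ℝ E']
  [AddCommGroup X] [Module ℝ X] [AddCommGroup Z] [Module ℝ Z]
  [FiniteDimensional ℝ X] [FiniteDimensional ℝ Z]

/-- affine maps, defined on lines -/
def Aff (F : E → E') : Prop := ∀ (p0 p1 : E) (s : ℝ), F (p0 + s • (p1 - p0)) = F p0 + s • (F p1 - F p0)

theorem Aff.linear (F : E →ₗ[ℝ] E') : Aff (fun x => F x) := by
  intro p0 p1 s
  simp only [map_add, map_smul, map_sub]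

theorem Aff.good {P : E' → Prop} (hP : Good P) {F : E → E'} (hF : Aff F) :
    Good (fun p => P (F p)) := by
  intro p0 p1 h0
  refine (hP (F p0) (F p1) h0).subset ?_
  intro s hs
  rw [Set.mem_ofPred_eq] at hs ⊢
  rw [← hF]
  exact hs

theorem good_true : Good (fun _ : E => True) := by
  intro p0 p1 _
  simp

theorem good_imp {P : E → Prop} {a : Prop} (h : a → Good P) : Good (fun p => a → P p) := by
  intro p0 p1 h0
  by_cases ha : a
  · refine (h ha p0 p1 (h0 ha)).subset ?_
    intro s hs
    rw [Set.mem_ofPred_eq] at hs ⊢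
    intro hc
    exact hs fun _ => hc
  · refine Set.finite_empty.subset ?_
    intro s hs
    exact absurd (fun h => absurd h ha) hs

theorem good_and {P Q : E → Prop} (h : Good P) (h' : Good Q) : Good (fun p => P p ∧ Q p) := by
  intro p0 p1 h0
  refine ((h p0 p1 h0.1).union (h' p0 p1 h0.2)).subset ?_
  intro s hs
  by_contra hc
  rw [Set.mem_union, not_or] at hc
  simp only [Set.mem_ofPred_eq, not_not] at hc hs
  exact hs hc

theorem good_congr {P Q : E → Prop} (h : Good P) (hPQ : ∀ p, P p ↔ Q p) : Good Q := by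
  have : P = Q := funext fun p => propext (hPQ p)
  rwa [← this]

theorem good_and_exists {P Q : E → Prop} (hP : Good P) (hQ : Good Q) (eP : ∃ p, P p)
    (eQ : ∃ p, Q p) : ∃ p, P p ∧ Q p := by
  obtain ⟨p, hp⟩ := good_family (ι := Bool) (fun b p => if b then P p else Q p)
    (by rintro (_ | _) <;> simpa) (by rintro (_ | _) <;> simpa)
  refine ⟨p, by simpa using hp true, by simpa using hp false⟩

theorem good_ker {F : E → X →ₗ[ℝ] Z} (hF : Aff F) (k : ℕ) :
    Good (fun p => Module.finrank ℝ (LinearMap.ker (F p)) ≤ k) := by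
  intro p0 p1 h0
  refine (ker_good (F p0) (F p1 - F p0)).subset ?_
  intro s hs
  rw [Set.mem_ofPred_eq] at hs ⊢
  rw [← hF]
  simp only [not_le] at hs
  exact lt_of_le_of_lt h0 hs

theorem good_minker {F : E → X →ₗ[ℝ] Z} (hF : Aff F) :
    Good (fun p => ∀ p', Module.finrank ℝ (LinearMap.ker (F p)) ≤
      Module.finrank ℝ (LinearMap.ker (F p'))) := by
  intro p0 p1 h0
  refine (ker_good (F p0) (F p1 - F p0)).subset ?_
  intro s hs
  rw [Set.mem_ofPred_eq] at hs ⊢
  push Not at hs
  obtain ⟨p', hp'⟩ := hs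
  rw [hF] at hp'
  have := h0 p'
  omega

theorem exists_minker (F : E → X →ₗ[ℝ] Z) : ∃ p, ∀ p', Module.finrank ℝ (LinearMap.ker (F p)) ≤
      Module.finrank ℝ (LinearMap.ker (F p')) := by
  obtain ⟨m, ⟨p, rfl⟩, hm⟩ := (wellFounded_lt (α := ℕ)).has_min
    (Set.range fun p : E => Module.finrank ℝ (LinearMap.ker (F p))) ⟨_, ⟨0, rfl⟩⟩
  exact ⟨p, fun p' => not_lt.1 (hm _ ⟨p', rfl⟩)⟩

omit [FiniteDimensional ℝ Z] in
theorem good_inj {F : E → X →ₗ[ℝ] Z} (hF : Aff F) :
    Good (fun p => ∀ x, F p x = 0 → x = 0) := by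
  intro p0 p1 h0
  refine (inj_good (F p0) (F p1 - F p0) ((injective_iff_map_eq_zero _).2 h0)).subset ?_
  intro s hs
  rw [Set.mem_ofPred_eq] at hs ⊢
  rw [injective_iff_map_eq_zero, ← hF]
  exact hs

omit [FiniteDimensional ℝ Z] in
theorem good_inj2 {F : E → X →ₗ[ℝ] Z} (hF : ∀ p0 p1 : E, ∃ g h : X →ₗ[ℝ] Z, ∀ s : ℝ,
    F (p0 + s • (p1 - p0)) = F p0 + s • g + (s * s) • h) :
    Good (fun p => ∀ x, F p x = 0 → x = 0) := by
  intro p0 p1 h0
  obtain ⟨g, h, hgh⟩ := hF p0 p1
  refine (inj_good2 (F p0) g h ((injective_iff_map_eq_zero _).2 h0)).subset ?_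
  intro s hs
  rw [Set.mem_ofPred_eq] at hs ⊢
  rw [injective_iff_map_eq_zero, ← hgh]
  exact hs

theorem good_ne {F : E → ℝ} (hF : Aff F) : Good (fun p => F p ≠ 0) := by
  intro p0 p1 h0
  have h1 := inj_good (LinearMap.toSpanSingleton ℝ ℝ (F p0))
    (LinearMap.toSpanSingleton ℝ ℝ (F p1 - F p0)) (by
      rw [injective_iff_map_eq_zero]
      intro x hx
      simpa [h0] using hx)
  refine h1.subset ?_
  intro s hs
  rw [Set.mem_ofPred_eq] at hs ⊢
  simp only [not_not] at hs
  rw [hF] at hs
  intro hi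
  have := hi (a₁ := 1) (a₂ := 0) (by simpa using hs)
  simp at this

end good

/-! ### Dimension counts -/

section dim

variable {E E' : Type*} [AddCommGroup E] [Module ℝ E] [AddCommGroup E'] [Module ℝ E']
  [FiniteDimensional ℝ E]

theorem dim_split (L : Submodule ℝ E) (φ : E →ₗ[ℝ] E') :
    Module.finrank ℝ (L.map φ) + Module.finrank ℝ (L ⊓ LinearMap.ker φ : Submodule ℝ E) =
      Module.finrank ℝ L := by
  have h1 := LinearMap.finrank_range_add_finrank_ker (φ.domRestrict L)
  have h2 : LinearMap.range (φ.domRestrict L) = L.map φ := by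
    rw [LinearMap.domRestrict, LinearMap.range_comp, Submodule.range_subtype]
  have h3 : (LinearMap.ker (φ.domRestrict L)).map L.subtype = L ⊓ LinearMap.ker φ := by
    ext x
    simp only [Submodule.mem_map, LinearMap.mem_ker, LinearMap.domRestrict_apply,
      Submodule.subtype_apply, Submodule.mem_inf]
    constructor
    · rintro ⟨y, hy, rfl⟩
      exact ⟨y.2, hy⟩
    · rintro ⟨h, h'⟩
      exact ⟨⟨x, h⟩, h', rfl⟩
  rw [← h3, Submodule.finrank_map_subtype_eq, ← h2]
  exact h1

theorem dim_le_add {L : Submodule ℝ E} (φ : E →ₗ[ℝ] E') {a b : ℕ}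
    (ha : Module.finrank ℝ (L.map φ) ≤ a)
    (hb : Module.finrank ℝ (L ⊓ LinearMap.ker φ : Submodule ℝ E) ≤ b) :
    Module.finrank ℝ L ≤ a + b := by
  have := dim_split L φ
  omega

/-- a subspace on which `φ` is injective -/
theorem dim_le_of_inj {L : Submodule ℝ E} (φ : E →ₗ[ℝ] E') (M : Submodule ℝ E')
    [FiniteDimensional ℝ M] (h : ∀ x ∈ L, φ x ∈ M) (hi : ∀ x ∈ L, φ x = 0 → x = 0) :
    Module.finrank ℝ L ≤ Module.finrank ℝ M := by
  have h1 := dim_split L φ
  have h2 : L ⊓ LinearMap.ker φ = ⊥ := by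
    rw [eq_bot_iff]
    intro x hx
    exact hi x hx.1 hx.2
  rw [h2, finrank_bot, add_zero] at h1
  rw [← h1]
  apply Submodule.finrank_mono
  rintro _ ⟨x, hx, rfl⟩
  exact h x hx

/-- several copies of a subspace -/
theorem dim_pi [FiniteDimensional ℝ E'] {k : ℕ} (L : Submodule ℝ E) (K : Submodule ℝ E')
    (φ : Fin k → E →ₗ[ℝ] E')
    (h : ∀ i, ∀ u ∈ L, φ i u ∈ K) (hi : ∀ u ∈ L, (∀ i, φ i u = 0) → u = 0) :
    Module.finrank ℝ L ≤ k * Module.finrank ℝ K := by
  let Φ : L →ₗ[ℝ] (Fin k → K) := LinearMap.pi fun i =>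
    LinearMap.codRestrict K ((φ i).comp L.subtype) (fun u => h i u u.2)
  have hinj : Function.Injective Φ := by
    rw [injective_iff_map_eq_zero]
    rintro ⟨u, hu⟩ h0
    apply Subtype.ext
    refine hi u hu fun i => ?_
    exact congrArg Subtype.val (congrFun h0 i)
  have h1 := LinearMap.finrank_le_finrank_of_injective hinj
  rw [Module.finrank_pi_fintype] at h1
  simpa only [Finset.sum_const, Finset.card_univ, Fintype.card_fin, smul_eq_mul] using h1

end dim

end Pool.Agent.T2h34.CP
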