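import Mathlib
import Pool.Agent.H789R5.RF.Rank
import Pool.Agent.T2h34.CP.Lin

set_option autoImplicit false
set_option linter.unusedSectionVars false

/-! Frameworks with sliders, and contractions of one factor of a cartesian product. -/

namespace Pool.Agent.T2h34.CP

open Matrix Pool.Agent.H283R2.DR Pool.Agent.H283R2.DR.TA Pool.Agent.H789R5

variable {V V' Y : Type} {d : ℕ}

/-- one slider at each vertex pins the framework -/
def SP (G : SimpleGraph V) (P s : V → Fin d → ℝ) : Prop :=
  ∀ w, IsMotion G P w → (∀ v, s v ⬝ᵥ w v = 0) → w = 0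

/-- two sliders at each vertex pin the framework -/
def SP2 (G : SimpleGraph V) (P s s' : V → Fin d → ℝ) : Prop :=
  ∀ w, IsMotion G P w → (∀ v, s v ⬝ᵥ w v = 0) → (∀ v, s' v ⬝ᵥ w v = 0) → w = 0

/-- pinned by one slider for some placement -/
def Sl (d : ℕ) (G : SimpleGraph V) : Prop := ∃ P s : V → Fin d → ℝ, SP G P s

/-- pinned by two sliders for some placement -/
def Sl2 (d : ℕ) (G : SimpleGraph V) : Prop := ∃ P s s' : V → Fin d → ℝ, SP2 G P s s'

/-- the rigidity map with prescribed directions -/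
noncomputable def rigD (G : SimpleGraph V) (D : V → V → Fin d → ℝ) :
    (V → Fin d → ℝ) →ₗ[ℝ] (V × V → ℝ) := by
  classical
  exact
  { toFun := fun q e => if G.Adj e.1 e.2 then D e.1 e.2 ⬝ᵥ (q e.1 - q e.2) else 0
    map_add' := by
      intro q q'
      funext e
      by_cases h : G.Adj e.1 e.2
      · simp only [h, if_true, Pi.add_apply]
        rw [← dotProduct_add]
        congr 1
        abel
      · simp [h]
    map_smul' := by
      intro c q
      funext e
      by_cases h : G.Adj e.1 e.2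
      · simp only [h, if_true, Pi.smul_apply, RingHom.id_apply]
        rw [← smul_sub, dotProduct_smul]
      · simp [h] }

theorem rigD_apply (G : SimpleGraph V) (D : V → V → Fin d → ℝ) (q : V → Fin d → ℝ) {u v : V}
    (h : G.Adj u v) : rigD G D q (u, v) = D u v ⬝ᵥ (q u - q v) := by
  simp [rigD, h]

theorem rigD_apply_not (G : SimpleGraph V) (D : V → V → Fin d → ℝ) (q : V → Fin d → ℝ) {u v : V}
    (h : ¬ G.Adj u v) : rigD G D q (u, v) = 0 := by
  simp [rigD, h]

theorem rigD_eq_zero (G : SimpleGraph V) (D : V → V → Fin d → ℝ) (q : V → Fin d → ℝ) :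
    rigD G D q = 0 ↔ ∀ u v, G.Adj u v → D u v ⬝ᵥ (q u - q v) = 0 := by
  constructor
  · intro h u v huv
    have := congrFun h (u, v)
    rwa [rigD_apply G D q huv] at this
  · intro h
    funext e
    obtain ⟨u, v⟩ := e
    by_cases huv : G.Adj u v
    · rw [rigD_apply G D q huv]; exact h u v huv
    · rw [rigD_apply_not G D q huv]; rfl

theorem rigD_line (G : SimpleGraph V) (D0 D1 : V → V → Fin d → ℝ) (s : ℝ) :
    rigD G (D0 + s • D1) = rigD G D0 + s • rigD G D1 := by
  refine LinearMap.ext fun q => funext fun e => ?_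
  obtain ⟨u, v⟩ := e
  rw [LinearMap.add_apply, LinearMap.smul_apply, Pi.add_apply, Pi.smul_apply]
  by_cases huv : G.Adj u v
  · rw [rigD_apply _ _ _ huv, rigD_apply _ _ _ huv, rigD_apply _ _ _ huv]
    simp only [Pi.add_apply, Pi.smul_apply]
    rw [add_dotProduct, smul_dotProduct]
  · rw [rigD_apply_not _ _ _ huv, rigD_apply_not _ _ _ huv, rigD_apply_not _ _ _ huv]
    simp

theorem rigD_rig (G : SimpleGraph V) (p : V → Fin d → ℝ) : rigD G (fun u v => p u - p v) = rig G p := by
  refine LinearMap.ext fun q => funext fun e => ?_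
  obtain ⟨u, v⟩ := e
  by_cases huv : G.Adj u v
  · rw [rigD_apply _ _ _ huv, rig_apply_of_adj _ _ _ huv]
  · rw [rigD_apply_not _ _ _ huv, rig_apply_of_not _ _ _ huv]

theorem rig_eq_zero (G : SimpleGraph V) (p q : V → Fin d → ℝ) :
    rig G p q = 0 ↔ IsMotion G p q := by
  rw [← LinearMap.mem_ker, mem_ker_rig]

/-- the slider map -/
noncomputable def sld (s : V → Fin d → ℝ) : (V → Fin d → ℝ) →ₗ[ℝ] (V → ℝ) where
  toFun q v := s v ⬝ᵥ q v
  map_add' q q' := by
    funext v
    simp only [Pi.add_apply, dotProduct_add]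
  map_smul' c q := by
    funext v
    simp only [Pi.smul_apply, dotProduct_smul, RingHom.id_apply]

theorem sld_eq_zero (s q : V → Fin d → ℝ) : sld s q = 0 ↔ ∀ v, s v ⬝ᵥ q v = 0 :=
  ⟨fun h v => congrFun h v, fun h => funext h⟩

theorem sld_line (s0 s1 : V → Fin d → ℝ) (t : ℝ) : sld (s0 + t • s1) = sld s0 + t • sld s1 := by
  refine LinearMap.ext fun q => funext fun v => ?_
  simp only [sld, LinearMap.coe_mk, AddHom.coe_mk, LinearMap.add_apply, LinearMap.smul_apply,
    Pi.add_apply, Pi.smul_apply, add_dotProduct, smul_dotProduct]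

theorem sld_sub (s0 s1 : V → Fin d → ℝ) : sld (s0 - s1) = sld s0 - sld s1 := by
  refine LinearMap.ext fun q => funext fun v => ?_
  simp only [sld, LinearMap.coe_mk, AddHom.coe_mk, LinearMap.sub_apply,
    Pi.sub_apply, sub_dotProduct]

theorem rig_sub (G : SimpleGraph V) (p0 p1 : V → Fin d → ℝ) :
    rig G (p0 - p1) = rig G p0 - rig G p1 := by
  have := rig_line G p0 p1 (-1)
  rw [neg_one_smul, ← sub_eq_add_neg] at this
  rw [this]
  refine LinearMap.ext fun q => ?_
  simp [sub_eq_add_neg]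

theorem prod_ap {A B C : Type*} [AddCommGroup A] [Module ℝ A] [AddCommGroup B] [Module ℝ B]
    [AddCommGroup C] [Module ℝ C] (f : A →ₗ[ℝ] B) (g : A →ₗ[ℝ] C) (x : A) :
    (f.prod g) x = (f x, g x) := rfl

/-- rigidity map together with two slider maps -/
noncomputable def full (G : SimpleGraph V) (x : (V → Fin d → ℝ) × (V → Fin d → ℝ) × (V → Fin d → ℝ)) :
    (V → Fin d → ℝ) →ₗ[ℝ] (V × V → ℝ) × (V → ℝ) × (V → ℝ) :=
  (rig G x.1).prod ((sld x.2.1).prod (sld x.2.2))

theorem full_eq_zero (G : SimpleGraph V)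
    (x : (V → Fin d → ℝ) × (V → Fin d → ℝ) × (V → Fin d → ℝ)) (w : V → Fin d → ℝ) :
    full G x w = 0 ↔ IsMotion G x.1 w ∧ (∀ v, x.2.1 v ⬝ᵥ w v = 0) ∧ (∀ v, x.2.2 v ⬝ᵥ w v = 0) := by
  simp only [full, prod_ap, Prod.mk_eq_zero, rig_eq_zero, sld_eq_zero]

theorem full_aff (G : SimpleGraph V) : Aff (full (d := d) G) := by
  intro x y s
  refine LinearMap.ext fun w => ?_
  simp only [full, prod_ap, LinearMap.add_apply, LinearMap.smul_apply,
    LinearMap.sub_apply, Prod.fst_add, Prod.smul_fst, Prod.snd_add, Prod.smul_snd,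
    Prod.fst_sub, Prod.snd_sub, rig_line, rig_sub, sld_line, sld_sub]
  rfl

theorem sp2_good [Finite V] (G : SimpleGraph V) :
    Good (fun x : (V → Fin d → ℝ) × (V → Fin d → ℝ) × (V → Fin d → ℝ) =>
      SP2 G x.1 x.2.1 x.2.2) := by
  have := Fintype.ofFinite V
  refine good_congr (good_inj (full_aff G)) ?_
  intro x
  constructor
  · intro h w h1 h2 h3
    exact h w ((full_eq_zero G x w).2 ⟨h1, h2, h3⟩)
  · intro h w hw
    obtain ⟨h1, h2, h3⟩ := (full_eq_zero G x w).1 hw
    exact h w h1 h2 h3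

theorem sp_iff_sp2 (G : SimpleGraph V) (P s : V → Fin d → ℝ) : SP G P s ↔ SP2 G P s 0 := by
  constructor
  · intro h w h1 h2 _
    exact h w h1 h2
  · intro h w h1 h2
    exact h w h1 h2 (by intro v; simp)

theorem sp_good [Finite V] (G : SimpleGraph V) :
    Good (fun x : (V → Fin d → ℝ) × (V → Fin d → ℝ) => SP G x.1 x.2) := by
  have h1 := Aff.good (sp2_good (d := d) G) (F := fun x : (V → Fin d → ℝ) × (V → Fin d → ℝ) =>
    (x.1, x.2, (0 : V → Fin d → ℝ))) (by
      intro p0 p1 s
      simp)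
  exact good_congr h1 fun x => (sp_iff_sp2 G x.1 x.2).symm

theorem mo_good [Finite V] (G : SimpleGraph V) (k : ℕ) :
    Good (fun P : V → Fin d → ℝ => mo G P ≤ k) := by
  have := Fintype.ofFinite V
  refine good_ker (F := fun P : V → Fin d → ℝ => rig G P) ?_ k
  intro p0 p1 s
  simp only [rig_line, rig_sub]

/-! ### Two sliders from one slider in the lower dimension -/

theorem cons_dot {m : ℕ} (a b : ℝ) (x y : Fin m → ℝ) :
    vecCons a x ⬝ᵥ vecCons b y = a * b + x ⬝ᵥ y := by
  rw [cons_dotProduct_cons]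

theorem dot_split {m : ℕ} (x y : Fin (m + 1) → ℝ) :
    x ⬝ᵥ y = x 0 * y 0 + vecTail x ⬝ᵥ vecTail y := by
  simp only [dotProduct, Fin.sum_univ_succ, vecTail, Function.comp]

theorem vec_ext {m : ℕ} {x y : Fin (m + 1) → ℝ} (h0 : x 0 = y 0) (h : vecTail x = vecTail y) :
    x = y := by
  funext i
  refine Fin.cases h0 (fun j => congrFun h j) i

theorem tail_sub {m : ℕ} (x y : Fin (m + 1) → ℝ) : vecTail (x - y) = vecTail x - vecTail y := rfl

theorem sl2_of_sl (G : SimpleGraph V) (h : Sl d G) : Sl2 (d + 1) G := by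
  obtain ⟨P, s, h⟩ := h
  refine ⟨fun v => vecCons 0 (P v), fun v => vecCons 0 (s v), fun _ => vecCons 1 0, ?_⟩
  intro w h1 h2 h3
  have h4 : ∀ v, w v 0 = 0 := by
    intro v
    have := h3 v
    rw [dot_split] at this
    simpa using this
  have h5 := h (fun v => vecTail (w v)) (by
    intro u v huv
    have := h1 u v huv
    rw [dot_split] at this
    simpa using this) (by
    intro v
    have := h2 v
    rw [dot_split] at this
    simpa using this)
  funext v
  exact vec_ext (h4 v) (congrFun h5 v)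

/-! ### Contraction of a factor -/

/-- `f` contracts the connected fibres of `G'`, and each edge of `G` is the image of an edge of
`G'`. -/
structure Contr (G' : SimpleGraph V') (G : SimpleGraph V) (f : V' → V) : Prop where
  surj : Function.Surjective f
  conn : ∀ u v, f u = f v → Relation.ReflTransGen (fun a b => G'.Adj a b ∧ f a = f b) u v
  lift : ∀ a b, G.Adj a b → ∃ u v, f u = a ∧ f v = b ∧ G'.Adj u v

section contr

variable (G' : SimpleGraph V') (G : SimpleGraph V) (H : SimpleGraph Y) (f : V' → V)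

open Classical in
/-- directions at the limit -/
noncomputable def D0 (f : V' → V) (P : V × Y → Fin d → ℝ) (ς : V' × Y → Fin d → ℝ)
    (x y : V' × Y) : Fin d → ℝ :=
  if f x.1 = f y.1 ∧ x.2 = y.2 then ς x - ς y else P (f x.1, x.2) - P (f y.1, y.2)

open Classical in
/-- derivative of the directions -/
noncomputable def D1 (f : V' → V) (ς : V' × Y → Fin d → ℝ)
    (x y : V' × Y) : Fin d → ℝ :=
  if f x.1 = f y.1 ∧ x.2 = y.2 then 0 else ς x - ς y

variable {G' G H f}

theorem D0_layer (P : V × Y → Fin d → ℝ) (ς w : V' × Y → Fin d → ℝ)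
    (h : rigD (G' □ H) (D0 f P ς) w = 0) (u : V') :
    IsMotion H (fun y => P (f u, y)) (fun y => w (u, y)) := by
  rw [rigD_eq_zero] at h
  intro y y' hy
  have h1 := h (u, y) (u, y') (by rw [SimpleGraph.boxProd_adj]; right; exact ⟨hy, rfl⟩)
  rw [D0, if_neg (fun hc => hy.ne hc.2)] at h1
  exact h1

theorem D0_fibre (P : V × Y → Fin d → ℝ) (ς w : V' × Y → Fin d → ℝ)
    (h : rigD (G' □ H) (D0 f P ς) w = 0) {u v : V'} (huv : G'.Adj u v) (hf : f u = f v) (y : Y) :
    (ς (u, y) - ς (v, y)) ⬝ᵥ (w (u, y) - w (v, y)) = 0 := by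
  rw [rigD_eq_zero] at h
  have h1 := h (u, y) (v, y) (by rw [SimpleGraph.boxProd_adj]; left; exact ⟨huv, rfl⟩)
  rw [D0, if_pos ⟨hf, rfl⟩] at h1
  exact h1

theorem D0_const (hc : Contr G' G f) (P : V × Y → Fin d → ℝ) (ς w : V' × Y → Fin d → ℝ)
    (h : rigD (G' □ H) (D0 f P ς) w = 0)
    (hw : ∀ u v, G'.Adj u v → f u = f v → ∀ y, w (u, y) = w (v, y)) :
    ∃ w' : V × Y → Fin d → ℝ, IsMotion (G □ H) P w' ∧ ∀ x, w x = w' (f x.1, x.2) := by
  have h1 : ∀ u v, f u = f v → ∀ y, w (u, y) = w (v, y) := by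
    intro u v huv
    have := hc.conn u v huv
    induction this with
    | refl => intro y; rfl
    | @tail b c hab hbc ih =>
      intro y
      rw [ih (huv.trans hbc.2.symm) y]
      exact hw b c hbc.1 hbc.2 y
  choose g hg using hc.surj
  have h2 : ∀ u y, w (u, y) = w (g (f u), y) := fun u y => h1 u (g (f u)) (hg (f u)).symm y
  refine ⟨fun x => w (g x.1, x.2), ?_, fun x => h2 x.1 x.2⟩
  intro x x' hx
  rw [SimpleGraph.boxProd_adj] at hx
  obtain ⟨a, y⟩ := x
  obtain ⟨a', y'⟩ := x'
  simp only at hx ⊢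
  rcases hx with ⟨hx, rfl⟩ | ⟨hx, rfl⟩
  · obtain ⟨u, v, rfl, rfl, huv⟩ := hc.lift a a' hx
    rw [← h2, ← h2]
    rw [rigD_eq_zero] at h
    have h3 := h (u, y) (v, y) (by rw [SimpleGraph.boxProd_adj]; left; exact ⟨huv, rfl⟩)
    rw [D0, if_neg (fun hc => hx.ne hc.1)] at h3
    exact h3
  · have h3 := D0_layer P ς w h (g a) y y' hx
    simp only [hg] at h3
    exact h3

theorem rigD_of_motion (P : V × Y → Fin d → ℝ) (ς w : V' × Y → Fin d → ℝ) {s : ℝ} (hs : s ≠ 0)
    (h : IsMotion (G' □ H) ((fun x : V' × Y => P (f x.1, x.2)) + s • ς) w) :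
    rigD (G' □ H) (D0 f P ς + s • D1 f ς) w = 0 := by
  rw [rigD_eq_zero]
  intro x y hxy
  have h1 := h x y hxy
  simp only [Pi.add_apply, Pi.smul_apply] at h1 ⊢
  by_cases hc : f x.1 = f y.1 ∧ x.2 = y.2
  · rw [D0, D1, if_pos hc, if_pos hc, smul_zero, add_zero]
    rw [hc.1, hc.2] at h1
    have e : (P (f y.1, y.2) + s • ς x - (P (f y.1, y.2) + s • ς y)) = s • (ς x - ς y) := by
      rw [smul_sub]; abel
    rw [e, smul_dotProduct, smul_eq_mul] at h1
    exact (mul_eq_zero.1 h1).resolve_left hs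
  · rw [D0, D1, if_neg hc, if_neg hc]
    rw [← h1]
    congr 1
    rw [smul_sub]; abel

theorem contr_S [Finite V] [Finite V'] [Finite Y] (hc : Contr G' G f) (hS : Sl d (G □ H))
    (hS2 : Sl2 d H) : Sl d (G' □ H) := by
  classical
  have := Fintype.ofFinite V
  have := Fintype.ofFinite V'
  have := Fintype.ofFinite Y
  have hfam := good_family
    (E := (V × Y → Fin d → ℝ) × (V × Y → Fin d → ℝ) × (V' × Y → Fin d → ℝ))
    (ι := Option (V' × V'))
    (fun i x => match i with
      | none => SP (G □ H) x.1 x.2.1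
      | some (u, v) => (f u = f v ∧ u ≠ v) → SP2 H (fun y => x.1 (f u, y))
          (fun y => x.2.2 (u, y) - x.2.2 (v, y)) (fun y => x.2.1 (f u, y))) ?_ ?_
  · obtain ⟨⟨P, σ, ς⟩, hx⟩ := hfam
    have h0 : SP (G □ H) P σ := hx none
    have h1 : ∀ u v, f u = f v → u ≠ v → SP2 H (fun y => P (f u, y))
      (fun y => ς (u, y) - ς (v, y)) (fun y => σ (f u, y)) := fun u v h h' => hx (some (u, v)) ⟨h, h'⟩
    set σ' : V' × Y → Fin d → ℝ := fun x => σ (f x.1, x.2) with hσ'
    have hinj : Function.Injective ((rigD (G' □ H) (D0 f P ς)).prod (sld σ')) := by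
      rw [injective_iff_map_eq_zero]
      intro w hw
      rw [prod_ap, Prod.mk_eq_zero, sld_eq_zero] at hw
      obtain ⟨hw1, hw2⟩ := hw
      obtain ⟨w', hw', e⟩ := D0_const hc P ς w hw1 (by
        intro u v huv hf y
        have h2 := h1 u v hf huv.ne (fun y => w (u, y) - w (v, y)) (by
          intro y y' hy
          have a1 := D0_layer P ς w hw1 u y y' hy
          have a2 := D0_layer P ς w hw1 v y y' hy
          rw [← hf] at a2
          have e : w (u, y) - w (v, y) - (w (u, y') - w (v, y')) =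
            (w (u, y) - w (u, y')) - (w (v, y) - w (v, y')) := by abel
          rw [e, dotProduct_sub, a1, a2, sub_zero]) (fun y => D0_fibre P ς w hw1 huv hf y) (by
          intro y
          have a1 := hw2 (u, y)
          have a2 := hw2 (v, y)
          simp only [hσ'] at a1 a2
          rw [← hf] at a2
          rw [dotProduct_sub, a1, a2, sub_zero])
        have := congrFun h2 y
        exact sub_eq_zero.1 this)
      have h3 : w' = 0 := by
        refine h0 w' hw' ?_
        intro x
        obtain ⟨u, hu⟩ := hc.surj x.1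
        have := hw2 (u, x.2)
        rw [e] at this
        simp only [hσ', hu] at this
        exact this
      funext x
      rw [e x, h3]
      rfl
    have hfin := (inj_good _ ((rigD (G' □ H) (D1 f ς)).prod
      (0 : (V' × Y → Fin d → ℝ) →ₗ[ℝ] (V' × Y → ℝ))) hinj).union (Set.finite_singleton (0 : ℝ))
    obtain ⟨s, hs⟩ := hfin.infinite_compl.nonempty
    rw [Set.mem_compl_iff, Set.mem_union, not_or, Set.mem_ofPred_eq, not_not,
      Set.mem_singleton_iff] at hs
    obtain ⟨hs1, hs2⟩ := hs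
    refine ⟨(fun x : V' × Y => P (f x.1, x.2)) + s • ς, σ', ?_⟩
    intro w hw hw2
    have h2 := rigD_of_motion P ς w hs2 hw
    rw [injective_iff_map_eq_zero] at hs1
    apply hs1
    rw [rigD_line] at h2
    rw [LinearMap.add_apply, LinearMap.smul_apply, prod_ap, prod_ap,
      (sld_eq_zero σ' w).2 hw2]
    ext1
    · exact h2
    · simp
  · rintro (_ | ⟨u, v⟩)
    · exact Aff.good (sp_good (G □ H)) (F := fun x : (V × Y → Fin d → ℝ) × (V × Y → Fin d → ℝ) ×
        (V' × Y → Fin d → ℝ) => (x.1, x.2.1)) (by intro p0 p1 s; rfl)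
    · refine good_imp fun _ => ?_
      exact Aff.good (sp2_good H) (F := fun x : (V × Y → Fin d → ℝ) × (V × Y → Fin d → ℝ) ×
        (V' × Y → Fin d → ℝ) => ((fun y => x.1 (f u, y)),
          (fun y => x.2.2 (u, y) - x.2.2 (v, y)), (fun y => x.2.1 (f u, y)))) (by
            intro p0 p1 s
            refine Prod.ext ?_ (Prod.ext ?_ ?_)
            · rfl
            · funext y i
              simp only [Prod.snd_add, Prod.smul_snd, Prod.snd_sub, Pi.add_apply, Pi.smul_apply,
                Pi.sub_apply, smul_eq_mul, Prod.fst_add, Prod.smul_fst, Prod.fst_sub]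
              ring
            · rfl)
  · rintro (_ | ⟨u, v⟩)
    · obtain ⟨P, σ, h⟩ := hS
      exact ⟨(P, σ, 0), h⟩
    · by_cases huv : f u = f v ∧ u ≠ v
      · obtain ⟨P, s, s', h⟩ := hS2
        refine ⟨(fun x => P x.2, fun x => s' x.2, fun x => if x.1 = u then s x.2 else 0), fun _ => ?_⟩
        simp only [huv.2.symm, if_true, if_false, sub_zero]
        exact h
      · exact ⟨0, fun h => absurd h huv⟩

theorem contr_R [Finite V] [Finite V'] [Finite Y] (hc : Contr G' G f) {k : ℕ}
    (hR : ∃ P : V × Y → Fin d → ℝ, mo (G □ H) P ≤ k)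
    (hS : Sl d H) : ∃ P : V' × Y → Fin d → ℝ, mo (G' □ H) P ≤ k := by
  classical
  have := Fintype.ofFinite V
  have := Fintype.ofFinite V'
  have := Fintype.ofFinite Y
  have hfam := good_family
    (E := (V × Y → Fin d → ℝ) × (V' × Y → Fin d → ℝ))
    (ι := Option (V' × V'))
    (fun i x => match i with
      | none => mo (G □ H) x.1 ≤ k
      | some (u, v) => (f u = f v ∧ u ≠ v) → SP H (fun y => x.1 (f u, y))
          (fun y => x.2 (u, y) - x.2 (v, y))) ?_ ?_
  · obtain ⟨⟨P, ς⟩, hx⟩ := hfam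
    have h0 : mo (G □ H) P ≤ k := hx none
    have h1 : ∀ u v, f u = f v → u ≠ v → SP H (fun y => P (f u, y))
      (fun y => ς (u, y) - ς (v, y)) := fun u v h h' => hx (some (u, v)) ⟨h, h'⟩
    have hk : Module.finrank ℝ (LinearMap.ker (rigD (G' □ H) (D0 f P ς))) ≤ k := by
      refine le_trans ?_ h0
      set φ : (V × Y → Fin d → ℝ) →ₗ[ℝ] (V' × Y → Fin d → ℝ) :=
        LinearMap.funLeft ℝ (Fin d → ℝ) (fun x : V' × Y => (f x.1, x.2)) with hφ
      have h2 : LinearMap.ker (rigD (G' □ H) (D0 f P ς)) ≤ (Mot (G □ H) P).map φ := by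
        intro w hw
        rw [LinearMap.mem_ker] at hw
        obtain ⟨w', hw', e⟩ := D0_const hc P ς w hw (by
          intro u v huv hf y
          have h2 := h1 u v hf huv.ne (fun y => w (u, y) - w (v, y)) (by
            intro y y' hy
            have a1 := D0_layer P ς w hw u y y' hy
            have a2 := D0_layer P ς w hw v y y' hy
            rw [← hf] at a2
            have e : w (u, y) - w (v, y) - (w (u, y') - w (v, y')) =
              (w (u, y) - w (u, y')) - (w (v, y) - w (v, y')) := by abel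
            rw [e, dotProduct_sub, a1, a2, sub_zero]) (fun y => D0_fibre P ς w hw huv hf y)
          have := congrFun h2 y
          exact sub_eq_zero.1 this)
        refine ⟨w', (mem_mot _ _ _).2 hw', ?_⟩
        funext x
        rw [e x]
        rfl
      exact (Submodule.finrank_mono h2).trans (Submodule.finrank_map_le φ _)
    have hfin := (ker_good (rigD (G' □ H) (D0 f P ς)) (rigD (G' □ H) (D1 f ς))).union
      (Set.finite_singleton (0 : ℝ))
    obtain ⟨s, hs⟩ := hfin.infinite_compl.nonempty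
    rw [Set.mem_compl_iff, Set.mem_union, not_or, Set.mem_ofPred_eq, not_lt,
      Set.mem_singleton_iff] at hs
    obtain ⟨hs1, hs2⟩ := hs
    refine ⟨(fun x : V' × Y => P (f x.1, x.2)) + s • ς, ?_⟩
    rw [← rigD_line] at hs1
    refine le_trans (Submodule.finrank_mono ?_) (hs1.trans hk)
    intro w hw
    rw [mem_mot] at hw
    exact rigD_of_motion P ς w hs2 hw
  · rintro (_ | ⟨u, v⟩)
    · exact Aff.good (mo_good (G □ H) k) (F := fun x : (V × Y → Fin d → ℝ) ×
        (V' × Y → Fin d → ℝ) => x.1) (by intro p0 p1 s; rfl)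
    · refine good_imp fun _ => ?_
      exact Aff.good (sp_good H) (F := fun x : (V × Y → Fin d → ℝ) ×
        (V' × Y → Fin d → ℝ) => ((fun y => x.1 (f u, y)),
          (fun y => x.2 (u, y) - x.2 (v, y)))) (by
            intro p0 p1 s
            refine Prod.ext ?_ ?_
            · rfl
            · funext y i
              simp only [Prod.snd_add, Prod.smul_snd, Prod.snd_sub, Pi.add_apply, Pi.smul_apply,
                Pi.sub_apply, smul_eq_mul]
              ring)
  · rintro (_ | ⟨u, v⟩)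
    · obtain ⟨P, h⟩ := hR
      exact ⟨(P, 0), h⟩
    · by_cases huv : f u = f v ∧ u ≠ v
      · obtain ⟨P, s, h⟩ := hS
        refine ⟨(fun x => P x.2, fun x => if x.1 = u then s x.2 else 0), fun _ => ?_⟩
        simp only [huv.2.symm, if_true, if_false, sub_zero]
        exact h
      · exact ⟨0, fun h => absurd h huv⟩

end contr

end Pool.Agent.T2h34.CP
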