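import Mathlib
import Pool.Agent.T2h34.CP.Sl

set_option autoImplicit false
set_option linter.unusedSectionVars false

/-! A connected graph with a cycle contracts onto a triangle. -/

namespace Pool.Agent.T2h34.CP

variable {V : Type}

theorem walk_in (R : V → V → Prop) (u : V) (S : V → Prop)
    (hS : ∀ a b, R a b → a ≠ u → b ≠ u → S a → S b) {x : V} (hx : S x)
    (h : Relation.ReflTransGen R x u) :
    Relation.ReflTransGen (fun a b => R a b ∧ (S a ∨ a = u) ∧ (S b ∨ b = u)) x u := by
  induction h using Relation.ReflTransGen.head_induction_on with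
  | refl => exact .refl
  | @head a b hab hb ih =>
    by_cases ha : a = u
    · rw [ha]
    · by_cases hbu : b = u
      · rw [hbu] at hab
        exact .single ⟨hab, Or.inl hx, Or.inr rfl⟩
      · have hb' := hS a b hab ha hbu hx
        exact .head ⟨hab, Or.inl hx, Or.inl hb'⟩ (ih hb')

theorem last_edge (R : V → V → Prop) (u : V) (S : V → Prop)
    (hS : ∀ a b, R a b → a ≠ u → b ≠ u → S a → S b) {x : V} (hx : S x) (hxu : x ≠ u)
    (h : Relation.ReflTransGen R x u) : ∃ a, S a ∧ R a u ∧ a ≠ u := by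
  induction h using Relation.ReflTransGen.head_induction_on with
  | refl => exact absurd rfl hxu
  | @head a b hab hb ih =>
    by_cases hbu : b = u
    · rw [hbu] at hab
      exact ⟨a, hx, hab, hxu⟩
    · exact ih (hS a b hab hxu hbu hx) hbu

theorem rtg_symm {R : V → V → Prop} (hR : ∀ a b, R a b → R b a) {x y : V}
    (h : Relation.ReflTransGen R x y) : Relation.ReflTransGen R y x := by
  induction h with
  | refl => exact .refl
  | tail _ hbc ih => exact .head (hR _ _ hbc) ih

theorem rtg_mono {R R' : V → V → Prop} (hR : ∀ a b, R a b → R' a b) {x y : V}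
    (h : Relation.ReflTransGen R x y) : Relation.ReflTransGen R' x y := by
  induction h with
  | refl => exact .refl
  | tail _ hbc ih => exact .tail ih (hR _ _ hbc)

theorem exists_contr (G : SimpleGraph V) (hG : G.Connected) (hA : ¬ G.IsAcyclic) :
    ∃ f : V → Fin 3, Contr G (⊤ : SimpleGraph (Fin 3)) f := by
  classical
  rw [SimpleGraph.isAcyclic_iff_forall_adj_isBridge] at hA
  push Not at hA
  obtain ⟨u, v, huv, hb⟩ := hA
  have hc1 := hG.connected_delete_edge_of_not_isBridge hb
  set G1 := G.deleteEdges {s(u, v)} with hG1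
  have hle : ∀ a b, G1.Adj a b → G.Adj a b := fun a b h => SimpleGraph.deleteEdges_le _ h
  have hnuv : ¬ G1.Adj v u := by
    rw [hG1, SimpleGraph.deleteEdges_adj]
    rintro ⟨_, h⟩
    apply h
    rw [Set.mem_singleton_iff, Sym2.eq_swap]
  have hne : u ≠ v := huv.ne
  have hconn : ∀ x y, Relation.ReflTransGen G1.Adj x y := fun x y =>
    (SimpleGraph.reachable_iff_reflTransGen x y).1 (hc1.preconnected x y)
  set Ru : V → V → Prop := fun a b => G1.Adj a b ∧ a ≠ u ∧ b ≠ u with hRu
  have hRus : ∀ a b, Ru a b → Ru b a := fun a b h => ⟨h.1.symm, h.2.2, h.2.1⟩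
  set C : V → Prop := fun x => Relation.ReflTransGen Ru v x with hC
  have hCc : ∀ a b, Ru a b → C a → C b := fun a b hab ha => Relation.ReflTransGen.tail ha hab
  have hCu : ¬ C u := by
    intro h
    rcases Relation.ReflTransGen.cases_tail h with h | ⟨b, _, hb⟩
    · exact hne h
    · exact hb.2.2 rfl
  have hCv : C v := .refl
  obtain ⟨c, hc, hcu, hcne⟩ := last_edge G1.Adj u C (fun a b hab ha hb => hCc a b ⟨hab, ha, hb⟩)
    hCv hne.symm (hconn v u)
  have hcv : c ≠ v := by
    rintro rfl
    exact hnuv hcu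
  set Rv : V → V → Prop := fun a b => Ru a b ∧ a ≠ v ∧ b ≠ v with hRv
  have hRvs : ∀ a b, Rv a b → Rv b a := fun a b h => ⟨hRus _ _ h.1, h.2.2, h.2.1⟩
  set C' : V → Prop := fun x => Relation.ReflTransGen Rv c x with hC'
  have hCc' : ∀ a b, Rv a b → C' a → C' b := fun a b hab ha => Relation.ReflTransGen.tail ha hab
  have hCv' : ¬ C' v := by
    intro h
    rcases Relation.ReflTransGen.cases_tail h with h | ⟨b, _, hb⟩
    · exact hcv h.symm
    · exact hb.2.2 rfl
  have hcC' : C' c := .refl
  have hsub : ∀ x, C' x → C x := by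
    intro x hx
    refine Relation.ReflTransGen.trans hc (rtg_mono (fun a b h => h.1) hx)
  have hCu' : ¬ C' u := fun h => hCu (hsub u h)
  obtain ⟨w, hw, hwv, hwne⟩ := last_edge Ru v C' (fun a b hab ha hb => hCc' a b ⟨hab, ha, hb⟩)
    hcC' hcv (rtg_symm hRus hc)
  set f : V → Fin 3 := fun x => if C' x then 2 else if C x then 1 else 0 with hf
  have f2 : ∀ x, C' x → f x = 2 := fun x hx => if_pos hx
  have f1 : ∀ x, ¬ C' x → C x → f x = 1 := fun x hx hx' => by
    rw [hf]; simp only [hx, hx', if_false, if_true]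
  have f0 : ∀ x, ¬ C x → f x = 0 := fun x hx => by
    have : ¬ C' x := fun h => hx (hsub x h)
    rw [hf]; simp only [hx, this, if_false]
  have hroot : ∀ x, Relation.ReflTransGen (fun a b => G.Adj a b ∧ f a = f b) x
      (if f x = 2 then c else if f x = 1 then v else u) := by
    intro x
    by_cases hx' : C' x
    · rw [f2 x hx', if_pos rfl]
      have h1 := walk_in Rv c C' (fun a b hab _ _ => hCc' a b hab) hx' (rtg_symm hRvs hx')
      refine rtg_mono (fun a b h => ?_) h1
      have ha : f a = 2 := by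
        rcases h.2.1 with h | rfl
        · exact f2 a h
        · exact f2 _ hcC'
      have hb : f b = 2 := by
        rcases h.2.2 with h | rfl
        · exact f2 b h
        · exact f2 _ hcC'
      exact ⟨hle _ _ h.1.1.1, ha.trans hb.symm⟩
    · by_cases hx : C x
      · rw [f1 x hx' hx, if_neg (by decide), if_pos rfl]
        have h1 := walk_in Ru v (fun x => C x ∧ ¬ C' x) (fun a b hab ha hb hS =>
          ⟨hCc a b hab hS.1, fun hb' => hS.2 (hCc' b a (hRvs _ _ ⟨hab, ha, hb⟩) hb')⟩) ⟨hx, hx'⟩
          (rtg_symm hRus hx)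
        refine rtg_mono (fun a b h => ?_) h1
        have ha : f a = 1 := by
          rcases h.2.1 with h | rfl
          · exact f1 a h.2 h.1
          · exact f1 _ hCv' hCv
        have hb : f b = 1 := by
          rcases h.2.2 with h | rfl
          · exact f1 b h.2 h.1
          · exact f1 _ hCv' hCv
        exact ⟨hle _ _ h.1.1, ha.trans hb.symm⟩
      · rw [f0 x hx, if_neg (by decide), if_neg (by decide)]
        have h1 := walk_in G1.Adj u (fun x => ¬ C x) (fun a b hab ha hb hS hb' =>
          hS (hCc b a ⟨hab.symm, hb, ha⟩ hb')) hx (hconn x u)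
        refine rtg_mono (fun a b h => ?_) h1
        have ha : f a = 0 := by
          rcases h.2.1 with h | rfl
          · exact f0 a h
          · exact f0 _ hCu
        have hb : f b = 0 := by
          rcases h.2.2 with h | rfl
          · exact f0 b h
          · exact f0 _ hCu
        exact ⟨hle _ _ h.1, ha.trans hb.symm⟩
  have h01 : ∃ a b, f a = 0 ∧ f b = 1 ∧ G.Adj a b := ⟨u, v, f0 u hCu, f1 v hCv' hCv, huv⟩
  have h02 : ∃ a b, f a = 0 ∧ f b = 2 ∧ G.Adj a b :=
    ⟨u, c, f0 u hCu, f2 c hcC', (hle _ _ hcu).symm⟩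
  have h12 : ∃ a b, f a = 1 ∧ f b = 2 ∧ G.Adj a b :=
    ⟨v, w, f1 v hCv' hCv, f2 w hw, (hle _ _ hwv.1).symm⟩
  have hsw : ∀ i j, (∃ a b, f a = i ∧ f b = j ∧ G.Adj a b) → ∃ a b, f a = j ∧ f b = i ∧ G.Adj a b := by
    rintro i j ⟨a, b, ha, hb, hab⟩
    exact ⟨b, a, hb, ha, hab.symm⟩
  refine ⟨f, ⟨?_, ?_, ?_⟩⟩
  · intro i
    fin_cases i
    · exact ⟨u, f0 u hCu⟩
    · exact ⟨v, f1 v hCv' hCv⟩
    · exact ⟨c, f2 c hcC'⟩
  · intro x y hxy
    have h1 := hroot x
    have h2 := hroot y
    rw [← hxy] at h2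
    exact h1.trans (rtg_symm (fun a b h => ⟨h.1.symm, h.2.symm⟩) h2)
  · intro a b hab
    rw [SimpleGraph.top_adj] at hab
    fin_cases a <;> fin_cases b
    · exact absurd rfl hab
    · exact h01
    · exact h02
    · exact hsw _ _ h01
    · exact absurd rfl hab
    · exact h12
    · exact hsw _ _ h02
    · exact hsw _ _ h12
    · exact absurd rfl hab

end Pool.Agent.T2h34.CP
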