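import Mathlib
import Pool.Agent.T2h34.CP.Gr

set_option autoImplicit false
set_option linter.unusedSectionVars false

/-! The product with a triangle, whose three layers lie in three hyperplanes. -/

namespace Pool.Agent.T2h34.CP

open Matrix Pool.Agent.H283R2.DR Pool.Agent.H283R2.DR.TA Pool.Agent.H789R5

variable {Y : Type} {m : ℕ} {H : SimpleGraph Y}

/-- the triangle -/
abbrev K3 : SimpleGraph (Fin 3) := ⊤

/-- the three layers -/
def lay (c : ℝ) (q : Fin 3 → Y → Fin (m + 1) → ℝ) (x : Fin 3 × Y) : Fin (m + 2) → ℝ :=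
  (![vecCons (q 0 x.2 0) (vecCons c (vecTail (q 0 x.2))), vecCons 0 (q 1 x.2),
    vecCons 1 (q 2 x.2)] : Fin 3 → Fin (m + 2) → ℝ) x.1

theorem lay0 (c : ℝ) (q : Fin 3 → Y → Fin (m + 1) → ℝ) (y : Y) :
    lay c q (0, y) = vecCons (q 0 y 0) (vecCons c (vecTail (q 0 y))) := rfl

theorem lay1 (c : ℝ) (q : Fin 3 → Y → Fin (m + 1) → ℝ) (y : Y) :
    lay c q (1, y) = vecCons 0 (q 1 y) := rfl

theorem lay2 (c : ℝ) (q : Fin 3 → Y → Fin (m + 1) → ℝ) (y : Y) :
    lay c q (2, y) = vecCons 1 (q 2 y) := rfl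

/-- the part of a vector parallel to the hyperplane of the layer 0 -/
def tg0 (w : Fin (m + 2) → ℝ) : Fin (m + 1) → ℝ := vecCons (w 0) (vecTail (vecTail w))

/-- the part of a vector parallel to the hyperplane of the layer -/
def tg (i : Fin 3) (w : Fin (m + 2) → ℝ) : Fin (m + 1) → ℝ :=
  (![tg0 w, vecTail w, vecTail w] : Fin 3 → Fin (m + 1) → ℝ) i

theorem tg_0 (w : Fin (m + 2) → ℝ) : tg 0 w = tg0 w := rfl
theorem tg_1 (w : Fin (m + 2) → ℝ) : tg 1 w = vecTail w := rfl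
theorem tg_2 (w : Fin (m + 2) → ℝ) : tg 2 w = vecTail w := rfl

theorem dot_split2 (x y : Fin (m + 2) → ℝ) :
    x ⬝ᵥ y = x 0 * y 0 + (x 1 * y 1 + vecTail (vecTail x) ⬝ᵥ vecTail (vecTail y)) := by
  rw [dot_split, dot_split (vecTail x)]
  rfl

theorem tg0_zero (w : Fin (m + 2) → ℝ) : tg0 w 0 = w 0 := rfl

theorem tail_tg0 (w : Fin (m + 2) → ℝ) : vecTail (tg0 w) = vecTail (vecTail w) := by
  simp [tg0, tail_cons]

theorem adj_layer {G : SimpleGraph (Fin 3)} (i : Fin 3) {y y' : Y} (h : H.Adj y y') :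
    (G □ H).Adj (i, y) (i, y') := by
  rw [SimpleGraph.boxProd_adj]
  exact Or.inr ⟨h, rfl⟩

theorem adj_match {i j : Fin 3} (hij : i ≠ j) (y : Y) : (K3 □ H).Adj (i, y) (j, y) := by
  rw [SimpleGraph.boxProd_adj]
  exact Or.inl ⟨hij, rfl⟩

theorem lay_layer {c : ℝ} {q : Fin 3 → Y → Fin (m + 1) → ℝ} {w : Fin 3 × Y → Fin (m + 2) → ℝ}
    (hw : IsMotion (K3 □ H) (lay c q) w) (i : Fin 3) :
    IsMotion H (q i) (fun y => tg i (w (i, y))) := by
  intro y y' hy
  have h := hw (i, y) (i, y') (adj_layer i hy)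
  fin_cases i
  · change (lay c q (0, y) - lay c q (0, y')) ⬝ᵥ (w (0, y) - w (0, y')) = 0 at h
    rw [dot_split2, lay0, lay0] at h
    change (q 0 y - q 0 y') ⬝ᵥ (tg0 (w (0, y)) - tg0 (w (0, y'))) = 0
    rw [dot_split]
    simp only [tail_sub, tail_tg0, Pi.sub_apply, tg0_zero] at h ⊢
    simp only [tail_cons, cons_val_zero, cons_val_one, sub_self, zero_mul, zero_add] at h
    exact h
  · change (lay c q (1, y) - lay c q (1, y')) ⬝ᵥ (w (1, y) - w (1, y')) = 0 at h
    rw [dot_split, lay1, lay1] at h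
    change (q 1 y - q 1 y') ⬝ᵥ (vecTail (w (1, y)) - vecTail (w (1, y'))) = 0
    simp only [tail_sub, Pi.sub_apply] at h
    simp only [tail_cons, cons_val_zero, sub_self, zero_mul, zero_add] at h
    exact h
  · change (lay c q (2, y) - lay c q (2, y')) ⬝ᵥ (w (2, y) - w (2, y')) = 0 at h
    rw [dot_split, lay2, lay2] at h
    change (q 2 y - q 2 y') ⬝ᵥ (vecTail (w (2, y)) - vecTail (w (2, y'))) = 0
    simp only [tail_sub, Pi.sub_apply] at h
    simp only [tail_cons, cons_val_zero, sub_self, zero_mul, zero_add] at h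
    exact h

theorem match12 {c : ℝ} {q : Fin 3 → Y → Fin (m + 1) → ℝ} {w : Fin 3 × Y → Fin (m + 2) → ℝ}
    (hw : IsMotion (K3 □ H) (lay c q) w) (y : Y) :
    (w (2, y) 0 - w (1, y) 0) + (q 2 y - q 1 y) ⬝ᵥ (vecTail (w (2, y)) - vecTail (w (1, y))) = 0 := by
  have h := hw (2, y) (1, y) (adj_match (by decide) y)
  rw [dot_split, lay1, lay2] at h
  simp only [tail_sub, Pi.sub_apply, tail_cons, cons_val_zero, sub_zero, one_mul] at h
  exact h

theorem match01 {c : ℝ} {q : Fin 3 → Y → Fin (m + 1) → ℝ} {w : Fin 3 × Y → Fin (m + 2) → ℝ}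
    (hw : IsMotion (K3 □ H) (lay c q) w) (y : Y) :
    q 0 y 0 * (w (0, y) 0 - w (1, y) 0) + ((c - q 1 y 0) * (w (0, y) 1 - w (1, y) 1) +
      (vecTail (q 0 y) - vecTail (q 1 y)) ⬝ᵥ
        (vecTail (vecTail (w (0, y))) - vecTail (vecTail (w (1, y))))) = 0 := by
  have h := hw (0, y) (1, y) (adj_match (by decide) y)
  rw [dot_split2, lay0, lay1] at h
  simp only [tail_sub, Pi.sub_apply, tail_cons, cons_val_zero, sub_zero, cons_val_one] at h
  exact h

theorem match02 {c : ℝ} {q : Fin 3 → Y → Fin (m + 1) → ℝ} {w : Fin 3 × Y → Fin (m + 2) → ℝ}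
    (hw : IsMotion (K3 □ H) (lay c q) w) (y : Y) :
    (q 0 y 0 - 1) * (w (0, y) 0 - w (2, y) 0) + ((c - q 2 y 0) * (w (0, y) 1 - w (2, y) 1) +
      (vecTail (q 0 y) - vecTail (q 2 y)) ⬝ᵥ
        (vecTail (vecTail (w (0, y))) - vecTail (vecTail (w (2, y))))) = 0 := by
  have h := hw (0, y) (2, y) (adj_match (by decide) y)
  rw [dot_split2, lay0, lay2] at h
  simp only [tail_sub, Pi.sub_apply, tail_cons, cons_val_zero, cons_val_one] at h
  exact h

/-- the three hyperplanes: the tangential parts determine the motion -/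
theorem tri_zero {c : ℝ} {q : Y → Fin (m + 1) → ℝ} (hc : ∀ y, q y 0 ≠ c)
    {w : Fin 3 × Y → Fin (m + 2) → ℝ} (hw : IsMotion (K3 □ H) (lay c (fun _ => q)) w)
    (ht : ∀ i y, tg i (w (i, y)) = 0) : w = 0 := by
  have h0 : ∀ y, w (0, y) 0 = 0 := fun y => congrFun (ht 0 y) 0
  have h0' : ∀ y, vecTail (vecTail (w (0, y))) = 0 := by
    intro y
    have := ht 0 y
    rw [tg_0] at this
    rw [← tail_tg0, this]
    rfl
  have h1 : ∀ y, vecTail (w (1, y)) = 0 := ht 1
  have h2 : ∀ y, vecTail (w (2, y)) = 0 := ht 2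
  have h1' : ∀ y, w (1, y) 1 = 0 := fun y => congrFun (h1 y) 0
  have h2' : ∀ y, w (2, y) 1 = 0 := fun y => congrFun (h2 y) 0
  have key : ∀ y, w (1, y) 0 = 0 ∧ w (2, y) 0 = 0 ∧ w (0, y) 1 = 0 := by
    intro y
    have a := match12 hw y
    have b := match01 hw y
    have e := match02 hw y
    rw [h1, h2, sub_self, zero_dotProduct, add_zero] at a
    rw [h0, h0', h1, h1'] at b
    rw [h0, h0', h2, h2'] at e
    have z : vecTail (0 : Fin (m + 1) → ℝ) = 0 := rfl
    simp only [z, sub_self, dotProduct_zero, add_zero, sub_zero, zero_sub] at b e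
    have e1 : w (2, y) 0 = w (1, y) 0 := by linarith
    rw [e1] at e
    have e2 : w (1, y) 0 = 0 := by linarith
    rw [e2] at b e1
    have e3 : (c - q y 0) * w (0, y) 1 = 0 := by linarith
    exact ⟨e2, e1, (mul_eq_zero.1 e3).resolve_left (sub_ne_zero.2 (hc y).symm)⟩
  funext x
  obtain ⟨i, y⟩ := x
  obtain ⟨k1, k2, k3⟩ := key y
  fin_cases i
  · refine vec_ext (h0 y) (vec_ext k3 ?_)
    exact h0' y
  · exact vec_ext k1 (h1 y)
  · exact vec_ext k2 (h2 y)

theorem exists_c [Finite Y] (q : Y → Fin (m + 1) → ℝ) : ∃ c : ℝ, ∀ y, q y 0 ≠ c := by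
  obtain ⟨c, hc⟩ := (Set.finite_range fun y => q y 0).infinite_compl.nonempty
  exact ⟨c, fun y hy => hc ⟨y, hy⟩⟩

/-- one slider for the product with a triangle -/
theorem tri_S [Finite Y] (h : Sl (m + 1) H) : Sl (m + 2) (K3 □ H) := by
  obtain ⟨q, s, hqs⟩ := h
  obtain ⟨c, hc⟩ := exists_c q
  refine ⟨lay c (fun _ => q), fun x => (![vecCons (s x.2 0) (vecCons 0 (vecTail (s x.2))),
    vecCons 0 (s x.2), vecCons 0 (s x.2)] : Fin 3 → Fin (m + 2) → ℝ) x.1, ?_⟩
  intro w hw hs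
  apply tri_zero hc hw
  intro i y
  have h1 := hqs _ (lay_layer hw i) ?_
  · exact congrFun h1 y
  · intro y
    have h2 := hs (i, y)
    fin_cases i
    · change vecCons (s y 0) (vecCons 0 (vecTail (s y))) ⬝ᵥ w (0, y) = 0 at h2
      change s y ⬝ᵥ tg0 (w (0, y)) = 0
      rw [dot_split2] at h2
      rw [dot_split, tg0_zero, tail_tg0]
      simpa using h2
    · change vecCons 0 (s y) ⬝ᵥ w (1, y) = 0 at h2
      change s y ⬝ᵥ vecTail (w (1, y)) = 0
      rw [dot_split] at h2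
      simpa using h2
    · change vecCons 0 (s y) ⬝ᵥ w (2, y) = 0 at h2
      change s y ⬝ᵥ vecTail (w (2, y)) = 0
      rw [dot_split] at h2
      simpa using h2

/-- one slider for the product with a connected graph containing a cycle -/
theorem step_S {V : Type} [Finite V] [Finite Y] {G : SimpleGraph V} (hG : G.Connected)
    (hA : ¬ G.IsAcyclic) (h : Sl (m + 1) H) : Sl (m + 2) (G □ H) := by
  obtain ⟨f, hf⟩ := exists_contr G hG hA
  exact contr_S hf (tri_S h) (sl2_of_sl H h)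

/-! ### Two copies sharing a coordinate -/

/-- the constraints of two copies of `H` sharing the coordinate `i` of the velocities -/
noncomputable def qm {d : ℕ} (H : SimpleGraph Y) (i : Fin d)
    (P : (Y → Fin d → ℝ) × (Y → Fin d → ℝ)) :
    (Y → Fin d → ℝ) × (Y → Fin d → ℝ) →ₗ[ℝ] (Y × Y → ℝ) × (Y × Y → ℝ) × (Y → ℝ) where
  toFun u := (rig H P.1 u.1, rig H P.2 u.2, fun y => u.1 y i - u.2 y i)
  map_add' u v := by
    refine Prod.ext ?_ (Prod.ext ?_ ?_)
    · simp
    · simp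
    · funext y
      simp only [Prod.snd_add, Prod.fst_add, Pi.add_apply]
      ring
  map_smul' c u := by
    refine Prod.ext ?_ (Prod.ext ?_ ?_)
    · simp
    · simp
    · funext y
      simp only [Prod.smul_snd, Prod.smul_fst, Pi.smul_apply, smul_eq_mul, RingHom.id_apply]
      ring

theorem mem_ker_qm {d : ℕ} (i : Fin d) (P u : (Y → Fin d → ℝ) × (Y → Fin d → ℝ)) :
    u ∈ LinearMap.ker (qm H i P) ↔ IsMotion H P.1 u.1 ∧ IsMotion H P.2 u.2 ∧
      ∀ y, u.1 y i = u.2 y i := by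
  rw [LinearMap.mem_ker]
  simp only [qm, LinearMap.coe_mk, AddHom.coe_mk, Prod.mk_eq_zero, rig_eq_zero]
  constructor
  · rintro ⟨h1, h2, h3⟩
    exact ⟨h1, h2, fun y => sub_eq_zero.1 (congrFun h3 y)⟩
  · rintro ⟨h1, h2, h3⟩
    exact ⟨h1, h2, funext fun y => sub_eq_zero.2 (h3 y)⟩

theorem qm_aff {d : ℕ} (i : Fin d) : Aff (qm H i) := by
  intro x y s
  refine LinearMap.ext fun w => ?_
  simp only [qm, LinearMap.add_apply, LinearMap.smul_apply,
    LinearMap.sub_apply, Prod.fst_add, Prod.smul_fst, Prod.snd_add, Prod.smul_snd,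
    Prod.fst_sub, Prod.snd_sub, rig_line, rig_sub, LinearMap.coe_mk, AddHom.coe_mk]
  refine Prod.ext rfl (Prod.ext rfl ?_)
  funext y
  simp

/-- two copies of `H` in `ℝ^d`, sharing the coordinate `i` of the velocities, have few motions -/
def Qp (d : ℕ) (i : Fin d) (H : SimpleGraph Y) : Prop :=
  ∃ P : (Y → Fin d → ℝ) × (Y → Fin d → ℝ), Module.finrank ℝ (LinearMap.ker (qm H i P)) ≤ Nat.card Y

theorem rig_comp {d : ℕ} (σ : Equiv.Perm (Fin d)) (P u : Y → Fin d → ℝ) :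
    IsMotion H (fun y => P y ∘ σ) (fun y => u y ∘ σ) ↔ IsMotion H P u := by
  have e : ∀ y y', (P y ∘ σ - P y' ∘ σ) ⬝ᵥ (u y ∘ σ - u y' ∘ σ) = (P y - P y') ⬝ᵥ (u y - u y') := by
    intro y y'
    exact Equiv.sum_comp σ (fun k => (P y k - P y' k) * (u y k - u y' k))
  unfold IsMotion
  simp only [e]

theorem Qp.perm {d : ℕ} {i : Fin d} [Finite Y] (h : Qp d i H) (σ : Equiv.Perm (Fin d)) :
    Qp d (σ i) H := by
  have := Fintype.ofFinite Y
  obtain ⟨P, hP⟩ := h
  refine ⟨(fun y => P.1 y ∘ σ.symm, fun y => P.2 y ∘ σ.symm), le_trans ?_ hP⟩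
  let φ : ((Y → Fin d → ℝ) × (Y → Fin d → ℝ)) →ₗ[ℝ] ((Y → Fin d → ℝ) × (Y → Fin d → ℝ)) :=
    { toFun := fun u => (fun y => u.1 y ∘ σ, fun y => u.2 y ∘ σ)
      map_add' := fun _ _ => rfl
      map_smul' := fun _ _ => rfl }
  refine dim_le_of_inj φ _ ?_ ?_
  · intro u hu
    rw [mem_ker_qm] at hu ⊢
    obtain ⟨h1, h2, h3⟩ := hu
    refine ⟨?_, ?_, ?_⟩
    · rw [← rig_comp σ.symm]
      have e : (fun y => (φ u).1 y ∘ σ.symm) = u.1 := by
        funext y k
        simp [φ]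
      rw [e]
      exact h1
    · rw [← rig_comp σ.symm]
      have e : (fun y => (φ u).2 y ∘ σ.symm) = u.2 := by
        funext y k
        simp [φ]
      rw [e]
      exact h2
    · intro y
      exact h3 y
  · intro u _ hu
    have h1 : (fun y => u.1 y ∘ σ) = 0 := congrArg Prod.fst hu
    have h2 : (fun y => u.2 y ∘ σ) = 0 := congrArg Prod.snd hu
    refine Prod.ext ?_ ?_
    · funext y k
      have := congrFun (congrFun h1 y) (σ.symm k)
      simpa using this
    · funext y k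
      have := congrFun (congrFun h2 y) (σ.symm k)
      simpa using this

theorem tg_last (i : Fin 3) (w : Fin (m + 3) → ℝ) : tg i w (Fin.last (m + 1)) = w (Fin.last (m + 2)) := by
  fin_cases i <;> rfl

/-- `tg` as a linear map -/
def tgL (i : Fin 3) : (Fin (m + 2) → ℝ) →ₗ[ℝ] (Fin (m + 1) → ℝ) where
  toFun := tg i
  map_add' x y := by
    fin_cases i
    · change tg0 (x + y) = tg0 x + tg0 y
      refine vec_ext rfl rfl
    · rfl
    · rfl
  map_smul' c x := by
    fin_cases i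
    · change tg0 (c • x) = c • tg0 x
      refine vec_ext rfl rfl
    · rfl
    · rfl

theorem tri_Q [Finite Y] (h : Qp (m + 2) (Fin.last _) H) : Qp (m + 3) (Fin.last _) (K3 □ H) := by
  have := Fintype.ofFinite Y
  obtain ⟨⟨q1, q2⟩, hq⟩ := h
  obtain ⟨c1, hc1⟩ := exists_c q1
  obtain ⟨c2, hc2⟩ := exists_c q2
  refine ⟨(lay c1 (fun _ => q1), lay c2 (fun _ => q2)), ?_⟩
  set K := LinearMap.ker (qm H (Fin.last (m + 1)) (q1, q2)) with hK
  set L := LinearMap.ker (qm (K3 □ H) (Fin.last (m + 2)) (lay c1 (fun _ => q1), lay c2 (fun _ => q2)))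
    with hL
  let φ (i : Fin 3) : ((Fin 3 × Y → Fin (m + 3) → ℝ) × (Fin 3 × Y → Fin (m + 3) → ℝ)) →ₗ[ℝ]
      ((Y → Fin (m + 2) → ℝ) × (Y → Fin (m + 2) → ℝ)) :=
    { toFun := fun u => (fun y => tgL i (u.1 (i, y)), fun y => tgL i (u.2 (i, y)))
      map_add' := fun u v => by
        refine Prod.ext ?_ ?_
        · funext y; simp
        · funext y; simp
      map_smul' := fun c u => by
        refine Prod.ext ?_ ?_
        · funext y; simp
        · funext y; simp }
  have hφ : ∀ i, ∀ u ∈ L, φ i u ∈ K := by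
    intro i u hu
    rw [hL, mem_ker_qm] at hu
    rw [hK, mem_ker_qm]
    obtain ⟨h1, h2, h3⟩ := hu
    have a1 := lay_layer (c := c1) (q := fun _ => q1) (w := u.1) h1 i
    have a2 := lay_layer (c := c2) (q := fun _ => q2) (w := u.2) h2 i
    refine ⟨a1, a2, ?_⟩
    intro y
    change tg i (u.1 (i, y)) _ = tg i (u.2 (i, y)) _
    rw [tg_last, tg_last]
    exact h3 (i, y)
  have h1 : Module.finrank ℝ L ≤ 3 * Module.finrank ℝ K := by
    refine dim_pi L K φ hφ ?_
    intro u hu h1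
    rw [hL, mem_ker_qm] at hu
    obtain ⟨m1, m2, _⟩ := hu
    refine Prod.ext ?_ ?_
    · refine tri_zero (c := c1) (q := q1) (w := u.1) hc1 m1 ?_
      intro i y
      exact congrFun (congrArg Prod.fst (h1 i)) y
    · refine tri_zero (c := c2) (q := q2) (w := u.2) hc2 m2 ?_
      intro i y
      exact congrFun (congrArg Prod.snd (h1 i)) y
  rw [Nat.card_prod, Nat.card_fin]
  have h2 : Module.finrank ℝ K ≤ Nat.card Y := hq
  exact h1.trans (Nat.mul_le_mul_left 3 h2)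

end Pool.Agent.T2h34.CP
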