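import Mathlib
import Pool.Agent.T2h34.CP.Tri

set_option autoImplicit false
set_option linter.unusedSectionVars false

/-! Two general frames at `m + 2` points. -/

namespace Pool.Agent.T2h34.CP

open Matrix Pool.Agent.H283R2.DR Pool.Agent.H283R2.DR.TA Pool.Agent.H789R5

variable {Y : Type} {m : ℕ}

/-- the parameter space of a pair of trivial motions -/
abbrev PM (m : ℕ) : Type :=
  (TA.Sk m × TA.Sk m) × (Fin m → ℝ) × (Fin m → ℝ) × (Fin m → ℝ)

/-- the linear system -/
def cg (ε : ℝ) (y : Fin (m + 2) → Y)
    (p : (Y → Fin (m + 1) → ℝ) × (Y → Fin (m + 1) → ℝ)) :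
    PM m →ₗ[ℝ] (Fin (m + 2) → Fin m → ℝ) where
  toFun x i := p.2 (y i) 0 • ((x.1.1 : Matrix (Fin m) (Fin m) ℝ) *ᵥ vecTail (p.1 (y i)) +
      ε • x.2.1 + p.1 (y i) 0 • x.2.2.2) -
    p.1 (y i) 0 • ((x.1.2 : Matrix (Fin m) (Fin m) ℝ) *ᵥ vecTail (p.2 (y i)) + ε • x.2.2.1)
  map_add' x x' := by
    funext i
    simp only [Prod.fst_add, Prod.snd_add, Submodule.coe_add, add_mulVec, Pi.add_apply]
    funext k
    simp only [Pi.sub_apply, Pi.smul_apply, Pi.add_apply, smul_eq_mul]
    ring
  map_smul' c x := by
    funext i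
    simp only [Prod.smul_fst, Prod.smul_snd, Submodule.coe_smul, smul_mulVec, Pi.smul_apply]
    funext k
    simp only [Pi.sub_apply, Pi.smul_apply, Pi.add_apply, smul_eq_mul, RingHom.id_apply]
    ring

theorem cg_good (y : Fin (m + 2) → Y) :
    Good (fun p : (Y → Fin (m + 1) → ℝ) × (Y → Fin (m + 1) → ℝ) =>
      ∀ x, cg 1 y p x = 0 → x = 0) := by
  apply good_inj2
  intro p0 p1
  refine ⟨cg 1 y (p0 + (p1 - p0)) - cg 1 y p0 - cg 0 y (p1 - p0), cg 0 y (p1 - p0), ?_⟩
  intro s
  refine LinearMap.ext fun x => funext fun i => funext fun k => ?_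
  have tl : ∀ (a b : Fin (m + 1) → ℝ) (s : ℝ), vecTail (a + s • b) = vecTail a + s • vecTail b :=
    fun _ _ _ => rfl
  have tl' : ∀ (a b : Fin (m + 1) → ℝ), vecTail (a + b) = vecTail a + vecTail b :=
    fun _ _ => rfl
  simp only [cg, LinearMap.coe_mk, AddHom.coe_mk, LinearMap.add_apply, LinearMap.smul_apply,
    LinearMap.sub_apply, Pi.add_apply, Pi.smul_apply, Pi.sub_apply, Prod.fst_add, Prod.snd_add,
    Prod.smul_fst, Prod.smul_snd, Prod.fst_sub, Prod.snd_sub, smul_eq_mul, tl, tl', tail_sub,
    mulVec_add, mulVec_smul, mulVec_sub, zero_smul, one_smul]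
  simp only [Pi.zero_apply]
  ring

/-- an explicit choice of the two frames -/
theorem cg_sat (y : Fin (m + 2) → Y) (hy : Function.Injective y) :
    ∃ p : (Y → Fin (m + 1) → ℝ) × (Y → Fin (m + 1) → ℝ), ∀ x, cg 1 y p x = 0 → x = 0 := by
  rcases m with _ | M
  · refine ⟨0, fun x _ => Subsingleton.elim _ _⟩
  · -- the data of the two frames
    let T1 : Fin (M + 3) → ℝ := vecCons 1 (vecCons 1 (vecCons 2 (fun _ => 1)))
    let T2 : Fin (M + 3) → ℝ := vecCons 1 (vecCons 2 (vecCons 1 (fun _ => 1)))
    let X1 : Fin (M + 3) → Fin (M + 1) → ℝ :=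
      vecCons 0 (vecCons 0 (vecCons 0 (fun k => Pi.single k.castSucc 1)))
    let X2 : Fin (M + 3) → Fin (M + 1) → ℝ :=
      vecCons 0 (vecCons 0 (vecCons 0 (fun k => (k : ℝ) • Pi.single k.castSucc 1 +
        Pi.single (Fin.last M) 1)))
    refine ⟨(Function.extend y (fun i => vecCons (T1 i) (X1 i)) 0,
      Function.extend y (fun i => vecCons (T2 i) (X2 i)) 0), ?_⟩
    rintro ⟨⟨⟨B1, hB1⟩, ⟨B2, hB2⟩⟩, β1, β2, α⟩ hx
    have key : ∀ i, T2 i • (B1 *ᵥ X1 i + β1 + T1 i • α) - T1 i • (B2 *ᵥ X2 i + β2) = 0 := by
      intro i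
      have := congrFun hx i
      simp only [cg, LinearMap.coe_mk, AddHom.coe_mk, hy.extend_apply, one_smul, cons_val_zero,
        tail_cons] at this
      exact this
    have k0 : β1 + α - β2 = 0 := by
      have := key 0
      simpa [T1, T2, X1, X2] using this
    have k1 : (2 : ℝ) • (β1 + α) - β2 = 0 := by
      have := key 1
      simpa [T1, T2, X1, X2] using this
    have k2 : (β1 + (2 : ℝ) • α) - (2 : ℝ) • β2 = 0 := by
      have := key 2
      simpa [T1, T2, X1, X2] using this
    have hβ2 : β2 = 0 := by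
      funext k
      have a0 := congrFun k0 k
      have a1 := congrFun k1 k
      simp only [Pi.sub_apply, Pi.add_apply, Pi.smul_apply, smul_eq_mul, Pi.zero_apply] at *
      linarith
    have hα : α = 0 := by
      funext k
      have a0 := congrFun k0 k
      have a1 := congrFun k2 k
      have a2 := congrFun hβ2 k
      simp only [Pi.sub_apply, Pi.add_apply, Pi.smul_apply, smul_eq_mul, Pi.zero_apply] at *
      linarith
    have hβ1 : β1 = 0 := by
      funext k
      have a0 := congrFun k0 k
      have a2 := congrFun hβ2 k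
      have a3 := congrFun hα k
      simp only [Pi.sub_apply, Pi.add_apply, Pi.zero_apply] at *
      linarith
    subst hβ1
    subst hβ2
    subst hα
    have kk : ∀ k : Fin M, B1 *ᵥ (Pi.single k.castSucc 1) =
        (k : ℝ) • (B2 *ᵥ Pi.single k.castSucc 1) + B2 *ᵥ Pi.single (Fin.last M) 1 := by
      intro k
      have := key k.succ.succ.succ
      simp only [T1, T2, X1, X2, cons_val_succ, one_smul, smul_zero, add_zero, mulVec_add,
        mulVec_smul] at this
      rw [sub_eq_zero] at this
      exact this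
    have s1 : ∀ i j, B1 i j = - B1 j i := by
      intro i j
      have := congrFun (congrFun hB1 j) i
      simpa using this
    have s2 : ∀ i j, B2 i j = - B2 j i := by
      intro i j
      have := congrFun (congrFun hB2 j) i
      simpa using this
    have ke : ∀ (k : Fin M) (l : Fin (M + 1)), B1 l k.castSucc = (k : ℝ) * B2 l k.castSucc +
        B2 l (Fin.last M) := by
      intro k l
      have := congrFun (kk k) l
      simpa [mulVec_single] using this
    have z2 : ∀ k : Fin M, B2 k.castSucc (Fin.last M) = 0 := by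
      intro k
      have a := ke k k.castSucc
      have b := s1 k.castSucc k.castSucc
      have c := s2 k.castSucc k.castSucc
      have b' : B1 k.castSucc k.castSucc = 0 := by linarith
      have c' : B2 k.castSucc k.castSucc = 0 := by linarith
      rw [b', c', mul_zero, zero_add] at a
      exact a.symm
    have z2l : ∀ l : Fin (M + 1), B2 l (Fin.last M) = 0 := by
      intro l
      refine Fin.lastCases ?_ (fun k => z2 k) l
      have c := s2 (Fin.last M) (Fin.last M)
      linarith
    have z2' : ∀ k l : Fin M, B2 l.castSucc k.castSucc = 0 := by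
      intro k l
      by_cases hkl : k = l
      · subst hkl
        have c := s2 k.castSucc k.castSucc
        linarith
      · have a := ke k l.castSucc
        have b := ke l k.castSucc
        rw [z2l, add_zero] at a b
        rw [s1 l.castSucc k.castSucc, b, s2 k.castSucc l.castSucc] at a
        have e : ((k : ℝ) - (l : ℝ)) * B2 l.castSucc k.castSucc = 0 := by linarith
        refine (mul_eq_zero.1 e).resolve_left ?_
        intro h
        apply hkl
        have h' : ((k : ℕ) : ℝ) = ((l : ℕ) : ℝ) := by linarith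
        exact Fin.ext (by exact_mod_cast h')
    have hB2z : B2 = 0 := by
      ext i j
      change B2 i j = 0
      refine Fin.lastCases (z2l i) (fun k => ?_) j
      refine Fin.lastCases ?_ (fun l => z2' k l) i
      rw [s2, z2l, neg_zero]
    have hB1z : B1 = 0 := by
      have h1 : ∀ (k : Fin M) (l : Fin (M + 1)), B1 l k.castSucc = 0 := by
        intro k l
        rw [ke, hB2z]
        simp
      ext i j
      change B1 i j = 0
      refine Fin.lastCases ?_ (fun k => h1 k i) j
      refine Fin.lastCases ?_ (fun k => ?_) i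
      · have c := s1 (Fin.last M) (Fin.last M)
        linarith
      · rw [s1, h1, neg_zero]
    subst hB2z
    subst hB1z
    rfl

end Pool.Agent.T2h34.CP
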