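import Mathlib
import Pool.Agent.T2h34.CP.CG

set_option autoImplicit false
set_option linter.unusedSectionVars false

/-! The reduced system of the product with a triangle. -/

namespace Pool.Agent.T2h34.CP

open Matrix Pool.Agent.H283R2.DR Pool.Agent.H283R2.DR.TA Pool.Agent.H789R5

variable {Y : Type} {m : ℕ} {H : SimpleGraph Y}

/-- forget the first coordinate -/
def qt (P : Y → Fin (m + 2) → ℝ) (y : Y) : Fin (m + 1) → ℝ := vecTail (P y)

/-- velocities of two layers, and two motions in one dimension more -/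
abbrev ET (Y : Type) (m : ℕ) : Type :=
  ((Y → Fin (m + 1) → ℝ) × (Y → Fin (m + 1) → ℝ)) ×
    ((Y → Fin (m + 2) → ℝ) × (Y → Fin (m + 2) → ℝ))

/-- the matching condition of the layers 1 and 2 -/
def lin12 (P1 P2 : Y → Fin (m + 2) → ℝ) : ET Y m →ₗ[ℝ] (Y → ℝ) where
  toFun κ y := κ.2.2 y 0 - κ.2.1 y 0 + (qt P2 y - qt P1 y) ⬝ᵥ (κ.1.2 y - κ.1.1 y)
  map_add' κ κ' := by
    funext y
    simp only [Prod.fst_add, Prod.snd_add, Pi.add_apply]
    have e : κ.1.2 y + κ'.1.2 y - (κ.1.1 y + κ'.1.1 y) =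
      (κ.1.2 y - κ.1.1 y) + (κ'.1.2 y - κ'.1.1 y) := by abel
    rw [e, dotProduct_add]
    ring
  map_smul' c κ := by
    funext y
    simp only [Prod.smul_fst, Prod.smul_snd, Pi.smul_apply, ← smul_sub, dotProduct_smul,
      smul_eq_mul, RingHom.id_apply]
    ring

/-- the space of the layers 1 and 2 -/
noncomputable def WW (H : SimpleGraph Y) (P1 P2 : Y → Fin (m + 2) → ℝ) : Submodule ℝ (ET Y m) :=
  (((Mot H (qt P1)).prod (Mot H (qt P2))).prod ((Mot H P1).prod (Mot H P2))) ⊓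
    LinearMap.ker (lin12 P1 P2)

theorem mem_WW (P1 P2 : Y → Fin (m + 2) → ℝ) (κ : ET Y m) :
    κ ∈ WW H P1 P2 ↔ ((IsMotion H (qt P1) κ.1.1 ∧ IsMotion H (qt P2) κ.1.2) ∧
      (IsMotion H P1 κ.2.1 ∧ IsMotion H P2 κ.2.2)) ∧
      ∀ y, κ.2.2 y 0 - κ.2.1 y 0 + (qt P2 y - qt P1 y) ⬝ᵥ (κ.1.2 y - κ.1.1 y) = 0 := by
  simp only [WW, Submodule.mem_inf, Submodule.mem_prod, mem_mot, LinearMap.mem_ker]
  constructor
  · rintro ⟨h1, h2⟩
    exact ⟨h1, fun y => congrFun h2 y⟩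
  · rintro ⟨h1, h2⟩
    exact ⟨h1, funext h2⟩

theorem dim_prod_le {E E' : Type*} [AddCommGroup E] [Module ℝ E] [AddCommGroup E'] [Module ℝ E']
    [FiniteDimensional ℝ E] [FiniteDimensional ℝ E'] (p : Submodule ℝ E) (q : Submodule ℝ E') :
    Module.finrank ℝ (p.prod q) ≤ Module.finrank ℝ p + Module.finrank ℝ q := by
  refine dim_le_add (LinearMap.fst ℝ E E') (Submodule.finrank_mono ?_) ?_
  · rintro _ ⟨x, hx, rfl⟩
    exact hx.1
  · refine dim_le_of_inj (LinearMap.snd ℝ E E') q (fun x hx => hx.1.2) ?_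
    intro x hx h0
    exact Prod.ext hx.2 h0

theorem dim_WW [Finite Y] (P1 P2 : Y → Fin (m + 2) → ℝ) :
    Module.finrank ℝ (WW H P1 P2) ≤ (mo H (qt P1) + mo H (qt P2)) +
      Module.finrank ℝ (LinearMap.ker (qm H 0 (P1, P2))) := by
  have := Fintype.ofFinite Y
  refine dim_le_add (LinearMap.fst ℝ ((Y → Fin (m + 1) → ℝ) × (Y → Fin (m + 1) → ℝ))
    ((Y → Fin (m + 2) → ℝ) × (Y → Fin (m + 2) → ℝ))) ?_ ?_
  · refine le_trans (Submodule.finrank_mono ?_) (dim_prod_le (Mot H (qt P1)) (Mot H (qt P2)))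
    rintro _ ⟨κ, hκ, rfl⟩
    exact hκ.1.1
  · refine dim_le_of_inj (LinearMap.snd ℝ ((Y → Fin (m + 1) → ℝ) × (Y → Fin (m + 1) → ℝ))
      ((Y → Fin (m + 2) → ℝ) × (Y → Fin (m + 2) → ℝ))) _ ?_ ?_
    · intro κ hκ
      obtain ⟨h1, h2⟩ := hκ
      have h3 : κ.1 = 0 := h2
      obtain ⟨⟨_, h4⟩, h5⟩ := (mem_WW P1 P2 κ).1 h1
      rw [mem_ker_qm]
      refine ⟨h4.1, h4.2, fun y => ?_⟩
      have h6 := h5 y
      rw [h3] at h6
      simp only [Prod.fst_zero, Prod.snd_zero, Pi.zero_apply, sub_self, dotProduct_zero,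
        add_zero] at h6
      exact (sub_eq_zero.1 h6).symm
    · intro κ hκ h0
      exact Prod.ext hκ.2 h0

/-- the reduced system -/
def Th (P1 P2 : Y → Fin (m + 2) → ℝ) (q0 : Y → Fin (m + 1) → ℝ) : ET Y m →ₗ[ℝ] (Y → ℝ) where
  toFun κ y := qt P2 y 0 * ((vecTail (q0 y) - vecTail (qt P1 y)) ⬝ᵥ vecTail (κ.1.1 y) -
      qt P1 y 0 * κ.1.1 y 0 + q0 y 0 * κ.2.1 y 0) -
    qt P1 y 0 * ((vecTail (q0 y) - vecTail (qt P2 y)) ⬝ᵥ vecTail (κ.1.2 y) -
      qt P2 y 0 * κ.1.2 y 0 + (q0 y 0 - 1) * κ.2.2 y 0)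
  map_add' κ κ' := by
    funext y
    have tl : ∀ (a b : Fin (m + 1) → ℝ), vecTail (a + b) = vecTail a + vecTail b :=
      fun _ _ => rfl
    simp only [Prod.fst_add, Prod.snd_add, Pi.add_apply, tl, dotProduct_add]
    ring
  map_smul' c κ := by
    funext y
    have tl : ∀ (a : Fin (m + 1) → ℝ), vecTail (c • a) = c • vecTail a :=
      fun _ => rfl
    simp only [Prod.smul_fst, Prod.smul_snd, Pi.smul_apply, tl, dotProduct_smul,
      smul_eq_mul, RingHom.id_apply]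
    ring

theorem Th_aff (P1 P2 : Y → Fin (m + 2) → ℝ) : Aff (Th P1 P2) := by
  intro a b s
  refine LinearMap.ext fun κ => funext fun y => ?_
  have tl : ∀ (a b : Fin (m + 1) → ℝ) (s : ℝ), vecTail (a + s • b) = vecTail a + s • vecTail b :=
    fun _ _ _ => rfl
  simp only [Th, LinearMap.coe_mk, AddHom.coe_mk, LinearMap.add_apply, LinearMap.smul_apply,
    LinearMap.sub_apply, Pi.add_apply, Pi.smul_apply, Pi.sub_apply, smul_eq_mul, tl, tail_sub,
    sub_dotProduct, add_dotProduct, smul_dotProduct]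
  ring

theorem tail_motion {P u : Y → Fin (m + 2) → ℝ} (hu : IsMotion H P u) (h0 : ∀ y, u y 0 = 0) :
    IsMotion H (qt P) (fun y => vecTail (u y)) := by
  intro y y' hy
  have h := hu y y' hy
  rw [dot_split] at h
  simp only [Pi.sub_apply, h0, sub_self, mul_zero, zero_add] at h
  exact h

theorem motion_of_tail {P u : Y → Fin (m + 2) → ℝ} (hu : IsMotion H (qt P) (fun y => vecTail (u y)))
    (h0 : ∀ y, u y 0 = 0) : IsMotion H P u := by
  intro y y' hy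
  have h := hu y y' hy
  rw [dot_split]
  simp only [Pi.sub_apply, h0, sub_self, mul_zero, zero_add]
  exact h

/-- the space of motions with zero velocities of the layers -/
theorem dim_zero_part [Finite Y] (P1 P2 : Y → Fin (m + 2) → ℝ) (q0 : Y → Fin (m + 1) → ℝ)
    (hD : ∀ y, q0 y 0 * (qt P2 y 0 - qt P1 y 0) + qt P1 y 0 ≠ 0) :
    Module.finrank ℝ ((WW H P1 P2 ⊓ LinearMap.ker (Th P1 P2 q0)) ⊓
      LinearMap.ker (LinearMap.fst ℝ ((Y → Fin (m + 1) → ℝ) × (Y → Fin (m + 1) → ℝ))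
    ((Y → Fin (m + 2) → ℝ) × (Y → Fin (m + 2) → ℝ))) : Submodule ℝ (ET Y m)) ≤
      mo H (qt P1) + mo H (qt P2) := by
  have := Fintype.ofFinite Y
  have hz : ∀ κ ∈ ((WW H P1 P2 ⊓ LinearMap.ker (Th P1 P2 q0)) ⊓
      LinearMap.ker (LinearMap.fst ℝ ((Y → Fin (m + 1) → ℝ) × (Y → Fin (m + 1) → ℝ))
    ((Y → Fin (m + 2) → ℝ) × (Y → Fin (m + 2) → ℝ))) : Submodule ℝ (ET Y m)),
      κ.1 = 0 ∧ (∀ y, κ.2.1 y 0 = 0) ∧ (∀ y, κ.2.2 y 0 = 0) := by
    intro κ hκ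
    obtain ⟨⟨h1, h2⟩, h3⟩ := hκ
    have h3' : κ.1 = 0 := h3
    obtain ⟨_, h5⟩ := (mem_WW P1 P2 κ).1 h1
    have h6 : ∀ y, κ.2.2 y 0 = κ.2.1 y 0 := by
      intro y
      have h6 := h5 y
      rw [h3'] at h6
      simp only [Prod.fst_zero, Prod.snd_zero, Pi.zero_apply, sub_self, dotProduct_zero,
        add_zero] at h6
      exact (sub_eq_zero.1 h6)
    have h7 : ∀ y, κ.2.1 y 0 = 0 := by
      intro y
      have h8 : Th P1 P2 q0 κ y = 0 := congrFun (LinearMap.mem_ker.1 h2) y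
      simp only [Th, LinearMap.coe_mk, AddHom.coe_mk, h3', h6] at h8
      simp only [Prod.fst_zero, Prod.snd_zero, Pi.zero_apply] at h8
      have z : vecTail (0 : Fin (m + 1) → ℝ) = 0 := rfl
      rw [z, dotProduct_zero, dotProduct_zero] at h8
      have h9 : (q0 y 0 * (qt P2 y 0 - qt P1 y 0) + qt P1 y 0) * κ.2.1 y 0 = 0 := by linarith
      exact (mul_eq_zero.1 h9).resolve_left (hD y)
    exact ⟨h3', h7, fun y => (h6 y).trans (h7 y)⟩
  let φ : ET Y m →ₗ[ℝ] (Y → Fin (m + 1) → ℝ) × (Y → Fin (m + 1) → ℝ) :=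
    { toFun := fun κ => (fun y => vecTail (κ.2.1 y), fun y => vecTail (κ.2.2 y))
      map_add' := fun _ _ => rfl
      map_smul' := fun _ _ => rfl }
  refine le_trans (dim_le_of_inj φ ((Mot H (qt P1)).prod (Mot H (qt P2))) ?_ ?_)
    (dim_prod_le _ _)
  · intro κ hκ
    obtain ⟨h1, h2, h3⟩ := hz κ hκ
    obtain ⟨⟨_, h4⟩, _⟩ := (mem_WW P1 P2 κ).1 hκ.1.1
    rw [Submodule.mem_prod, mem_mot, mem_mot]
    exact ⟨tail_motion h4.1 h2, tail_motion h4.2 h3⟩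
  · intro κ hκ h0
    obtain ⟨h1, h2, h3⟩ := hz κ hκ
    have e1 : (fun y => vecTail (κ.2.1 y)) = 0 := congrArg Prod.fst h0
    have e2 : (fun y => vecTail (κ.2.2 y)) = 0 := congrArg Prod.snd h0
    refine Prod.ext h1 (Prod.ext ?_ ?_)
    · funext y
      exact vec_ext (h2 y) (congrFun e1 y)
    · funext y
      exact vec_ext (h3 y) (congrFun e2 y)

/-- the derivative of the reduced system -/
theorem Th_deriv [DecidableEq Y] (P1 P2 : Y → Fin (m + 2) → ℝ) (q0 : Y → Fin (m + 1) → ℝ) (y : Y)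
    (ξ : Fin m → ℝ) (κ : ET Y m) :
    (Th P1 P2 (q0 + Pi.single y (vecCons 0 ξ)) - Th P1 P2 q0) κ =
      Pi.single y (ξ ⬝ᵥ (qt P2 y 0 • vecTail (κ.1.1 y) - qt P1 y 0 • vecTail (κ.1.2 y))) := by
  funext z
  rw [LinearMap.sub_apply, Pi.sub_apply]
  by_cases hz : z = y
  · subst hz
    have tl : ∀ (a b : Fin (m + 1) → ℝ), vecTail (a + b) = vecTail a + vecTail b :=
      fun _ _ => rfl
    simp only [Th, LinearMap.coe_mk, AddHom.coe_mk, Pi.add_apply, Pi.single_eq_same, tl,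
      tail_cons, cons_val_zero, sub_dotProduct, add_dotProduct, dotProduct_sub, dotProduct_smul,
      smul_eq_mul]
    ring
  · rw [Pi.single_eq_of_ne hz]
    simp only [Th, LinearMap.coe_mk, AddHom.coe_mk, Pi.add_apply, Pi.single_eq_of_ne hz, add_zero,
      Pi.zero_apply, sub_self]

end Pool.Agent.T2h34.CP
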