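import Mathlib
import Pool.Agent.T2h34.CP.Theta

set_option autoImplicit false
set_option linter.unusedSectionVars false

/-! The reduced system has a small kernel if the third layer is general. -/

namespace Pool.Agent.T2h34.CP

open Matrix Pool.Agent.H283R2.DR Pool.Agent.H283R2.DR.TA Pool.Agent.H789R5

variable {Y : Type} {m : ℕ} {H : SimpleGraph Y}

theorem card_single_le [Fintype Y] [DecidableEq Y] (R : Submodule ℝ (Y → ℝ))
    [Fintype {y : Y // (Pi.single y 1 : Y → ℝ) ∈ R}] :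
    Fintype.card {y : Y // (Pi.single y 1 : Y → ℝ) ∈ R} ≤ Module.finrank ℝ R := by
  let F : {y : Y // (Pi.single y 1 : Y → ℝ) ∈ R} → R := fun y => ⟨Pi.single y.1 1, y.2⟩
  have h : LinearIndependent ℝ F := by
    apply LinearIndependent.of_comp R.subtype
    have h1 := (Pi.basisFun ℝ Y).linearIndependent.comp
      (fun y : {y : Y // (Pi.single y 1 : Y → ℝ) ∈ R} => y.1) Subtype.val_injective
    convert h1 using 1
    funext y
    simp [F]
  exact h.fintype_card_le_finrank

/-- the trivial motion in blocks: tail -/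
theorem triv_tail {A : Matrix (Fin (m + 1)) (Fin (m + 1)) ℝ} (b x : Fin (m + 1) → ℝ) :
    vecTail (A *ᵥ x + b) = A.submatrix Fin.succ Fin.succ *ᵥ vecTail x + vecTail b +
      x 0 • (fun k : Fin m => A k.succ 0) := by
  funext k
  simp only [vecTail, Function.comp, Pi.add_apply, mulVec, dotProduct, Fin.sum_univ_succ,
    submatrix_apply, Pi.smul_apply, smul_eq_mul]
  ring

/-- the trivial motion in blocks: head -/
theorem triv_head {A : Matrix (Fin (m + 1)) (Fin (m + 1)) ℝ} (hA : Aᵀ = -A)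
    (b x : Fin (m + 1) → ℝ) :
    (A *ᵥ x + b) 0 = b 0 - (fun k : Fin m => A k.succ 0) ⬝ᵥ vecTail x := by
  have hs : ∀ i j, A i j = - A j i := by
    intro i j
    have := congrFun (congrFun hA j) i
    simpa using this
  have h00 : A 0 0 = 0 := by
    have := hs 0 0
    linarith
  simp only [Pi.add_apply, mulVec, dotProduct, Fin.sum_univ_succ, h00, zero_mul, zero_add, vecTail,
    Function.comp]
  have e : ∀ k : Fin m, A 0 k.succ * x k.succ = - (A k.succ 0 * x k.succ) := by
    intro k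
    rw [hs 0 k.succ]
    ring
  rw [Finset.sum_congr rfl fun k _ => e k, Finset.sum_neg_distrib]
  ring

theorem skew_sub {A : Matrix (Fin (m + 1)) (Fin (m + 1)) ℝ} (hA : Aᵀ = -A) :
    (A.submatrix Fin.succ Fin.succ)ᵀ = - A.submatrix Fin.succ (Fin.succ : Fin m → Fin (m + 1)) := by
  ext i j
  have := congrFun (congrFun hA i.succ) j.succ
  simpa using this

/-- the family of remaining motions of the layers -/
def Ps (q1 q2 : Y → Fin (m + 1) → ℝ) : ((Fin m → ℝ) × ℝ × ℝ) →ₗ[ℝ]
    ((Y → Fin (m + 1) → ℝ) × (Y → Fin (m + 1) → ℝ)) where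
  toFun x := (fun y => vecCons (x.2.1 - x.1 ⬝ᵥ vecTail (q1 y)) (q1 y 0 • x.1),
    fun y => vecCons (x.2.2 - x.1 ⬝ᵥ vecTail (q2 y)) (q2 y 0 • x.1))
  map_add' x x' := by
    refine Prod.ext ?_ ?_
    · funext y
      refine vec_ext ?_ ?_
      · simp only [Prod.fst_add, Prod.snd_add, Pi.add_apply, cons_val_zero, add_dotProduct]
        ring
      · change q1 y 0 • (x.1 + x'.1) = q1 y 0 • x.1 + q1 y 0 • x'.1
        rw [smul_add]
    · funext y
      refine vec_ext ?_ ?_
      · simp only [Prod.fst_add, Prod.snd_add, Pi.add_apply, cons_val_zero, add_dotProduct]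
        ring
      · change q2 y 0 • (x.1 + x'.1) = q2 y 0 • x.1 + q2 y 0 • x'.1
        rw [smul_add]
  map_smul' c x := by
    refine Prod.ext ?_ ?_
    · funext y
      refine vec_ext ?_ ?_
      · simp only [Prod.smul_fst, Prod.smul_snd, Pi.smul_apply, cons_val_zero, smul_dotProduct,
          smul_eq_mul, RingHom.id_apply]
        ring
      · change q1 y 0 • (c • x.1) = c • (q1 y 0 • x.1)
        rw [smul_comm]
    · funext y
      refine vec_ext ?_ ?_
      · simp only [Prod.smul_fst, Prod.smul_snd, Pi.smul_apply, cons_val_zero, smul_dotProduct,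
          smul_eq_mul, RingHom.id_apply]
        ring
      · change q2 y 0 • (c • x.1) = c • (q2 y 0 • x.1)
        rw [smul_comm]

theorem ker_Th_le [Finite Y] (P1 P2 : Y → Fin (m + 2) → ℝ) (q0 : Y → Fin (m + 1) → ℝ)
    (hQ : Module.finrank ℝ (LinearMap.ker (qm H 0 (P1, P2))) ≤ Nat.card Y)
    (r1 : InfRigid H (qt P1)) (r2 : InfRigid H (qt P2))
    (hG : ∀ y : Fin (m + 2) → Y, Function.Injective y →
      ∀ x, cg 1 y (qt P1, qt P2) x = 0 → x = 0)
    (hD : ∀ y, q0 y 0 * (qt P2 y 0 - qt P1 y 0) + qt P1 y 0 ≠ 0)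
    (hmax : ∀ q0', Module.finrank ℝ (LinearMap.ker ((Th P1 P2 q0).domRestrict (WW H P1 P2))) ≤
      Module.finrank ℝ (LinearMap.ker ((Th P1 P2 q0').domRestrict (WW H P1 P2)))) :
    Module.finrank ℝ (WW H P1 P2 ⊓ LinearMap.ker (Th P1 P2 q0) : Submodule ℝ (ET Y m)) ≤
      (m + 2) + (mo H (qt P1) + mo H (qt P2)) := by
  classical
  have := Fintype.ofFinite Y
  by_contra hlt
  rw [not_le] at hlt
  have h1 := dim_split (WW H P1 P2) (Th P1 P2 q0)
  have h2 := dim_WW (H := H) P1 P2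
  set R := (WW H P1 P2).map (Th P1 P2 q0) with hR
  have h3 := card_single_le R
  have h4 : Fintype.card {y : Y // (Pi.single y 1 : Y → ℝ) ∈ R} +
      Fintype.card {y : Y // ¬ (Pi.single y 1 : Y → ℝ) ∈ R} = Nat.card Y := by
    rw [Nat.card_eq_fintype_card, Fintype.card_subtype_compl]
    have := Fintype.card_subtype_le (fun y : Y => (Pi.single y 1 : Y → ℝ) ∈ R)
    omega
  have h5 : Fintype.card (Fin (m + 2)) ≤
      Fintype.card {y : Y // ¬ (Pi.single y 1 : Y → ℝ) ∈ R} := by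
    rw [Fintype.card_fin]
    omega
  obtain ⟨e⟩ := Function.Embedding.nonempty_of_card_le h5
  set y : Fin (m + 2) → Y := fun i => (e i).1 with hy
  have hyi : Function.Injective y := Subtype.val_injective.comp e.injective
  have hyR : ∀ i, (Pi.single (y i) 1 : Y → ℝ) ∉ R := fun i => (e i).2
  have hcoef : ∀ κ ∈ WW H P1 P2 ⊓ LinearMap.ker (Th P1 P2 q0), ∀ i,
      qt P2 (y i) 0 • vecTail (κ.1.1 (y i)) = qt P1 (y i) 0 • vecTail (κ.1.2 (y i)) := by
    intro κ hκ i
    have hval : ∀ ξ : Fin m → ℝ, ξ ⬝ᵥ (qt P2 (y i) 0 • vecTail (κ.1.1 (y i)) -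
        qt P1 (y i) 0 • vecTail (κ.1.2 (y i))) = 0 := by
      intro ξ
      set δ : Y → Fin (m + 1) → ℝ := Pi.single (y i) (vecCons 0 ξ) with hδ
      have hd := deriv_mem ((Th P1 P2 q0).domRestrict (WW H P1 P2))
        ((Th P1 P2 (q0 + δ) - Th P1 P2 q0).domRestrict (WW H P1 P2)) (by
          intro s
          have e1 := Th_aff P1 P2 q0 (q0 + δ) s
          rw [add_sub_cancel_left] at e1
          have e2 : (Th P1 P2 q0).domRestrict (WW H P1 P2) +
              s • (Th P1 P2 (q0 + δ) - Th P1 P2 q0).domRestrict (WW H P1 P2) =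
              (Th P1 P2 (q0 + s • δ)).domRestrict (WW H P1 P2) := by
            rw [e1]
            rfl
          rw [e2]
          exact hmax _) ⟨κ, hκ.1⟩ (by
            rw [LinearMap.mem_ker, LinearMap.domRestrict_apply]
            exact hκ.2)
      rw [LinearMap.domRestrict_apply, hδ, Th_deriv] at hd
      obtain ⟨⟨κ', hκ'⟩, he⟩ := hd
      by_contra hne
      apply hyR i
      refine ⟨(ξ ⬝ᵥ (qt P2 (y i) 0 • vecTail (κ.1.1 (y i)) -
        qt P1 (y i) 0 • vecTail (κ.1.2 (y i))))⁻¹ • κ', Submodule.smul_mem _ _ hκ', ?_⟩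
      rw [map_smul]
      rw [LinearMap.domRestrict_apply] at he
      rw [he, ← Pi.single_smul', smul_eq_mul, inv_mul_cancel₀ hne]
    have := hval (qt P2 (y i) 0 • vecTail (κ.1.1 (y i)) - qt P1 (y i) 0 • vecTail (κ.1.2 (y i)))
    rw [dotProduct_self_eq_zero] at this
    exact sub_eq_zero.1 this
  have hv : (WW H P1 P2 ⊓ LinearMap.ker (Th P1 P2 q0)).map
      (LinearMap.fst ℝ ((Y → Fin (m + 1) → ℝ) × (Y → Fin (m + 1) → ℝ))
        ((Y → Fin (m + 2) → ℝ) × (Y → Fin (m + 2) → ℝ))) ≤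
      LinearMap.range (Ps (qt P1) (qt P2)) := by
    rintro _ ⟨κ, hκ, rfl⟩
    have hc := hcoef κ hκ
    obtain ⟨⟨⟨n1, n2⟩, _⟩, _⟩ := (mem_WW P1 P2 κ).1 hκ.1
    obtain ⟨A1, b1, hA1, hv1⟩ := r1 _ n1
    obtain ⟨A2, b2, hA2, hv2⟩ := r2 _ n2
    have hx := hG y hyi ((⟨A1.submatrix Fin.succ Fin.succ, skew_sub hA1⟩,
      ⟨A2.submatrix Fin.succ Fin.succ, skew_sub hA2⟩), vecTail b1, vecTail b2,
      (fun k : Fin m => A1 k.succ 0) - (fun k : Fin m => A2 k.succ 0)) (by
        funext i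
        have h6 := hc i
        rw [hv1, hv2, triv_tail, triv_tail] at h6
        simp only [cg, LinearMap.coe_mk, AddHom.coe_mk, one_smul, Pi.zero_apply]
        funext k
        have h7 := congrFun h6 k
        simp only [Pi.add_apply, Pi.smul_apply, Pi.sub_apply, smul_eq_mul, Pi.zero_apply] at h7 ⊢
        linarith)
    have z1 : A1.submatrix Fin.succ (Fin.succ : Fin m → Fin (m + 1)) = 0 :=
      congrArg (fun x : PM m => (x.1.1 : Matrix (Fin m) (Fin m) ℝ)) hx
    have z2 : A2.submatrix Fin.succ (Fin.succ : Fin m → Fin (m + 1)) = 0 :=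
      congrArg (fun x : PM m => (x.1.2 : Matrix (Fin m) (Fin m) ℝ)) hx
    have z3 : vecTail b1 = 0 := congrArg (fun x : PM m => x.2.1) hx
    have z4 : vecTail b2 = 0 := congrArg (fun x : PM m => x.2.2.1) hx
    have z5 : (fun k : Fin m => A1 k.succ 0) = (fun k : Fin m => A2 k.succ 0) :=
      sub_eq_zero.1 (congrArg (fun x : PM m => x.2.2.2) hx)
    refine ⟨(fun k : Fin m => A1 k.succ 0, b1 0, b2 0), ?_⟩
    refine Prod.ext ?_ ?_
    · funext z
      refine vec_ext ?_ ?_
      · change _ = κ.1.1 z 0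
        rw [hv1, triv_head hA1]
        rfl
      · change _ = vecTail (κ.1.1 z)
        rw [hv1, triv_tail, z1, z3, zero_mulVec, zero_add, zero_add]
        rfl
    · funext z
      refine vec_ext ?_ ?_
      · change _ = κ.1.2 z 0
        rw [hv2, triv_head hA2, ← z5]
        rfl
      · change _ = vecTail (κ.1.2 z)
        rw [hv2, triv_tail, z2, z4, zero_mulVec, zero_add, zero_add, ← z5]
        rfl
  have hfin := dim_le_add (L := WW H P1 P2 ⊓ LinearMap.ker (Th P1 P2 q0))
    (LinearMap.fst ℝ ((Y → Fin (m + 1) → ℝ) × (Y → Fin (m + 1) → ℝ))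
        ((Y → Fin (m + 2) → ℝ) × (Y → Fin (m + 2) → ℝ))) (a := m + 2)
    ((Submodule.finrank_mono hv).trans ((LinearMap.finrank_range_le _).trans (by simp)))
    (dim_zero_part P1 P2 q0 hD)
  omega

end Pool.Agent.T2h34.CP
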