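import Mathlib
import Pool.Agent.T2h34.CP.MaxR

set_option autoImplicit false
set_option linter.unusedSectionVars false

/-! The product of a rigid graph with a triangle. -/

namespace Pool.Agent.T2h34.CP

open Matrix Pool.Agent.H283R2.DR Pool.Agent.H283R2.DR.TA Pool.Agent.H789R5

variable {Y : Type} {m : ℕ} {H : SimpleGraph Y}

/-- the direction of the perturbation -/
def pd (P1 P2 : Y → Fin (m + 2) → ℝ) (x : Fin 3 × Y) : Fin (m + 2) → ℝ :=
  (![0, vecCons (P1 x.2 0) 0, vecCons (P2 x.2 0) 0] : Fin 3 → Fin (m + 2) → ℝ) x.1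

/-- velocities together with two auxiliary motions -/
abbrev EM (Y : Type) (m : ℕ) : Type :=
  (Fin 3 × Y → Fin (m + 2) → ℝ) × ((Y → Fin (m + 2) → ℝ) × (Y → Fin (m + 2) → ℝ))

/-- gluing of the auxiliary motions -/
def glu (Y : Type) (m : ℕ) : EM Y m →ₗ[ℝ] (Y → ℝ) × (Y → ℝ) where
  toFun μ := (fun y => μ.2.1 y 0 - μ.1 (1, y) 0, fun y => μ.2.2 y 0 - μ.1 (2, y) 0)
  map_add' μ μ' := by
    refine Prod.ext ?_ ?_
    · funext y
      simp only [Prod.fst_add, Prod.snd_add, Pi.add_apply]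
      ring
    · funext y
      simp only [Prod.fst_add, Prod.snd_add, Pi.add_apply]
      ring
  map_smul' c μ := by
    refine Prod.ext ?_ ?_
    · funext y
      simp only [Prod.smul_fst, Prod.smul_snd, Pi.smul_apply, smul_eq_mul, RingHom.id_apply]
      ring
    · funext y
      simp only [Prod.smul_fst, Prod.smul_snd, Pi.smul_apply, smul_eq_mul, RingHom.id_apply]
      ring

/-- the limit motions with the auxiliary motions -/
noncomputable def MM (H : SimpleGraph Y) (q0 : Y → Fin (m + 1) → ℝ) (P1 P2 : Y → Fin (m + 2) → ℝ) :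
    Submodule ℝ (EM Y m) :=
  ((Mot (K3 □ H) (lay 0 ![q0, qt P1, qt P2])).prod ((Mot H P1).prod (Mot H P2))) ⊓
    LinearMap.ker (glu Y m)

theorem mem_MM (q0 : Y → Fin (m + 1) → ℝ) (P1 P2 : Y → Fin (m + 2) → ℝ) (μ : EM Y m) :
    μ ∈ MM H q0 P1 P2 ↔ (IsMotion (K3 □ H) (lay 0 ![q0, qt P1, qt P2]) μ.1 ∧
      IsMotion H P1 μ.2.1 ∧ IsMotion H P2 μ.2.2) ∧
      (∀ y, μ.2.1 y 0 = μ.1 (1, y) 0) ∧ (∀ y, μ.2.2 y 0 = μ.1 (2, y) 0) := by
  simp only [MM, Submodule.mem_inf, Submodule.mem_prod, mem_mot, LinearMap.mem_ker]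
  constructor
  · rintro ⟨h1, h2⟩
    refine ⟨h1, fun y => ?_, fun y => ?_⟩
    · exact sub_eq_zero.1 (congrFun (congrArg Prod.fst h2) y)
    · exact sub_eq_zero.1 (congrFun (congrArg Prod.snd h2) y)
  · rintro ⟨h1, h2, h3⟩
    refine ⟨h1, Prod.ext (funext fun y => ?_) (funext fun y => ?_)⟩
    · exact sub_eq_zero.2 (h2 y)
    · exact sub_eq_zero.2 (h3 y)

/-- the limit space -/
noncomputable def LL (H : SimpleGraph Y) (q0 : Y → Fin (m + 1) → ℝ) (P1 P2 : Y → Fin (m + 2) → ℝ) :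
    Submodule ℝ (Fin 3 × Y → Fin (m + 2) → ℝ) :=
  LinearMap.ker (rig (K3 □ H) (lay 0 ![q0, qt P1, qt P2])) ⊓
    (LinearMap.range (rig (K3 □ H) (lay 0 ![q0, qt P1, qt P2]))).comap
      (rig (K3 □ H) (pd P1 P2))

theorem rig_layer1 {q0 : Y → Fin (m + 1) → ℝ} {P1 P2 : Y → Fin (m + 2) → ℝ}
    {w : Fin 3 × Y → Fin (m + 2) → ℝ} {y y' : Y} (hy : H.Adj y y') :
    rig (K3 □ H) (lay 0 ![q0, qt P1, qt P2]) w ((1, y), (1, y')) =
      (qt P1 y - qt P1 y') ⬝ᵥ (vecTail (w (1, y)) - vecTail (w (1, y'))) := by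
  rw [rig_apply_of_adj _ _ _ (adj_layer 1 hy), lay1, lay1, dot_split]
  simp only [tail_sub, Pi.sub_apply, tail_cons, cons_val_zero, sub_self, zero_mul, zero_add]
  rfl

theorem rig_layer2 {q0 : Y → Fin (m + 1) → ℝ} {P1 P2 : Y → Fin (m + 2) → ℝ}
    {w : Fin 3 × Y → Fin (m + 2) → ℝ} {y y' : Y} (hy : H.Adj y y') :
    rig (K3 □ H) (lay 0 ![q0, qt P1, qt P2]) w ((2, y), (2, y')) =
      (qt P2 y - qt P2 y') ⬝ᵥ (vecTail (w (2, y)) - vecTail (w (2, y'))) := by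
  rw [rig_apply_of_adj _ _ _ (adj_layer 2 hy), lay2, lay2, dot_split]
  simp only [tail_sub, Pi.sub_apply, tail_cons, cons_val_zero, sub_self, zero_mul, zero_add]
  rfl

theorem rig_pd1 {P1 P2 : Y → Fin (m + 2) → ℝ}
    {w : Fin 3 × Y → Fin (m + 2) → ℝ} {y y' : Y} (hy : H.Adj y y') :
    rig (K3 □ H) (pd P1 P2) w ((1, y), (1, y')) =
      (P1 y 0 - P1 y' 0) * (w (1, y) 0 - w (1, y') 0) := by
  rw [rig_apply_of_adj _ _ _ (adj_layer 1 hy), dot_split]
  have e2 : vecTail (pd P1 P2 (1, y) - pd P1 P2 (1, y')) = 0 := by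
    change (0 : Fin (m + 1) → ℝ) - 0 = 0
    rw [sub_zero]
  rw [e2, zero_dotProduct, add_zero]
  rfl

theorem rig_pd2 {P1 P2 : Y → Fin (m + 2) → ℝ}
    {w : Fin 3 × Y → Fin (m + 2) → ℝ} {y y' : Y} (hy : H.Adj y y') :
    rig (K3 □ H) (pd P1 P2) w ((2, y), (2, y')) =
      (P2 y 0 - P2 y' 0) * (w (2, y) 0 - w (2, y') 0) := by
  rw [rig_apply_of_adj _ _ _ (adj_layer 2 hy), dot_split]
  have e2 : vecTail (pd P1 P2 (2, y) - pd P1 P2 (2, y')) = 0 := by
    change (0 : Fin (m + 1) → ℝ) - 0 = 0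
    rw [sub_zero]
  rw [e2, zero_dotProduct, add_zero]
  rfl

theorem LL_le (q0 : Y → Fin (m + 1) → ℝ) (P1 P2 : Y → Fin (m + 2) → ℝ) :
    LL H q0 P1 P2 ≤ (MM H q0 P1 P2).map (LinearMap.fst ℝ (Fin 3 × Y → Fin (m + 2) → ℝ)
      ((Y → Fin (m + 2) → ℝ) × (Y → Fin (m + 2) → ℝ))) := by
  rintro w ⟨hw1, hw2⟩
  obtain ⟨w', hw'⟩ := hw2
  have hw1' : IsMotion (K3 □ H) (lay 0 ![q0, qt P1, qt P2]) w := (mem_ker_rig _ _ _).1 hw1
  refine ⟨(w, (fun y => vecCons (w (1, y) 0) (- vecTail (w' (1, y))),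
    fun y => vecCons (w (2, y) 0) (- vecTail (w' (2, y))))), ?_, rfl⟩
  change _ ∈ MM H q0 P1 P2
  rw [mem_MM]
  refine ⟨⟨hw1', ?_, ?_⟩, fun y => rfl, fun y => rfl⟩
  · intro y y' hy
    have h := congrFun hw' ((1, y), (1, y'))
    rw [rig_layer1 hy, rig_pd1 hy] at h
    change (P1 y - P1 y') ⬝ᵥ (vecCons (w (1, y) 0) (- vecTail (w' (1, y))) -
      vecCons (w (1, y') 0) (- vecTail (w' (1, y')))) = 0
    rw [dot_split]
    simp only [tail_sub, Pi.sub_apply, tail_cons, cons_val_zero]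
    rw [← h]
    have e3 : -vecTail (w' (1, y)) - -vecTail (w' (1, y')) =
      - (vecTail (w' (1, y)) - vecTail (w' (1, y'))) := by abel
    rw [e3, dotProduct_neg]
    exact add_neg_cancel _
  · intro y y' hy
    have h := congrFun hw' ((2, y), (2, y'))
    rw [rig_layer2 hy, rig_pd2 hy] at h
    change (P2 y - P2 y') ⬝ᵥ (vecCons (w (2, y) 0) (- vecTail (w' (2, y))) -
      vecCons (w (2, y') 0) (- vecTail (w' (2, y')))) = 0
    rw [dot_split]
    simp only [tail_sub, Pi.sub_apply, tail_cons, cons_val_zero]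
    rw [← h]
    have e3 : -vecTail (w' (2, y)) - -vecTail (w' (2, y')) =
      - (vecTail (w' (2, y)) - vecTail (w' (2, y'))) := by abel
    rw [e3, dotProduct_neg]
    exact add_neg_cancel _

theorem zero_part_ge [Finite Y] (q0 : Y → Fin (m + 1) → ℝ) (P1 P2 : Y → Fin (m + 2) → ℝ) :
    mo H (qt P1) + mo H (qt P2) ≤ Module.finrank ℝ (MM H q0 P1 P2 ⊓
      LinearMap.ker (LinearMap.fst ℝ (Fin 3 × Y → Fin (m + 2) → ℝ)
      ((Y → Fin (m + 2) → ℝ) × (Y → Fin (m + 2) → ℝ))) : Submodule ℝ (EM Y m)) := by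
  have := Fintype.ofFinite Y
  set Z : Submodule ℝ (EM Y m) := MM H q0 P1 P2 ⊓
      LinearMap.ker (LinearMap.fst ℝ (Fin 3 × Y → Fin (m + 2) → ℝ)
      ((Y → Fin (m + 2) → ℝ) × (Y → Fin (m + 2) → ℝ))) with hZ
  let φ : ((Y → Fin (m + 1) → ℝ) × (Y → Fin (m + 1) → ℝ)) →ₗ[ℝ] EM Y m :=
    { toFun := fun v => (0, (fun y => vecCons 0 (v.1 y), fun y => vecCons 0 (v.2 y)))
      map_add' := fun v v' => by
        refine Prod.ext (by simp) (Prod.ext ?_ ?_)
        · funext y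
          refine vec_ext ?_ rfl
          simp
        · funext y
          refine vec_ext ?_ rfl
          simp
      map_smul' := fun c v => by
        refine Prod.ext (by simp) (Prod.ext ?_ ?_)
        · funext y
          refine vec_ext ?_ rfl
          simp
        · funext y
          refine vec_ext ?_ rfl
          simp }
  have h1 : Module.finrank ℝ (Mot H (qt P1) × Mot H (qt P2)) ≤ Module.finrank ℝ Z := by
    refine LinearMap.finrank_le_finrank_of_injective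
      (f := LinearMap.codRestrict Z (φ.comp ((Mot H (qt P1)).subtype.prodMap
        (Mot H (qt P2)).subtype)) ?_) ?_
    · rintro ⟨⟨v1, h1⟩, ⟨v2, h2⟩⟩
      rw [hZ]
      refine ⟨?_, rfl⟩
      change _ ∈ MM H q0 P1 P2
      rw [mem_MM]
      refine ⟨⟨?_, ?_, ?_⟩, fun y => rfl, fun y => rfl⟩
      · intro x x' _
        change _ ⬝ᵥ ((0 : Fin (m + 2) → ℝ) - 0) = 0
        rw [sub_zero, dotProduct_zero]
      · exact motion_of_tail (u := fun y => vecCons 0 (v1 y)) ((mem_mot _ _ _).1 h1) (fun y => rfl)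
      · exact motion_of_tail (u := fun y => vecCons 0 (v2 y)) ((mem_mot _ _ _).1 h2) (fun y => rfl)
    · rw [injective_iff_map_eq_zero]
      rintro ⟨⟨v1, h1⟩, ⟨v2, h2⟩⟩ h0
      have h3 : φ (v1, v2) = 0 := congrArg Subtype.val h0
      have h4 : (fun y => (vecCons 0 (v1 y) : Fin (m + 2) → ℝ)) = 0 :=
        congrArg (fun z : EM Y m => z.2.1) h3
      have h5 : (fun y => (vecCons 0 (v2 y) : Fin (m + 2) → ℝ)) = 0 :=
        congrArg (fun z : EM Y m => z.2.2) h3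
      refine Prod.ext (Subtype.ext ?_) (Subtype.ext ?_)
      · funext y
        exact congrArg vecTail (congrFun h4 y)
      · funext y
        exact congrArg vecTail (congrFun h5 y)
  rw [Module.finrank_prod] at h1
  exact h1

theorem MM_upper [Finite Y] (q0 : Y → Fin (m + 1) → ℝ) (P1 P2 : Y → Fin (m + 2) → ℝ)
    (ht : ∀ y, qt P1 y 0 ≠ 0) :
    Module.finrank ℝ (MM H q0 P1 P2) ≤ mo H q0 +
      Module.finrank ℝ (WW H P1 P2 ⊓ LinearMap.ker (Th P1 P2 q0) : Submodule ℝ (ET Y m)) := by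
  have := Fintype.ofFinite Y
  let φ : EM Y m →ₗ[ℝ] (Y → Fin (m + 1) → ℝ) :=
    { toFun := fun μ y => tgL 0 (μ.1 (0, y))
      map_add' := fun μ μ' => by funext y; simp
      map_smul' := fun c μ => by funext y; simp }
  refine dim_le_add φ (Submodule.finrank_mono ?_) ?_
  · rintro _ ⟨μ, hμ, rfl⟩
    obtain ⟨⟨h1, _⟩, _⟩ := (mem_MM q0 P1 P2 μ).1 hμ
    rw [mem_mot]
    exact lay_layer h1 0
  · let ψ : EM Y m →ₗ[ℝ] ET Y m :=
      { toFun := fun μ => ((fun y => vecTail (μ.1 (1, y)), fun y => vecTail (μ.1 (2, y))), μ.2)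
        map_add' := fun μ μ' => rfl
        map_smul' := fun c μ => rfl }
    have hz : ∀ μ ∈ MM H q0 P1 P2 ⊓ LinearMap.ker φ, (∀ y, μ.1 (0, y) 0 = 0) ∧
        (∀ y, vecTail (vecTail (μ.1 (0, y))) = 0) := by
      intro μ hμ
      have h0 : φ μ = 0 := hμ.2
      have h1 : ∀ y, tg0 (μ.1 (0, y)) = 0 := fun y => congrFun h0 y
      refine ⟨fun y => congrFun (h1 y) 0, fun y => ?_⟩
      rw [← tail_tg0, h1 y]
      rfl
    have hm : ∀ μ ∈ MM H q0 P1 P2 ⊓ LinearMap.ker φ, ∀ y,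
        (q0 y 0 * μ.1 (1, y) 0 + qt P1 y 0 * (μ.1 (0, y) 1 - vecTail (μ.1 (1, y)) 0) +
      (vecTail (q0 y) - vecTail (qt P1 y)) ⬝ᵥ vecTail (vecTail (μ.1 (1, y))) = 0) ∧
        ((q0 y 0 - 1) * μ.1 (2, y) 0 + qt P2 y 0 *
        (μ.1 (0, y) 1 - vecTail (μ.1 (2, y)) 0) +
      (vecTail (q0 y) - vecTail (qt P2 y)) ⬝ᵥ vecTail (vecTail (μ.1 (2, y))) = 0) := by
      intro μ hμ y
      obtain ⟨z1, z2⟩ := hz μ hμ
      obtain ⟨⟨h1, _⟩, _⟩ := (mem_MM q0 P1 P2 μ).1 hμ.1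
      have a : q0 y 0 * (μ.1 (0, y) 0 - μ.1 (1, y) 0) +
        ((0 - qt P1 y 0) * (μ.1 (0, y) 1 - vecTail (μ.1 (1, y)) 0) +
          (vecTail (q0 y) - vecTail (qt P1 y)) ⬝ᵥ
        (vecTail (vecTail (μ.1 (0, y))) - vecTail (vecTail (μ.1 (1, y))))) = 0 := match01 h1 y
      have b : (q0 y 0 - 1) * (μ.1 (0, y) 0 - μ.1 (2, y) 0) +
        ((0 - qt P2 y 0) * (μ.1 (0, y) 1 - vecTail (μ.1 (2, y)) 0) +
          (vecTail (q0 y) - vecTail (qt P2 y)) ⬝ᵥ
        (vecTail (vecTail (μ.1 (0, y))) - vecTail (vecTail (μ.1 (2, y))))) = 0 := match02 h1 y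
      rw [z1, z2, dotProduct_sub, dotProduct_zero] at a b
      exact ⟨by linarith, by linarith⟩
    refine dim_le_of_inj ψ _ ?_ ?_
    · intro μ hμ
      obtain ⟨⟨h1, h2, h3⟩, h4, h5⟩ := (mem_MM q0 P1 P2 μ).1 hμ.1
      refine ⟨(mem_WW P1 P2 _).2 ⟨⟨⟨lay_layer h1 1, lay_layer h1 2⟩, h2, h3⟩, ?_⟩, ?_⟩
      · intro y
        have := match12 h1 y
        change μ.2.2 y 0 - μ.2.1 y 0 + _ = 0
        rw [h4, h5]
        exact this
      · change Th P1 P2 q0 (ψ μ) = 0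
        funext y
        obtain ⟨a, b⟩ := hm μ hμ y
        change qt P2 y 0 * ((vecTail (q0 y) - vecTail (qt P1 y)) ⬝ᵥ
          vecTail (vecTail (μ.1 (1, y))) - qt P1 y 0 * vecTail (μ.1 (1, y)) 0 +
          q0 y 0 * μ.2.1 y 0) - qt P1 y 0 * ((vecTail (q0 y) - vecTail (qt P2 y)) ⬝ᵥ
          vecTail (vecTail (μ.1 (2, y))) - qt P2 y 0 * vecTail (μ.1 (2, y)) 0 +
          (q0 y 0 - 1) * μ.2.2 y 0) = 0
        rw [h4, h5]
        have a' := congrArg (fun z => qt P2 y 0 * z) a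
        have b' := congrArg (fun z => qt P1 y 0 * z) b
        simp only [mul_zero] at a' b'
        linarith
    · intro μ hμ h0
      obtain ⟨⟨h1, h2, h3⟩, h4, h5⟩ := (mem_MM q0 P1 P2 μ).1 hμ.1
      obtain ⟨z1, z2⟩ := hz μ hμ
      have k1 : ∀ y, vecTail (μ.1 (1, y)) = 0 := fun y =>
        congrFun (congrArg (fun z : ET Y m => z.1.1) h0) y
      have k2 : ∀ y, vecTail (μ.1 (2, y)) = 0 := fun y =>
        congrFun (congrArg (fun z : ET Y m => z.1.2) h0) y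
      have k3 : μ.2 = 0 := congrArg (fun z : ET Y m => z.2) h0
      have k4 : ∀ y, μ.1 (1, y) 0 = 0 := by
        intro y
        rw [← h4, k3]
        rfl
      have k5 : ∀ y, μ.1 (2, y) 0 = 0 := by
        intro y
        rw [← h5, k3]
        rfl
      have k6 : ∀ y, μ.1 (0, y) 1 = 0 := by
        intro y
        obtain ⟨a, _⟩ := hm μ hμ y
        rw [k4, k1] at a
        have z : vecTail (0 : Fin (m + 1) → ℝ) = 0 := rfl
        rw [z, dotProduct_zero, Pi.zero_apply] at a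
        have : qt P1 y 0 * μ.1 (0, y) 1 = 0 := by linarith
        exact (mul_eq_zero.1 this).resolve_left (ht y)
      refine Prod.ext ?_ k3
      funext x
      obtain ⟨i, y⟩ := x
      fin_cases i
      · exact vec_ext (z1 y) (vec_ext (k6 y) (z2 y))
      · exact vec_ext (k4 y) (k1 y)
      · exact vec_ext (k5 y) (k2 y)

theorem dim_LL [Finite Y] (q0 : Y → Fin (m + 1) → ℝ) (P1 P2 : Y → Fin (m + 2) → ℝ)
    (ht : ∀ y, qt P1 y 0 ≠ 0)
    (hT : Module.finrank ℝ (WW H P1 P2 ⊓ LinearMap.ker (Th P1 P2 q0) : Submodule ℝ (ET Y m)) ≤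
      (m + 2) + (mo H (qt P1) + mo H (qt P2))) :
    Module.finrank ℝ (LL H q0 P1 P2) ≤ mo H q0 + (m + 2) := by
  have := Fintype.ofFinite Y
  have h1 := Submodule.finrank_mono (LL_le (H := H) q0 P1 P2)
  have h2 := zero_part_ge (H := H) q0 P1 P2
  have h3 := MM_upper (H := H) q0 P1 P2 ht
  have h4 := dim_split (MM H q0 P1 P2) (LinearMap.fst ℝ (Fin 3 × Y → Fin (m + 2) → ℝ)
      ((Y → Fin (m + 2) → ℝ) × (Y → Fin (m + 2) → ℝ)))
  omega

theorem mo_of_infRigid {d : ℕ} [Finite Y] {q : Y → Fin d → ℝ} (h : InfRigid H q) :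
    mo H q ≤ d * (d + 1) / 2 := by
  have := Fintype.ofFinite Y
  rw [TA.infRigid_iff] at h
  calc mo H q ≤ Module.finrank ℝ (LinearMap.range (TA.triv q)) := Submodule.finrank_mono h
    _ ≤ Module.finrank ℝ (TA.Sk d × (Fin d → ℝ)) := LinearMap.finrank_range_le _
    _ = _ := finrank_triv d

theorem good_forall {E ι : Type*} [AddCommGroup E] [Module ℝ E] [Finite ι] {P : ι → E → Prop}
    (h : ∀ i, Good (P i)) : Good (fun p => ∀ i, P i p) := by
  intro p0 p1 h0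
  have h1 : (⋃ i, {s : ℝ | ¬ P i (p0 + s • (p1 - p0))}).Finite :=
    Set.finite_iUnion fun i => h i p0 p1 (h0 i)
  refine h1.subset ?_
  intro s hs
  simp only [Set.mem_ofPred_eq, not_forall] at hs
  obtain ⟨i, hi⟩ := hs
  exact Set.mem_iUnion.2 ⟨i, hi⟩

theorem qt_aff : Aff (fun P : Y → Fin (m + 2) → ℝ => qt P) := by
  intro a b s
  rfl

theorem exists_lift (q : Y → Fin (m + 1) → ℝ) : ∃ P : Y → Fin (m + 2) → ℝ, qt P = q :=
  ⟨fun y => vecCons 0 (q y), rfl⟩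

/-- the choice of the first two layers -/
theorem choice12 [Finite Y] (hR : GenRigid (m + 1) H) (hQ : Qp (m + 2) 0 H) :
    ∃ P : (Y → Fin (m + 2) → ℝ) × (Y → Fin (m + 2) → ℝ),
      Module.finrank ℝ (LinearMap.ker (qm H 0 P)) ≤ Nat.card Y ∧
      InfRigid H (qt P.1) ∧ InfRigid H (qt P.2) ∧ (∀ y, qt P.1 y 0 ≠ 0) ∧
      (∀ y : Fin (m + 2) → Y, Function.Injective y →
        ∀ x, cg 1 y (qt P.1, qt P.2) x = 0 → x = 0) := by
  have := Fintype.ofFinite Y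
  obtain ⟨q, hq⟩ := hR
  have g1 : Good (fun P : (Y → Fin (m + 2) → ℝ) × (Y → Fin (m + 2) → ℝ) =>
      Module.finrank ℝ (LinearMap.ker (qm H 0 P)) ≤ Nat.card Y) := good_ker (qm_aff 0) _
  have g2 : Good (fun P : (Y → Fin (m + 2) → ℝ) × (Y → Fin (m + 2) → ℝ) =>
      InfRigid H (qt P.1)) := Aff.good (infRigid_good H) (F := fun P :
        (Y → Fin (m + 2) → ℝ) × (Y → Fin (m + 2) → ℝ) => qt P.1) (by intro a b s; rfl)
  have g3 : Good (fun P : (Y → Fin (m + 2) → ℝ) × (Y → Fin (m + 2) → ℝ) =>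
      InfRigid H (qt P.2)) := Aff.good (infRigid_good H) (F := fun P :
        (Y → Fin (m + 2) → ℝ) × (Y → Fin (m + 2) → ℝ) => qt P.2) (by intro a b s; rfl)
  have g4 : Good (fun P : (Y → Fin (m + 2) → ℝ) × (Y → Fin (m + 2) → ℝ) =>
      ∀ y, qt P.1 y 0 ≠ 0) := good_forall fun y => good_ne (F := fun P :
        (Y → Fin (m + 2) → ℝ) × (Y → Fin (m + 2) → ℝ) => qt P.1 y 0) (by intro a b s; rfl)
  have g5 : Good (fun P : (Y → Fin (m + 2) → ℝ) × (Y → Fin (m + 2) → ℝ) =>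
      (∀ y : Fin (m + 2) → Y, Function.Injective y →
        ∀ x, cg 1 y (qt P.1, qt P.2) x = 0 → x = 0)) := good_forall fun y => good_imp fun _ =>
        Aff.good (cg_good y) (F := fun P : (Y → Fin (m + 2) → ℝ) × (Y → Fin (m + 2) → ℝ) =>
          (qt P.1, qt P.2)) (by intro a b s; rfl)
  have e2 : ∃ P : (Y → Fin (m + 2) → ℝ) × (Y → Fin (m + 2) → ℝ), InfRigid H (qt P.1) := by
    obtain ⟨P, hP⟩ := exists_lift q
    exact ⟨(P, P), by rw [hP]; exact hq⟩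
  have e3 : ∃ P : (Y → Fin (m + 2) → ℝ) × (Y → Fin (m + 2) → ℝ), InfRigid H (qt P.2) := by
    obtain ⟨P, hP⟩ := exists_lift q
    exact ⟨(P, P), by rw [hP]; exact hq⟩
  have e4 : ∃ P : (Y → Fin (m + 2) → ℝ) × (Y → Fin (m + 2) → ℝ), ∀ y, qt P.1 y 0 ≠ 0 :=
    ⟨(fun _ => 1, 0), fun y => one_ne_zero⟩
  have e5 : ∃ P : (Y → Fin (m + 2) → ℝ) × (Y → Fin (m + 2) → ℝ),
      (∀ y : Fin (m + 2) → Y, Function.Injective y →
        ∀ x, cg 1 y (qt P.1, qt P.2) x = 0 → x = 0) := by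
    have hf := good_family (E := (Y → Fin (m + 1) → ℝ) × (Y → Fin (m + 1) → ℝ))
      (ι := Fin (m + 2) → Y) (fun y p => Function.Injective y → ∀ x, cg 1 y p x = 0 → x = 0)
      (fun y => good_imp fun _ => cg_good y) (fun y => by
        by_cases hy : Function.Injective y
        · obtain ⟨p, hp⟩ := cg_sat y hy
          exact ⟨p, fun _ => hp⟩
        · exact ⟨0, fun h => absurd h hy⟩)
    obtain ⟨⟨p1, p2⟩, hp⟩ := hf
    obtain ⟨P1, hP1⟩ := exists_lift p1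
    obtain ⟨P2, hP2⟩ := exists_lift p2
    refine ⟨(P1, P2), ?_⟩
    rw [hP1, hP2]
    exact hp
  exact good_and_exists g1 (good_and g2 (good_and g3 (good_and g4 g5))) hQ
    (good_and_exists g2 (good_and g3 (good_and g4 g5)) e2
      (good_and_exists g3 (good_and g4 g5) e3 (good_and_exists g4 g5 e4 e5)))

/-- the product of a rigid graph with a triangle -/
theorem base_R [Finite Y] (hR : GenRigid (m + 1) H) (hQ : Qp (m + 2) 0 H) :
    ∃ P : Fin 3 × Y → Fin (m + 2) → ℝ, mo (K3 □ H) P ≤ (m + 2) * (m + 3) / 2 := by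
  have := Fintype.ofFinite Y
  obtain ⟨⟨P1, P2⟩, c1, c2, c3, c4, c5⟩ := choice12 hR hQ
  -- the third layer
  have g1 : Good (fun q0 : Y → Fin (m + 1) → ℝ => InfRigid H q0) := infRigid_good H
  have g2 : Good (fun q0 : Y → Fin (m + 1) → ℝ =>
      ∀ y, q0 y 0 * (qt P2 y 0 - qt P1 y 0) + qt P1 y 0 ≠ 0) := good_forall fun y => good_ne (F :=
        fun q0 : Y → Fin (m + 1) → ℝ => q0 y 0 * (qt P2 y 0 - qt P1 y 0) + qt P1 y 0) (by
          intro a b s
          simp only [Pi.add_apply, Pi.smul_apply, Pi.sub_apply, smul_eq_mul]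
          ring)
  have haff : Aff (fun q0 => (Th P1 P2 q0).domRestrict (WW H P1 P2)) := by
    intro a b s
    have e1 := Th_aff P1 P2 a b s
    simp only
    rw [e1]
    rfl
  have g3 := good_minker haff
  have e2 : ∃ q0 : Y → Fin (m + 1) → ℝ,
      ∀ y, q0 y 0 * (qt P2 y 0 - qt P1 y 0) + qt P1 y 0 ≠ 0 :=
    ⟨0, fun y => by simpa using c4 y⟩
  obtain ⟨q0, h1, h2, h3⟩ := good_and_exists g1 (good_and g2 g3) hR
    (good_and_exists g2 g3 e2 (exists_minker _))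
  have h4 := ker_Th_le P1 P2 q0 c1 c2 c3 c5 h2 h3
  have h5 := dim_LL q0 P1 P2 c4 h4
  have h6 := mo_of_infRigid h1
  have hfin := (first_order (rig (K3 □ H) (lay 0 ![q0, qt P1, qt P2]))
    (rig (K3 □ H) (pd P1 P2))).union (Set.finite_singleton (0 : ℝ))
  obtain ⟨s, hs⟩ := hfin.infinite_compl.nonempty
  rw [Set.mem_compl_iff, Set.mem_union, not_or, Set.mem_ofPred_eq, not_and, not_lt,
    Set.mem_singleton_iff] at hs
  have h7 := hs.1 hs.2
  refine ⟨lay 0 ![q0, qt P1, qt P2] + s • pd P1 P2, ?_⟩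
  unfold mo Mot
  rw [rig_line]
  refine h7.trans (h5.trans ?_)
  have e3 : (m + 2) * (m + 3) = (m + 1) * (m + 1 + 1) + 2 * (m + 2) := by ring
  rw [e3, Nat.add_mul_div_left _ _ (by norm_num)]
  omega

end Pool.Agent.T2h34.CP
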