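import Mathlib
import Pool.Agent.T2h34.CP.Base

set_option autoImplicit false
set_option linter.unusedSectionVars false

/-! Products of `d` connected graphs with cycles are rigid in dimension `d`. -/

namespace Pool.Agent.T2h34.CP

open Matrix Pool.Agent.H283R2.DR Pool.Agent.H283R2.DR.TA Pool.Agent.H789R5

/-! ### Isomorphisms -/

section iso

variable {V V' : Type} {G : SimpleGraph V} {G' : SimpleGraph V'} {d : ℕ}

theorem motion_iso (e : G ≃g G') {P w : V' → Fin d → ℝ} (h : IsMotion G' P w) :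
    IsMotion G (fun v => P (e v)) (fun v => w (e v)) :=
  fun u v huv => h (e u) (e v) (e.map_adj_iff.2 huv)

theorem mo_iso [Finite V] (e : G ≃g G') {k : ℕ} (h : ∃ P : V → Fin d → ℝ, mo G P ≤ k) :
    ∃ P : V' → Fin d → ℝ, mo G' P ≤ k := by
  have := Fintype.ofFinite V
  have : Finite V' := Finite.of_equiv V e.toEquiv
  have := Fintype.ofFinite V'
  obtain ⟨P, hP⟩ := h
  refine ⟨fun v => P (e.symm v), le_trans ?_ hP⟩
  let φ : (V' → Fin d → ℝ) →ₗ[ℝ] (V → Fin d → ℝ) := LinearMap.funLeft ℝ (Fin d → ℝ) e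
  refine dim_le_of_inj φ (Mot G P) ?_ ?_
  · intro w hw
    have := motion_iso e ((mem_mot G' _ w).1 hw)
    simp only [RelIso.symm_apply_apply] at this
    exact (mem_mot _ _ _).2 this
  · intro w _ h0
    funext v
    have := congrFun h0 (e.symm v)
    rw [LinearMap.funLeft_apply, RelIso.apply_symm_apply] at this
    exact this

theorem sl_iso (e : G ≃g G') (h : Sl d G) : Sl d G' := by
  obtain ⟨P, s, h⟩ := h
  refine ⟨fun v => P (e.symm v), fun v => s (e.symm v), ?_⟩
  intro w hw hs
  have h1 := motion_iso e hw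
  simp only [RelIso.symm_apply_apply] at h1
  have h2 := h _ h1 (by
    intro v
    have := hs (e v)
    simp only [RelIso.symm_apply_apply] at this
    exact this)
  funext v
  have := congrFun h2 (e.symm v)
  simp only [RelIso.apply_symm_apply] at this
  exact this

theorem genRigid_iso (e : G ≃g G') (h : GenRigid d G) : GenRigid d G' := by
  obtain ⟨P, h⟩ := h
  refine ⟨fun v => P (e.symm v), ?_⟩
  intro w hw
  have h1 := motion_iso e hw
  simp only [RelIso.symm_apply_apply] at h1
  obtain ⟨A, b, hA, hb⟩ := h _ h1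
  refine ⟨A, b, hA, fun v => ?_⟩
  have := hb (e.symm v)
  simp only [RelIso.apply_symm_apply] at this
  exact this

/-- isomorphic factors give isomorphic products -/
def prodIso {W W' : Type} {H : SimpleGraph W} {H' : SimpleGraph W'} (e : G ≃g G') (f : H ≃g H') :
    (G □ H) ≃g (G' □ H') where
  toEquiv := Equiv.prodCongr e.toEquiv f.toEquiv
  map_rel_iff' := by
    rintro ⟨a, b⟩ ⟨a', b'⟩
    simp only [SimpleGraph.boxProd_adj, Equiv.prodCongr_apply, Prod.map_apply]
    constructor
    · rintro (⟨h1, h2⟩ | ⟨h1, h2⟩)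
      · exact Or.inl ⟨e.map_adj_iff.1 h1, f.injective h2⟩
      · exact Or.inr ⟨f.map_adj_iff.1 h1, e.injective h2⟩
    · rintro (⟨h1, h2⟩ | ⟨h1, h2⟩)
      · exact Or.inl ⟨e.map_adj_iff.2 h1, congrArg _ h2⟩
      · exact Or.inr ⟨f.map_adj_iff.2 h1, congrArg _ h2⟩

end iso

/-- the one-vertex graph -/
abbrev pt : SimpleGraph Unit := ⊥

/-- product with a point -/
def ptIso {V : Type} (G : SimpleGraph V) : (pt □ G) ≃g G where
  toEquiv := Equiv.punitProd V
  map_rel_iff' := by
    rintro ⟨⟨⟩, b⟩ ⟨⟨⟩, b'⟩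
    simp [SimpleGraph.boxProd_adj]

/-! ### Powers of the triangle -/

/-- vertices of the power of the triangle -/
def TT : ℕ → Type
  | 0 => Unit
  | j + 1 => Fin 3 × TT j

/-- the power of the triangle -/
def TG : ∀ j : ℕ, SimpleGraph (TT j)
  | 0 => pt
  | j + 1 => K3 □ TG j

instance finTT : ∀ j, Finite (TT j)
  | 0 => inferInstanceAs (Finite Unit)
  | j + 1 => by
    have := finTT j
    exact inferInstanceAs (Finite (Fin 3 × TT j))

theorem card_TT (j : ℕ) : Nat.card (TT j) = 3 ^ j := by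
  induction j with
  | zero =>
    have h : Nat.card (TT 0) = Nat.card Unit := rfl
    rw [h, Nat.card_unique, pow_zero]
  | succ j ih =>
    have h : Nat.card (TT (j + 1)) = Nat.card (Fin 3 × TT j) := rfl
    rw [h, Nat.card_prod, ih, Nat.card_fin, pow_succ, mul_comm]

theorem dot2 (x y : Fin 2 → ℝ) : x ⬝ᵥ y = x 0 * y 0 + x 1 * y 1 := by
  simp [dotProduct]

/-- the base of the sharing property: a triangle in the plane -/
theorem Q_base : Qp 2 (Fin.last 1) (K3 □ pt) := by
  let p1 : Fin 3 → Fin 2 → ℝ := ![![1, 0], ![0, 0], ![0, 1]]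
  let p2 : Fin 3 → Fin 2 → ℝ := ![![0, 0], ![1, 0], ![0, 1]]
  refine ⟨(fun x => p1 x.1, fun x => p2 x.1), ?_⟩
  let φ : ((Fin 3 × Unit → Fin 2 → ℝ) × (Fin 3 × Unit → Fin 2 → ℝ)) →ₗ[ℝ] (Fin 3 → ℝ) :=
    LinearMap.pi ![
      (LinearMap.proj (0 : Fin 2)).comp ((LinearMap.proj ((0 : Fin 3), ())).comp
        (LinearMap.fst ℝ (Fin 3 × Unit → Fin 2 → ℝ) (Fin 3 × Unit → Fin 2 → ℝ))),
      (LinearMap.proj (0 : Fin 2)).comp ((LinearMap.proj ((0 : Fin 3), ())).comp
        (LinearMap.snd ℝ (Fin 3 × Unit → Fin 2 → ℝ) (Fin 3 × Unit → Fin 2 → ℝ))),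
      (LinearMap.proj (1 : Fin 2)).comp ((LinearMap.proj ((0 : Fin 3), ())).comp
        (LinearMap.fst ℝ (Fin 3 × Unit → Fin 2 → ℝ) (Fin 3 × Unit → Fin 2 → ℝ)))]
  have h1 : Module.finrank ℝ (LinearMap.ker (qm (K3 □ pt) (Fin.last 1)
      ((fun x => p1 x.1, fun x => p2 x.1) :
        (Fin 3 × Unit → Fin 2 → ℝ) × (Fin 3 × Unit → Fin 2 → ℝ)))) ≤
      Module.finrank ℝ (⊤ : Submodule ℝ (Fin 3 → ℝ)) := by
    refine dim_le_of_inj φ ⊤ (fun _ _ => Submodule.mem_top) ?_
    intro u hu h0
    rw [mem_ker_qm] at hu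
    obtain ⟨m1, m2, m3⟩ := hu
    obtain ⟨a, b⟩ := u
    simp only at m1 m2 m3
    have z1 : a (0, ()) 0 = 0 := congrFun h0 0
    have z2 : b (0, ()) 0 = 0 := congrFun h0 1
    have z3 : a (0, ()) 1 = 0 := congrFun h0 2
    have g0 : a (0, ()) 1 = b (0, ()) 1 := m3 (0, ())
    have g1 : a (1, ()) 1 = b (1, ()) 1 := m3 (1, ())
    have g2 : a (2, ()) 1 = b (2, ()) 1 := m3 (2, ())
    have a01 := m1 (0, ()) (1, ()) (adj_match (by decide) ())
    have a02 := m1 (0, ()) (2, ()) (adj_match (by decide) ())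
    have a12 := m1 (1, ()) (2, ()) (adj_match (by decide) ())
    have b01 := m2 (0, ()) (1, ()) (adj_match (by decide) ())
    have b02 := m2 (0, ()) (2, ()) (adj_match (by decide) ())
    have b12 := m2 (1, ()) (2, ()) (adj_match (by decide) ())
    rw [dot2] at a01 a02 a12 b01 b02 b12
    simp only [p1, p2, Pi.sub_apply, cons_val_zero, cons_val_one,
      cons_val] at a01 a02 a12 b01 b02 b12
    have c1 : a (1, ()) 0 = 0 := by linarith
    have c2 : b (0, ()) 1 = 0 := by linarith
    have c3 : b (2, ()) 1 = 0 := by linarith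
    have c4 : a (2, ()) 1 = 0 := by linarith
    have c5 : a (1, ()) 1 = 0 := by linarith
    have c6 : b (1, ()) 1 = 0 := by linarith
    have c7 : a (2, ()) 0 = 0 := by linarith
    have c8 : b (1, ()) 0 = 0 := by linarith
    have c9 : b (2, ()) 0 = 0 := by linarith
    refine Prod.ext ?_ ?_
    · funext x i
      obtain ⟨x, ⟨⟩⟩ := x
      fin_cases x <;> fin_cases i
      · exact z1
      · exact z3
      · exact c1
      · exact c5
      · exact c7
      · exact c4
    · funext x i
      obtain ⟨x, ⟨⟩⟩ := x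
      fin_cases x <;> fin_cases i
      · exact z2
      · exact c2
      · exact c8
      · exact c6
      · exact c9
      · exact c3
  refine h1.trans ?_
  rw [finrank_top, Module.finrank_fin_fun, Nat.card_prod, Nat.card_fin, Nat.card_unique]

theorem Q_TG (j : ℕ) : Qp (j + 2) (Fin.last (j + 1)) (TG (j + 1)) := by
  induction j with
  | zero => exact Q_base
  | succ j ih => exact tri_Q ih

theorem R_TG (j : ℕ) : ∃ P : TT j → Fin j → ℝ, mo (TG j) P ≤ j * (j + 1) / 2 := by
  induction j with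
  | zero =>
    refine ⟨0, ?_⟩
    have : Finite (TT 0) := finTT 0
    have := Fintype.ofFinite (TT 0)
    exact (mo_le (TG 0) 0).trans (by simp)
  | succ j ih =>
    rcases j with _ | j
    · -- the triangle on the line
      refine ⟨fun x _ => ((x : Fin 3 × Unit).1 : ℝ), ?_⟩
      let φ : (Fin 3 × Unit → Fin 1 → ℝ) →ₗ[ℝ] (Fin 1 → ℝ) := LinearMap.proj ((0 : Fin 3), ())
      have h1 : Module.finrank ℝ (Mot (K3 □ pt) (fun x : Fin 3 × Unit => fun _ : Fin 1 =>
          ((x.1 : ℕ) : ℝ))) ≤ Module.finrank ℝ (⊤ : Submodule ℝ (Fin 1 → ℝ)) := by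
        refine dim_le_of_inj φ ⊤ (fun _ _ => Submodule.mem_top) ?_
        intro w hw h0
        rw [mem_mot] at hw
        have z : w (0, ()) 0 = 0 := congrFun h0 0
        have a01 := hw (0, ()) (1, ()) (adj_match (by decide) ())
        have a02 := hw (0, ()) (2, ()) (adj_match (by decide) ())
        simp only [dotProduct, Fin.sum_univ_one, Pi.sub_apply] at a01 a02
        have c1 : w (1, ()) 0 = 0 := by
          simp at a01
          linarith
        have c2 : w (2, ()) 0 = 0 := by
          simp at a02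
          linarith
        funext x i
        obtain ⟨x, ⟨⟩⟩ := x
        fin_cases x <;> fin_cases i
        · exact z
        · exact c1
        · exact c2
      rw [finrank_top, Module.finrank_fin_fun] at h1
      exact h1
    · have := Fintype.ofFinite (TT (j + 1))
      have hR : GenRigid (j + 1) (TG (j + 1)) := by
        obtain ⟨p, hp⟩ := exists_mg (TT (j + 1)) (j + 1)
        rw [genRigid_iff hp]
        · obtain ⟨P, hP⟩ := ih
          exact (hp.min _ P).trans hP
        · rw [← Nat.card_eq_fintype_card, card_TT]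
          exact (Nat.lt_pow_self (by norm_num)).le
      have hQ : Qp (j + 2) 0 (TG (j + 1)) := by
        have h := (Q_TG j).perm (Equiv.swap (Fin.last (j + 1)) 0)
        rwa [Equiv.swap_apply_left] at h
      exact base_R hR hQ

/-! ### Products -/

theorem sl_pt : Sl 1 pt := by
  refine ⟨0, fun _ _ => 1, ?_⟩
  intro w _ hw
  funext v i
  have := hw v
  simp only [dotProduct, Fin.sum_univ_one] at this
  rw [Subsingleton.elim i 0]
  simpa using this

/-- `G` is (isomorphic to) the cartesian product of `n` finite connected graphs with cycles. -/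
inductive IsP : ℕ → (V : Type) → SimpleGraph V → Prop
  | pt : IsP 0 Unit pt
  | mul {n : ℕ} {V Y : Type} {G : SimpleGraph V} {H : SimpleGraph Y} (fV : Finite V)
      (hG : G.Connected) (hA : ¬ G.IsAcyclic) (hH : IsP n Y H) : IsP (n + 1) (V × Y) (G □ H)
  | iso {n : ℕ} {V V' : Type} {G : SimpleGraph V} {G' : SimpleGraph V'} (e : Nonempty (G ≃g G'))
      (hG : IsP n V G) : IsP n V' G'

theorem card_of_nonacyclic {V : Type} [Finite V] {G : SimpleGraph V} (hG : G.Connected)
    (hA : ¬ G.IsAcyclic) : 3 ≤ Nat.card V := by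
  obtain ⟨f, hf⟩ := exists_contr G hG hA
  have h := Nat.card_le_card_of_surjective f hf.surj
  rwa [Nat.card_fin] at h

theorem K3_conn : K3.Connected := by
  have : Nonempty (Fin 3) := ⟨0⟩
  exact SimpleGraph.connected_top

theorem K3_nonacyclic : ¬ K3.IsAcyclic := by
  intro h
  have h1 := (SimpleGraph.isAcyclic_iff_forall_adj_isBridge.1 h) (show K3.Adj 0 1 by decide)
  rw [SimpleGraph.isBridge_iff] at h1
  apply h1
  have a : (K3.deleteEdges {s(0, 1)}).Adj 0 2 := by
    rw [SimpleGraph.deleteEdges_adj]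
    refine ⟨by decide, ?_⟩
    simp
  have b : (K3.deleteEdges {s(0, 1)}).Adj 2 1 := by
    rw [SimpleGraph.deleteEdges_adj]
    refine ⟨by decide, ?_⟩
    simp
  exact a.reachable.trans b.reachable

theorem IsP.fin {n : ℕ} {V : Type} {G : SimpleGraph V} (h : IsP n V G) : Finite V := by
  induction h with
  | pt => infer_instance
  | mul fV _ _ _ ih => infer_instance
  | iso e _ ih =>
    obtain ⟨e⟩ := e
    exact Finite.of_equiv _ e.toEquiv

theorem IsP.card {n : ℕ} {V : Type} {G : SimpleGraph V} (h : IsP n V G) : 3 ^ n ≤ Nat.card V := by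
  induction h with
  | pt => simp
  | @mul n V Y G H fV hG hA hH ih =>
    rw [Nat.card_prod, pow_succ, mul_comm]
    exact Nat.mul_le_mul (card_of_nonacyclic hG hA) ih
  | iso e _ ih =>
    obtain ⟨e⟩ := e
    rwa [← Nat.card_congr e.toEquiv]

theorem IsP.sl {n : ℕ} {V : Type} {G : SimpleGraph V} (h : IsP n V G) : Sl (n + 1) G := by
  induction h with
  | pt => exact sl_pt
  | mul fV hG hA hH ih =>
    have := hH.fin
    exact step_S hG hA ih
  | iso e _ ih =>
    obtain ⟨e⟩ := e
    exact sl_iso e ih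

theorem IsP_TG (j : ℕ) : IsP j (TT j) (TG j) := by
  induction j with
  | zero => exact IsP.pt
  | succ j ih => exact IsP.mul inferInstance K3_conn K3_nonacyclic ih

theorem IsP.mulTG {n : ℕ} {V : Type} {G : SimpleGraph V} (h : IsP n V G) (j : ℕ) :
    IsP (n + j) (V × TT j) (G □ TG j) := by
  induction h with
  | pt =>
    rw [zero_add]
    exact IsP.iso ⟨(ptIso (TG j)).symm⟩ (IsP_TG j)
  | @mul n V Y G H fV hG hA hH ih =>
    have h1 := IsP.mul fV hG hA ih
    have e : n + 1 + j = n + j + 1 := by ring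
    rw [e]
    exact IsP.iso ⟨(SimpleGraph.boxProdAssoc G H (TG j)).symm⟩ h1
  | iso e _ ih =>
    obtain ⟨e⟩ := e
    exact IsP.iso ⟨prodIso e (RelIso.refl _)⟩ ih

theorem IsP.rm {n : ℕ} {V : Type} {G : SimpleGraph V} (h : IsP n V G) : ∀ (j d : ℕ), d = n + j →
    ∃ P : V × TT j → Fin d → ℝ, mo (G □ TG j) P ≤ d * (d + 1) / 2 := by
  induction h with
  | pt =>
    intro j d hd
    rw [zero_add] at hd
    subst hd
    exact mo_iso (ptIso (TG d)).symm (R_TG d)
  | @mul n V Y G H fV hG hA hH ih =>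
    intro j d hd
    have := hH.fin
    have h1 := ih (j + 1) d (by omega)
    -- move the triangle to the front
    have e : (H □ TG (j + 1)) ≃g (K3 □ (H □ TG j)) :=
      ((SimpleGraph.boxProdAssoc H K3 (TG j)).symm.trans
        (prodIso (SimpleGraph.boxProdComm H K3) (RelIso.refl _))).trans
          (SimpleGraph.boxProdAssoc K3 H (TG j))
    have : Finite (Y × TT (j + 1)) := inferInstance
    have h2 := mo_iso e h1
    obtain ⟨f, hf⟩ := exists_contr G hG hA
    have h3 := (hH.mulTG j).sl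
    have e2 : n + j + 1 = d := by omega
    rw [e2] at h3
    have h4 := contr_R hf h2 h3
    exact mo_iso (SimpleGraph.boxProdAssoc G H (TG j)).symm h4
  | @iso n V V' G G' e hG ih =>
    intro j d hd
    obtain ⟨e⟩ := e
    have := hG.fin
    exact mo_iso (prodIso e (RelIso.refl _)) (ih j d hd)

theorem IsP.genRigid {n : ℕ} {V : Type} {G : SimpleGraph V} (h : IsP n V G) : GenRigid n G := by
  have := h.fin
  have := Fintype.ofFinite V
  obtain ⟨p, hp⟩ := exists_mg V n
  rw [genRigid_iff hp]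
  · have h1 := h.rm 0 n rfl
    have h2 := mo_iso ((SimpleGraph.boxProdComm G (TG 0)).trans (ptIso G)) h1
    obtain ⟨P, hP⟩ := h2
    exact (hp.min _ P).trans hP
  · rw [← Nat.card_eq_fintype_card]
    exact (Nat.lt_pow_self (by norm_num)).le.trans h.card

end Pool.Agent.T2h34.CP
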