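import Mathlib
import Pool.Agent.T2h34.CP.Asm

set_option autoImplicit false
set_option linter.unusedSectionVars false

/-! Generic rigidity and the dimension; the count of edges. -/

namespace Pool.Agent.T2h34.CP

open Matrix Pool.Agent.H283R2.DR Pool.Agent.H283R2.DR.TA Pool.Agent.H789R5

variable {V : Type} {d : ℕ}

theorem infRigid_of_gen {p : V → Fin d → ℝ} (hp : Gen p) {G : SimpleGraph V} (h : GenRigid d G) :
    InfRigid G p := by
  obtain ⟨p', hp'⟩ := h
  have h1 : RigidOn G Set.univ p' := by
    intro q hq
    obtain ⟨A, b, hA, hb⟩ := hp' q (fun u v huv => hq u trivial v trivial huv)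
    exact ⟨A, b, hA, fun v _ => hb v⟩
  have h2 := hp.rigid G Set.univ p' h1
  intro q hq
  obtain ⟨A, b, hA, hb⟩ := h2 q (fun u _ v _ huv => hq u v huv)
  exact ⟨A, b, hA, fun v => hb v trivial⟩

theorem gen_lin [Fintype V] {p : V → Fin d → ℝ} (hp : Gen p) (hc : Fintype.card V ≤ d + 1) (v : V) :
    LinearIndependent ℝ (fun w : {w : V // w ≠ v} => p w - p v) := by
  classical
  have e := Fintype.equivFin V
  have h1 := hp.pos (Fintype.card V) (fun i => e.symm i) hc e.symm.injective
  have h2 : AffineIndependent ℝ p := by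
    have h3 := h1.comp_embedding e.toEmbedding
    have e3 : (fun i => p (e.symm i)) ∘ e.toEmbedding = p := by
      funext x
      simp
    rwa [e3] at h3
  rw [affineIndependent_iff_linearIndependent_vsub ℝ _ v] at h2
  exact h2

/-- a rigid graph with at most `d + 1` vertices is complete -/
theorem complete_of_small [Fintype V] {G : SimpleGraph V} (h : GenRigid d G)
    (hc : Fintype.card V ≤ d + 1) {u v : V} (huv : u ≠ v) : G.Adj u v := by
  classical
  by_contra hn
  obtain ⟨p, hp⟩ := exists_gen V d
  have hr := infRigid_of_gen hp h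
  have hl := gen_lin hp hc v
  obtain ⟨g, hg⟩ := LinearMap.exists_extend ((Module.Basis.span hl).constr ℝ
    (fun w : {w : V // w ≠ v} => if w.1 = u then (1 : ℝ) else 0))
  have hgz : ∀ w : {w : V // w ≠ v}, g (p w - p v) = if w.1 = u then (1 : ℝ) else 0 := by
    intro z
    have h1 := LinearMap.congr_fun hg (Module.Basis.span hl z)
    rw [LinearMap.comp_apply, Module.Basis.constr_basis] at h1
    rw [← h1, Submodule.subtype_apply, Module.Basis.span_apply]
  set n : Fin d → ℝ := fun i => g (fun j => if i = j then 1 else 0) with hn'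
  have hnd : ∀ x : Fin d → ℝ, x ⬝ᵥ n = g x := by
    intro x
    rw [LinearMap.pi_apply_eq_sum_univ g]
    rfl
  have hq : IsMotion G p (Pi.single v n) := by
    intro a b hab
    by_cases ha : a = v
    · subst ha
      rw [Pi.single_eq_same, Pi.single_eq_of_ne hab.ne.symm, sub_zero, hnd]
      have h1 := hgz ⟨b, hab.ne.symm⟩
      have hbu : b ≠ u := by
        rintro rfl
        exact hn hab.symm
      simp only [hbu, if_false] at h1
      rw [← neg_sub, map_neg, h1, neg_zero]
    · by_cases hb : b = v
      · subst hb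
        rw [Pi.single_eq_same, Pi.single_eq_of_ne ha, zero_sub, dotProduct_neg, hnd]
        have h1 := hgz ⟨a, ha⟩
        have hau : a ≠ u := by
          rintro rfl
          exact hn hab
        simp only [hau, if_false] at h1
        rw [h1, neg_zero]
      · rw [Pi.single_eq_of_ne ha, Pi.single_eq_of_ne hb, sub_zero, dotProduct_zero]
  obtain ⟨A, b, hA, hb⟩ := hr _ hq
  have h1 := skew_dot_self hA (p u - p v)
  have h2 : A *ᵥ (p u - p v) = - n := by
    have a1 := hb u
    have a2 := hb v
    rw [Pi.single_eq_of_ne huv] at a1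
    rw [Pi.single_eq_same] at a2
    rw [mulVec_sub]
    have a3 : A *ᵥ p u = - b := by
      rw [eq_neg_iff_add_eq_zero]; exact a1.symm
    rw [a3, a2]
    abel
  rw [h2, dotProduct_neg, hnd, hgz ⟨u, huv⟩] at h1
  simp at h1

/-- rigidity in one dimension less -/
theorem mono_one [Fintype V] {G : SimpleGraph V} (h : GenRigid (d + 1) G)
    (hc : d + 2 ≤ Fintype.card V) : GenRigid d G := by
  classical
  obtain ⟨p, hp⟩ := exists_gen V (d + 1)
  have hr := infRigid_of_gen hp h
  refine ⟨fun v => vecTail (p v), ?_⟩
  intro u hu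
  obtain ⟨A, b, hA, hb⟩ := hr (fun v => vecCons 0 (u v)) (by
    intro x y hxy
    have := hu x y hxy
    rw [dot_split]
    simpa [tail_sub] using this)
  -- the first coordinate vanishes
  set a : Fin d → ℝ := fun k => A k.succ 0 with ha
  have h0 : ∀ v, b 0 - a ⬝ᵥ vecTail (p v) = 0 := by
    intro v
    have h1 := congrFun (hb v) 0
    rw [triv_head hA] at h1
    simpa using h1.symm
  -- the points span
  let a' : Fin (d + 1) → ℝ := vecCons 0 a
  have h0' : ∀ v, a' ⬝ᵥ p v = b 0 := by
    intro v
    have h1 := h0 v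
    rw [dot_split]
    simp only [a', cons_val_zero, zero_mul, zero_add, tail_cons]
    linarith
  have e := Fintype.equivFin V
  have hpos := hp.pos (d + 2) (fun i => e.symm (Fin.castLE hc i)) le_rfl
    (fun i j hij => Fin.castLE_injective hc (e.symm.injective hij))
  rw [affineIndependent_iff_linearIndependent_vsub ℝ _ (0 : Fin (d + 2))] at hpos
  have hspan := hpos.span_eq_top_of_card_eq_finrank' (by
    rw [Fintype.card_subtype_compl]; simp)
  have ha' : a' = 0 := by
    have h1 : ∀ z : Fin (d + 1) → ℝ, a' ⬝ᵥ z = 0 := by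
      intro z
      have hz : z ∈ Submodule.span ℝ (Set.range fun i : {x : Fin (d + 2) // x ≠ 0} =>
        (p (e.symm (Fin.castLE hc i)) -ᵥ p (e.symm (Fin.castLE hc 0)) : Fin (d + 1) → ℝ)) := by
        rw [hspan]; exact Submodule.mem_top
      induction hz using Submodule.span_induction with
      | mem w hw =>
        obtain ⟨i, rfl⟩ := hw
        simp only [vsub_eq_sub, dotProduct_sub, h0', sub_self]
      | zero => rw [dotProduct_zero]
      | add x y _ _ hx hy => rw [dotProduct_add, hx, hy, add_zero]
      | smul r x _ hx => rw [dotProduct_smul, hx, smul_zero]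
    exact dotProduct_self_eq_zero.1 (h1 a')
  have ha0 : a = 0 := congrArg vecTail ha'
  refine ⟨A.submatrix Fin.succ Fin.succ, vecTail b, skew_sub hA, ?_⟩
  intro v
  have h1 := congrArg vecTail (hb v)
  rw [triv_tail] at h1
  have h2 : (fun k : Fin d => A k.succ 0) = 0 := ha0
  rw [h2, smul_zero, add_zero] at h1
  exact h1

/-- rigidity in lower dimensions, for graphs that are not complete -/
theorem mono [Fintype V] {G : SimpleGraph V} {D : ℕ} (h : GenRigid D G) (hd : d ≤ D)
    (hn : ∃ u v, u ≠ v ∧ ¬ G.Adj u v) : GenRigid d G ∧ D + 2 ≤ Fintype.card V := by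
  obtain ⟨u, v, huv, hn⟩ := hn
  have hc : D + 2 ≤ Fintype.card V := by
    by_contra hlt
    exact hn (complete_of_small h (by omega) huv)
  refine ⟨?_, hc⟩
  clear hn
  induction D with
  | zero =>
    obtain rfl : d = 0 := by omega
    exact h
  | succ D ih =>
    rcases Nat.lt_or_ge D d with hlt | hge
    · obtain rfl : d = D + 1 := by omega
      exact h
    · exact ih (mono_one h (by omega)) hge (by omega)

theorem mo_bot [Fintype V] (p : V → Fin d → ℝ) : mo (⊥ : SimpleGraph V) p = d * Fintype.card V := by
  have h : Mot (⊥ : SimpleGraph V) p = ⊤ := by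
    rw [Submodule.eq_top_iff']
    intro q
    rw [mem_mot]
    intro u v huv
    exact absurd huv (by simp)
  unfold mo
  rw [h, finrank_top, finrank_all]

/-- the count of edges of a rigid graph -/
theorem edge_count [Fintype V] {G : SimpleGraph V} (h : GenRigid d G) (hc : d ≤ Fintype.card V) :
    d * Fintype.card V ≤ G.edgeSet.ncard + d * (d + 1) / 2 := by
  obtain ⟨p, hp⟩ := exists_mg V d
  have h1 := (genRigid_iff hp hc G).1 h
  have h2 := mo_le_add (G := ⊥) (G' := G) p
  rw [mo_bot] at h2
  simp only [SimpleGraph.edgeSet_bot, Set.sdiff_empty] at h2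
  omega

end Pool.Agent.T2h34.CP
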