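import Mathlib
import Pool.Agent.T2h34.CP.Mono

set_option autoImplicit false
set_option linter.unusedSectionVars false

/-! Cartesian products of families of connected graphs. -/

namespace Pool.Agent.T2h34.CP

open Matrix Pool.Agent.H283R2.DR Pool.Agent.H283R2.DR.TA Pool.Agent.H789R5

/-- The cartesian product of a family of graphs: two vertices are adjacent if they differ in
exactly one coordinate, and there their entries are adjacent. -/
def cart {ι : Type} {V : ι → Type} (G : ∀ i, SimpleGraph (V i)) : SimpleGraph (∀ i, V i) where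
  Adj x y := ∃ i, (G i).Adj (x i) (y i) ∧ ∀ j, j ≠ i → x j = y j
  symm := ⟨fun _ _ ⟨i, h, h'⟩ => ⟨i, h.symm, fun j hj => (h' j hj).symm⟩⟩
  loopless := ⟨fun _ ⟨_, h, _⟩ => h.ne rfl⟩

open Classical in
/-- The weight of a graph: 2 if it has a cycle, 1 if it is acyclic with at least two vertices, and
0 if it has at most one vertex. -/
noncomputable def wt {V : Type} (G : SimpleGraph V) : ℕ :=
  if ¬ G.IsAcyclic then 2 else if Nontrivial V then 1 else 0

/-! ### Merging factors -/

theorem nonacyclic_prod {V T : Type} {G : SimpleGraph V} {t : SimpleGraph T} (hG : G.Connected)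
    (ht : t.Connected) (nG : Nontrivial V) (nt : Nontrivial T) : ¬ (G □ t).IsAcyclic := by
  obtain ⟨a, _⟩ := exists_pair_ne V
  obtain ⟨b, _⟩ := exists_pair_ne T
  obtain ⟨a', ha⟩ := hG.preconnected.exists_adj_of_nontrivial a
  obtain ⟨b', hb⟩ := ht.preconnected.exists_adj_of_nontrivial b
  intro h
  have h0 : (G □ t).Adj (a, b) (a', b) := SimpleGraph.boxProd_adj.2 (Or.inl ⟨ha, rfl⟩)
  have h1 := (SimpleGraph.isAcyclic_iff_forall_adj_isBridge.1 h) h0
  rw [SimpleGraph.isBridge_iff] at h1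
  apply h1
  have hane : a ≠ a' := ha.ne
  have hbne : b ≠ b' := hb.ne
  have e1 : ((G □ t).deleteEdges {s((a, b), (a', b))}).Adj (a, b) (a, b') := by
    rw [SimpleGraph.deleteEdges_adj]
    refine ⟨SimpleGraph.boxProd_adj.2 (Or.inr ⟨hb, rfl⟩), ?_⟩
    simp [hane, hane.symm, hbne, hbne.symm]
  have e2 : ((G □ t).deleteEdges {s((a, b), (a', b))}).Adj (a, b') (a', b') := by
    rw [SimpleGraph.deleteEdges_adj]
    refine ⟨SimpleGraph.boxProd_adj.2 (Or.inl ⟨ha, rfl⟩), ?_⟩
    simp [hane, hane.symm, hbne, hbne.symm]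
  have e3 : ((G □ t).deleteEdges {s((a, b), (a', b))}).Adj (a', b') (a', b) := by
    rw [SimpleGraph.deleteEdges_adj]
    refine ⟨SimpleGraph.boxProd_adj.2 (Or.inr ⟨hb.symm, rfl⟩), ?_⟩
    simp [hane, hane.symm, hbne, hbne.symm]
  exact (e1.reachable.trans e2.reachable).trans e3.reachable

theorem nontrivial_of_nonacyclic {V : Type} {G : SimpleGraph V} (h : ¬ G.IsAcyclic) :
    Nontrivial V := by
  by_contra hn
  rw [not_nontrivial_iff_subsingleton] at hn
  apply h
  rw [SimpleGraph.isAcyclic_iff_forall_adj_isBridge]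
  intro v w hvw
  exact absurd (Subsingleton.elim v w) hvw.ne

theorem IsP.inv {n : ℕ} {V : Type} {G : SimpleGraph V} (h : IsP n V G) : ∀ m, n = m + 1 →
    ∃ (V' Y : Type) (G' : SimpleGraph V') (H : SimpleGraph Y), Finite V' ∧ G'.Connected ∧
      ¬ G'.IsAcyclic ∧ IsP m Y H ∧ Nonempty ((G' □ H) ≃g G) := by
  induction h with
  | pt => intro m hm; omega
  | @mul n V Y G H fV hG hA hH ih =>
    intro m hm
    obtain rfl : n = m := by omega
    exact ⟨V, Y, G, H, fV, hG, hA, hH, ⟨RelIso.refl _⟩⟩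
  | @iso n V V' G G' e hG ih =>
    intro m hm
    obtain ⟨W, Y, K, H, h1, h2, h3, h4, ⟨f⟩⟩ := ih m hm
    obtain ⟨e⟩ := e
    exact ⟨W, Y, K, H, h1, h2, h3, h4, ⟨f.trans e⟩⟩

theorem IsP.absorb {n : ℕ} {V T : Type} {G : SimpleGraph V} {t : SimpleGraph T}
    (h : IsP (n + 1) V G) (ft : Finite T) (ht : t.Connected) (nt : Nontrivial T) :
    IsP (n + 1) (T × V) (t □ G) := by
  obtain ⟨W, Y, K, H, h1, h2, h3, h4, ⟨f⟩⟩ := h.inv n rfl
  have h5 : IsP (n + 1) ((T × W) × Y) ((t □ K) □ H) :=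
    IsP.mul inferInstance (ht.boxProd h2)
      (nonacyclic_prod ht h2 nt (nontrivial_of_nonacyclic h3)) h4
  exact IsP.iso ⟨(SimpleGraph.boxProdAssoc t K H).trans (prodIso (RelIso.refl _) f)⟩ h5

theorem IsP.merge {n : ℕ} {V : Type} {G : SimpleGraph V} (h : IsP (n + 2) V G) :
    IsP (n + 1) V G := by
  obtain ⟨W, Y, K, H, h1, h2, h3, h4, ⟨f⟩⟩ := h.inv (n + 1) rfl
  exact IsP.iso ⟨f⟩ (h4.absorb h1 h2 (nontrivial_of_nonacyclic h3))

theorem IsP.le {n : ℕ} {V : Type} {G : SimpleGraph V} (h : IsP n V G) {d : ℕ} (hd : 1 ≤ d)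
    (hdn : d ≤ n) : IsP d V G := by
  induction n with
  | zero => omega
  | succ n ih =>
    rcases Nat.lt_or_ge n d with hlt | hge
    · obtain rfl : d = n + 1 := by omega
      exact h
    · rcases n with _ | n
      · omega
      · exact ih h.merge hge

theorem genRigid_zero {V : Type} (G : SimpleGraph V) : GenRigid 0 G :=
  ⟨0, fun _ _ => ⟨0, 0, Subsingleton.elim _ _, fun _ => Subsingleton.elim _ _⟩⟩

theorem IsP.rigid_le {n : ℕ} {V : Type} {G : SimpleGraph V} (h : IsP n V G) {d : ℕ}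
    (hdn : d ≤ n) : GenRigid d G := by
  rcases Nat.eq_zero_or_pos d with rfl | hd
  · exact genRigid_zero G
  · exact (h.le hd hdn).genRigid

/-! ### Weights -/

/-- the product has weight `w` -/
def Wt (w : ℕ) {V : Type} (G : SimpleGraph V) : Prop :=
  (∃ n, w = 2 * n ∧ IsP n V G) ∨
    ∃ (n : ℕ) (T Y : Type) (t : SimpleGraph T) (H : SimpleGraph Y), w = 2 * n + 1 ∧ Finite T ∧
      t.Connected ∧ Nontrivial T ∧ IsP n Y H ∧ Nonempty ((t □ H) ≃g G)

theorem Wt.iso {w : ℕ} {V V' : Type} {G : SimpleGraph V} {G' : SimpleGraph V'} (h : Wt w G)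
    (e : G ≃g G') : Wt w G' := by
  rcases h with ⟨n, hn, h⟩ | ⟨n, T, Y, t, H, hn, h1, h2, h3, h4, ⟨f⟩⟩
  · exact Or.inl ⟨n, hn, IsP.iso ⟨e⟩ h⟩
  · exact Or.inr ⟨n, T, Y, t, H, hn, h1, h2, h3, h4, ⟨f.trans e⟩⟩

/-- a graph with one vertex is a point -/
theorem pt_of_subsingleton {V : Type} {G : SimpleGraph V} (hG : G.Connected)
    (hV : ¬ Nontrivial V) : Nonempty (pt ≃g G) := by
  rw [not_nontrivial_iff_subsingleton] at hV
  obtain ⟨v⟩ := hG.nonempty
  refine ⟨{ toFun := fun _ => v, invFun := fun _ => (), left_inv := fun _ => rfl,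
            right_inv := fun _ => Subsingleton.elim _ _, map_rel_iff' := ?_ }⟩
  intro a b
  simp

theorem Wt.mul {w : ℕ} {V Y : Type} {G : SimpleGraph V} {X : SimpleGraph Y} (fV : Finite V)
    (hG : G.Connected) (h : Wt w X) : Wt (w + wt G) (G □ X) := by
  classical
  unfold wt
  by_cases hA : G.IsAcyclic
  · rw [if_neg (not_not.2 hA)]
    by_cases hV : Nontrivial V
    · rw [if_pos hV]
      rcases h with ⟨n, hn, h⟩ | ⟨n, T, Z, t, H, hn, h1, h2, h3, h4, ⟨f⟩⟩
      · exact Or.inr ⟨n, V, Y, G, X, by omega, fV, hG, hV, h, ⟨RelIso.refl _⟩⟩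
      · refine Or.inl ⟨n + 1, by omega, ?_⟩
        have h5 : IsP (n + 1) ((V × T) × Z) ((G □ t) □ H) :=
          IsP.mul inferInstance (hG.boxProd h2) (nonacyclic_prod hG h2 hV h3) h4
        exact IsP.iso ⟨(SimpleGraph.boxProdAssoc G t H).trans (prodIso (RelIso.refl _) f)⟩ h5
    · rw [if_neg hV, add_zero]
      obtain ⟨e⟩ := pt_of_subsingleton hG hV
      exact h.iso ((ptIso X).symm.trans (prodIso e (RelIso.refl _)))
  · rw [if_pos hA]
    rcases h with ⟨n, hn, h⟩ | ⟨n, T, Z, t, H, hn, h1, h2, h3, h4, ⟨f⟩⟩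
    · exact Or.inl ⟨n + 1, by omega, IsP.mul fV hG hA h⟩
    · refine Or.inr ⟨n + 1, T, V × Z, t, G □ H, by omega, h1, h2, h3, IsP.mul fV hG hA h4, ⟨?_⟩⟩
      exact (((SimpleGraph.boxProdAssoc t G H).symm.trans
        (prodIso (SimpleGraph.boxProdComm t G) (RelIso.refl _))).trans
        (SimpleGraph.boxProdAssoc G t H)).trans (prodIso (RelIso.refl _) f)

theorem Wt.rigid {w : ℕ} {V : Type} {G : SimpleGraph V} (h : Wt w G) {d : ℕ} (hd : 2 * d ≤ w) :
    GenRigid d G := by
  rcases h with ⟨n, hn, h⟩ | ⟨n, T, Y, t, H, hn, h1, h2, h3, h4, ⟨f⟩⟩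
  · exact h.rigid_le (by omega)
  · rcases n with _ | n
    · obtain rfl : d = 0 := by omega
      exact genRigid_zero G
    · exact genRigid_iso f ((h4.absorb h1 h2 h3).rigid_le (by omega))

/-! ### Families -/

/-- reindexing a product -/
def cartEquiv {α β : Type} (e : α ≃ β) {V : β → Type} (G : ∀ i, SimpleGraph (V i)) :
    cart (fun a => G (e a)) ≃g cart G where
  toEquiv := Equiv.piCongrLeft V e
  map_rel_iff' := by
    intro x y
    constructor
    · rintro ⟨i, h, h'⟩
      obtain ⟨a, rfl⟩ := e.surjective i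
      refine ⟨a, ?_, fun j hj => ?_⟩
      · rwa [Equiv.piCongrLeft_apply_apply, Equiv.piCongrLeft_apply_apply] at h
      · have := h' (e j) (fun hc => hj (e.injective hc))
        rwa [Equiv.piCongrLeft_apply_apply, Equiv.piCongrLeft_apply_apply] at this
    · rintro ⟨a, h, h'⟩
      refine ⟨e a, ?_, fun j hj => ?_⟩
      · rwa [Equiv.piCongrLeft_apply_apply, Equiv.piCongrLeft_apply_apply]
      · obtain ⟨b, rfl⟩ := e.surjective j
        rw [Equiv.piCongrLeft_apply_apply, Equiv.piCongrLeft_apply_apply]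
        exact h' b (fun hc => hj (congrArg e hc))

/-- splitting off a factor -/
def cartOption {α : Type} {V : Option α → Type} (G : ∀ i, SimpleGraph (V i)) :
    cart G ≃g (G none □ cart (fun a => G (some a))) where
  toEquiv := Equiv.piOptionEquivProd
  map_rel_iff' := by
    intro x y
    rw [SimpleGraph.boxProd_adj]
    constructor
    · rintro (⟨h, h'⟩ | ⟨⟨a, h, h'⟩, h''⟩)
      · refine ⟨none, h, ?_⟩
        rintro (_ | j) hj
        · exact absurd rfl hj
        · exact congrFun h' j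
      · refine ⟨some a, h, ?_⟩
        rintro (_ | j) hj
        · exact h''
        · exact h' j (fun hc => hj (congrArg some hc))
    · rintro ⟨i, h, h'⟩
      rcases i with _ | a
      · exact Or.inl ⟨h, funext fun j => h' (some j) (by simp)⟩
      · exact Or.inr ⟨⟨a, h, fun j hj => h' (some j) (by simpa using hj)⟩, h' none (by simp)⟩

theorem Wt_cart (ι : Type) [Finite ι] : ∀ (_ : Fintype ι) (V : ι → Type)
    (G : ∀ i, SimpleGraph (V i)), (∀ i, Finite (V i)) → (∀ i, (G i).Connected) →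
    Wt (∑ i, wt (G i)) (cart G) := by
  induction ι using Finite.induction_empty_option with
  | @of_equiv α β e ih =>
    intro fβ V G hf hc
    have fα : Fintype α := Fintype.ofEquiv β e.symm
    have h := ih fα (fun a => V (e a)) (fun a => G (e a)) (fun a => hf (e a)) (fun a => hc (e a))
    have hs : ∑ a, wt (G (e a)) = ∑ i, wt (G i) := Equiv.sum_comp e (fun i => wt (G i))
    rw [hs] at h
    exact h.iso (cartEquiv e G)
  | h_empty =>
    intro f V G _ _
    have hs : ∑ i, wt (G i) = 0 := by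
      apply Finset.sum_eq_zero
      intro i _
      exact i.elim
    rw [hs]
    have hc : (cart G).Connected := by
      have : Nonempty (∀ i : PEmpty, V i) := ⟨fun i => i.elim⟩
      refine ⟨fun x y => ?_⟩
      rw [show x = y from funext fun i => i.elim]
    obtain ⟨e⟩ := pt_of_subsingleton hc (by
      rw [not_nontrivial_iff_subsingleton]
      exact ⟨fun x y => funext fun i => i.elim⟩)
    exact Or.inl ⟨0, rfl, IsP.iso ⟨e⟩ IsP.pt⟩
  | @h_option α fα ih =>
    intro f V G hf hc
    have h := ih fα (fun a => V (some a)) (fun a => G (some a)) (fun a => hf _) (fun a => hc _)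
    have h1 := (h.mul (hf none) (hc none)).iso (cartOption G).symm
    have hs : ∑ i, wt (G i) = (∑ a, wt (G (some a))) + wt (G none) := by
      have hf' : f = instFintypeOption := Subsingleton.elim _ _
      subst hf'
      rw [Fintype.sum_option, add_comm]
    rw [hs]
    exact h1

/-- the product of a family of connected graphs is rigid in half the dimension of its weight -/
theorem family_rigid {ι : Type} [Fintype ι] {V : ι → Type} [∀ i, Finite (V i)]
    (G : ∀ i, SimpleGraph (V i)) (hc : ∀ i, (G i).Connected) {d : ℕ}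
    (hd : 2 * d ≤ ∑ i, wt (G i)) : GenRigid d (cart G) :=
  (Wt_cart ι inferInstance V G inferInstance hc).rigid hd

end Pool.Agent.T2h34.CP
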