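import Mathlib
import Pool.Agent.T2h34.CP.Fam

set_option autoImplicit false
set_option linter.unusedSectionVars false

/-! Products of cycles and edges. -/

namespace Pool.Agent.T2h34.CP

open Matrix Pool.Agent.H283R2.DR Pool.Agent.H283R2.DR.TA Pool.Agent.H789R5

/-- the neighbours in a product -/
theorem cart_degree {ι : Type} [Fintype ι] {V : ι → Type} [∀ i, Finite (V i)]
    (G : ∀ i, SimpleGraph (V i)) (x : ∀ i, V i) :
    ((cart G).neighborSet x).ncard = ∑ i, ((G i).neighborSet (x i)).ncard := by
  classical
  have h1 : ∀ i, ((G i).neighborSet (x i)).ncard = Nat.card ((G i).neighborSet (x i)) := fun i =>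
    (Nat.card_coe_set_eq _).symm
  rw [← Nat.card_coe_set_eq]
  simp only [h1]
  rw [← Nat.card_sigma]
  symm
  let F : (Σ i, (G i).neighborSet (x i)) → (cart G).neighborSet x := fun z =>
    ⟨Function.update x z.1 z.2.1, z.1, by
      rw [Function.update_self]; exact z.2.2, fun j hj => by rw [Function.update_of_ne hj]⟩
  refine Nat.card_congr (Equiv.ofBijective F ⟨?_, ?_⟩)
  · rintro ⟨i, a, ha⟩ ⟨j, b, hb⟩ hab
    have h2 : Function.update x i a = Function.update x j b := congrArg Subtype.val hab
    by_cases hij : i = j
    · subst hij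
      have h3 := congrFun h2 i
      rw [Function.update_self, Function.update_self] at h3
      subst h3
      rfl
    · have h3 := congrFun h2 i
      rw [Function.update_self, Function.update_of_ne hij] at h3
      have ha' : (G i).Adj (x i) a := ha
      rw [h3] at ha'
      exact absurd rfl ha'.ne
  · rintro ⟨y, i, h, h'⟩
    refine ⟨⟨i, y i, h⟩, ?_⟩
    apply Subtype.ext
    funext j
    change Function.update x i (y i) j = y j
    by_cases hj : j = i
    · subst hj
      rw [Function.update_self]
    · rw [Function.update_of_ne hj]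
      exact h' j hj

/-- the count of the edges of a regular graph -/
theorem edges_regular {V : Type} [Fintype V] (G : SimpleGraph V) (k : ℕ)
    (h : ∀ v, (G.neighborSet v).ncard = k) : 2 * G.edgeSet.ncard = Fintype.card V * k := by
  classical
  have h1 := G.sum_degrees_eq_twice_card_edges
  have h2 : ∀ v, G.degree v = k := by
    intro v
    rw [← h v, ← SimpleGraph.card_neighborSet_eq_degree, ← Nat.card_coe_set_eq,
      Nat.card_eq_fintype_card]
  simp only [h2, Finset.sum_const, Finset.card_univ, smul_eq_mul] at h1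
  rw [Set.ncard_eq_toFinset_card']
  exact h1.symm

theorem card_ge {V : Type} [Finite V] (G : SimpleGraph V) (k : ℕ) (v : V)
    (h : (G.neighborSet v).ncard = k) : k + 1 ≤ Nat.card V := by
  classical
  have := Fintype.ofFinite V
  have h1 : (insert v (G.neighborSet v)).ncard = k + 1 := by
    rw [Set.ncard_insert_of_notMem (by simp), h]
  rw [← h1, ← Set.ncard_univ]
  exact Set.ncard_le_ncard (Set.subset_univ _)

theorem wt_ge {V : Type} [Finite V] (G : SimpleGraph V) (hG : G.Connected) {k : ℕ}
    (hk : k = 1 ∨ k = 2) (h : ∀ v, (G.neighborSet v).ncard = k) : k ≤ wt G := by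
  classical
  have := Fintype.ofFinite V
  obtain ⟨v⟩ := hG.nonempty
  have h1 := card_ge G k v (h v)
  unfold wt
  by_cases hA : G.IsAcyclic
  · rw [if_neg (not_not.2 hA)]
    have hV : Nontrivial V := by
      rw [← Finite.one_lt_card_iff_nontrivial]
      omega
    rw [if_pos hV]
    rcases hk with rfl | rfl
    · exact le_rfl
    · exfalso
      have hT : G.IsTree := ⟨hG, hA⟩
      have h2 := hT.card_edgeFinset
      have h3 := edges_regular G 2 h
      rw [Set.ncard_eq_toFinset_card'] at h3
      have h4 : G.edgeSet.toFinset.card = G.edgeFinset.card := rfl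
      omega
  · rw [if_pos hA]
    omega

theorem three_pow_lt (c : ℕ) (hc : 2 ≤ c) : (c + 1) * (c + 2) < 2 * 3 ^ c := by
  induction c, hc using Nat.le_induction with
  | base => norm_num
  | succ c hc ih =>
    rw [pow_succ]
    nlinarith

theorem three_pow_lt' (c : ℕ) (hc : 2 ≤ c) : ((c + 1) * (c + 2)) ^ 2 < 9 ^ c * 3 := by
  induction c, hc using Nat.le_induction with
  | base => norm_num
  | succ c hc ih =>
    have h1 : (c + 1 + 1) * (c + 1 + 2) ≤ 3 * ((c + 1) * (c + 2)) := by nlinarith
    calc ((c + 1 + 1) * (c + 1 + 2)) ^ 2 ≤ (3 * ((c + 1) * (c + 2))) ^ 2 :=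
          Nat.pow_le_pow_left h1 2
      _ = 9 * ((c + 1) * (c + 2)) ^ 2 := by ring
      _ < 9 * (9 ^ c * 3) := by omega
      _ = 9 ^ (c + 1) * 3 := by ring

/-- products of cycles and single edges -/
theorem regular_iff {ι : Type} [Fintype ι] {V : ι → Type} [∀ i, Fintype (V i)]
    (G : ∀ i, SimpleGraph (V i)) (hc : ∀ i, (G i).Connected) (k : ι → ℕ)
    (hk : ∀ i, k i = 1 ∨ k i = 2) (hreg : ∀ i v, ((G i).neighborSet v).ncard = k i)
    (hι : 2 ≤ Fintype.card ι) (h6 : Nat.card (∀ i, V i) ≠ 6) (d : ℕ) :
    GenRigid d (cart G) ↔ 2 * d ≤ ∑ i, k i := by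
  classical
  constructor
  swap
  · intro hd
    refine family_rigid G hc (hd.trans ?_)
    exact Finset.sum_le_sum fun i _ => wt_ge (G i) (hc i) (hk i) (hreg i)
  intro hr
  by_contra hlt
  rw [not_le] at hlt
  set K := ∑ i, k i with hK
  set N := Nat.card (∀ i, V i) with hN
  have hx : ∀ i, Nonempty (V i) := fun i => (hc i).nonempty
  -- the number of vertices
  have hNprod : N = ∏ i, Nat.card (V i) := by
    rw [hN, Nat.card_pi]
  have hcard : ∀ i, k i + 1 ≤ Nat.card (V i) := by
    intro i
    obtain ⟨v⟩ := hx i
    exact card_ge (G i) (k i) v (hreg i v)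
  have hN2 : 3 ^ K ≤ N ^ 2 := by
    rw [hNprod, hK, ← Finset.prod_pow_eq_pow_sum, ← Finset.prod_pow]
    apply Finset.prod_le_prod (fun i _ => Nat.zero_le _)
    intro i _
    have h1 := hcard i
    rcases hk i with h | h <;> rw [h] at h1 ⊢ <;> nlinarith
  have hN4 : 4 ≤ N := by
    rw [hNprod]
    calc 4 = 2 ^ 2 := by norm_num
      _ ≤ 2 ^ Fintype.card ι := Nat.pow_le_pow_right (by norm_num) hι
      _ = ∏ _i : ι, 2 := by rw [Finset.prod_const, Finset.card_univ]
      _ ≤ ∏ i, Nat.card (V i) := by
        apply Finset.prod_le_prod (fun i _ => Nat.zero_le _)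
        intro i _
        have h1 := hcard i
        rcases hk i with h | h <;> rw [h] at h1 <;> omega
  have hK2 : 2 ≤ K := by
    calc 2 ≤ Fintype.card ι := hι
      _ = ∑ _i : ι, 1 := by simp
      _ ≤ K := by
        apply Finset.sum_le_sum
        intro i _
        rcases hk i with h | h <;> omega
  -- two vertices which are not adjacent
  have hna : ∃ u v, u ≠ v ∧ ¬ (cart G).Adj u v := by
    obtain ⟨i, j, hij⟩ := Fintype.exists_pair_of_one_lt_card (show 1 < Fintype.card ι by omega)
    have x : ∀ i, V i := fun i => (hx i).some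
    have hn : ∀ i, ∃ z : V i, z ≠ x i := by
      intro i
      have h1 := hcard i
      have : Nontrivial (V i) := by
        rw [← Finite.one_lt_card_iff_nontrivial]
        rcases hk i with h | h <;> omega
      exact exists_ne _
    choose z hz using hn
    refine ⟨x, Function.update (Function.update x i (z i)) j (z j), ?_, ?_⟩
    · intro h
      have := congrFun h j
      rw [Function.update_self] at this
      exact hz j this.symm
    · rintro ⟨l, hl, hl'⟩
      have ei : Function.update (Function.update x i (z i)) j (z j) i = z i := by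
        rw [Function.update_of_ne hij, Function.update_self]
      by_cases h : l = i
      · subst h
        have := hl' j hij.symm
        rw [Function.update_self] at this
        exact hz j this.symm
      · have := hl' i (fun h' => h h'.symm)
        rw [ei] at this
        exact hz i this.symm
  set c := K / 2 with hcdef
  have hle : c + 1 ≤ d := by omega
  obtain ⟨hr', hcd⟩ := mono hr hle hna
  have hNcard : Fintype.card (∀ i, V i) = N := by rw [hN, Nat.card_eq_fintype_card]
  have h7 := edge_count hr' (by omega)
  have h8 := edges_regular (cart G) K (fun x => by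
    rw [cart_degree]
    exact Finset.sum_congr rfl fun i _ => hreg i (x i))
  rw [hNcard] at h7 h8
  have h9 : 2 * ((c + 1) * (c + 1 + 1) / 2) ≤ (c + 1) * (c + 2) := Nat.mul_div_le _ _
  have h10 : 2 * ((c + 1) * N) ≤ N * K + (c + 1) * (c + 2) := by
    calc 2 * ((c + 1) * N) ≤ 2 * ((cart G).edgeSet.ncard + (c + 1) * (c + 1 + 1) / 2) :=
          Nat.mul_le_mul_left 2 h7
      _ = 2 * (cart G).edgeSet.ncard + 2 * ((c + 1) * (c + 1 + 1) / 2) := by ring
      _ ≤ N * K + (c + 1) * (c + 2) := by rw [h8]; exact Nat.add_le_add_left h9 _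
  rcases Nat.even_or_odd' K with ⟨e, he | he⟩
  · -- even degree
    have hce : c = e := by omega
    rw [hce, he] at h10
    have h11 : 2 * N ≤ (e + 1) * (e + 2) := by nlinarith
    rcases Nat.lt_or_ge e 2 with h | h
    · have : e = 1 := by omega
      subst this
      omega
    · have h12 := three_pow_lt e h
      rw [he, pow_mul] at hN2
      have h13 : 3 ^ e ≤ N := by
        have : (3 ^ e) ^ 2 ≤ N ^ 2 := by
          rw [← pow_mul, mul_comm e 2, pow_mul]
          exact hN2
        exact (Nat.pow_le_pow_iff_left (by norm_num)).1 this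
      omega
  · -- odd degree
    have hce : c = e := by omega
    rw [hce, he] at h10
    have h11 : N ≤ (e + 1) * (e + 2) := by nlinarith
    rcases Nat.lt_or_ge e 2 with h | h
    · have : e = 1 := by omega
      subst this
      rw [he] at hN2
      have h12 : N ≤ 6 := h11
      have h13 : N < 6 := lt_of_le_of_ne h12 h6
      interval_cases N <;> omega
    · have h12 := three_pow_lt' e h
      rw [he, pow_succ, pow_mul] at hN2
      have h13 : N ^ 2 ≤ ((e + 1) * (e + 2)) ^ 2 := Nat.pow_le_pow_left h11 2
      have h14 : (3 ^ 2 : ℕ) ^ e * 3 = 9 ^ e * 3 := by norm_num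
      omega

end Pool.Agent.T2h34.CP
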