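import Mathlib
import Pool.Agent.T2h34.CP.Mono

set_option autoImplicit false
set_option linter.unusedSectionVars false

/-! Products with a graph which is rigid in the plane: the reduced system. -/

namespace Pool.Agent.T2h34.CP

open Matrix Pool.Agent.H283R2.DR Pool.Agent.H283R2.DR.TA Pool.Agent.H789R5

variable {Y : Type} {m : ℕ} {H : SimpleGraph Y}

theorem ker_Th_le_of [Finite Y] [DecidableEq Y] (P1 P2 : Y → Fin (m + 2) → ℝ)
    (q0 : Y → Fin (m + 1) → ℝ)
    (r1 : InfRigid H (qt P1)) (r2 : InfRigid H (qt P2))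
    (hG : ∀ y : Fin (m + 2) → Y, Function.Injective y →
      ∀ x, cg 1 y (qt P1, qt P2) x = 0 → x = 0)
    (hD : ∀ y, q0 y 0 * (qt P2 y 0 - qt P1 y 0) + qt P1 y 0 ≠ 0)
    (hmax : ∀ q0', Module.finrank ℝ (LinearMap.ker ((Th P1 P2 q0).domRestrict (WW H P1 P2))) ≤
      Module.finrank ℝ (LinearMap.ker ((Th P1 P2 q0').domRestrict (WW H P1 P2))))
    (y : Fin (m + 2) → Y) (hyi : Function.Injective y)
    (hyR : ∀ i, (Pi.single (y i) 1 : Y → ℝ) ∉ (WW H P1 P2).map (Th P1 P2 q0)) :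
    Module.finrank ℝ (WW H P1 P2 ⊓ LinearMap.ker (Th P1 P2 q0) : Submodule ℝ (ET Y m)) ≤
      (m + 2) + (mo H (qt P1) + mo H (qt P2)) := by
  have := Fintype.ofFinite Y
  have hcoef : ∀ κ ∈ WW H P1 P2 ⊓ LinearMap.ker (Th P1 P2 q0), ∀ i,
      qt P2 (y i) 0 • vecTail (κ.1.1 (y i)) = qt P1 (y i) 0 • vecTail (κ.1.2 (y i)) := by
    intro κ hκ i
    have hval : ∀ ξ : Fin m → ℝ, ξ ⬝ᵥ (qt P2 (y i) 0 • vecTail (κ.1.1 (y i)) -
        qt P1 (y i) 0 • vecTail (κ.1.2 (y i))) = 0 := by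
      intro ξ
      set δ : Y → Fin (m + 1) → ℝ := Pi.single (y i) (vecCons 0 ξ) with hδ
      have hd := deriv_mem ((Th P1 P2 q0).domRestrict (WW H P1 P2))
        ((Th P1 P2 (q0 + δ) - Th P1 P2 q0).domRestrict (WW H P1 P2)) (by
          intro s
          have e1 := Th_aff P1 P2 q0 (q0 + δ) s
          rw [add_sub_cancel_left] at e1
          have e2 : (Th P1 P2 q0).domRestrict (WW H P1 P2) +
              s • (Th P1 P2 (q0 + δ) - Th P1 P2 q0).domRestrict (WW H P1 P2) =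
              (Th P1 P2 (q0 + s • δ)).domRestrict (WW H P1 P2) := by
            rw [e1]
            rfl
          rw [e2]
          exact hmax _) ⟨κ, hκ.1⟩ (by
            rw [LinearMap.mem_ker, LinearMap.domRestrict_apply]
            exact hκ.2)
      rw [LinearMap.domRestrict_apply, hδ, Th_deriv] at hd
      obtain ⟨⟨κ', hκ'⟩, he⟩ := hd
      by_contra hne
      apply hyR i
      refine ⟨(ξ ⬝ᵥ (qt P2 (y i) 0 • vecTail (κ.1.1 (y i)) -
        qt P1 (y i) 0 • vecTail (κ.1.2 (y i))))⁻¹ • κ', Submodule.smul_mem _ _ hκ', ?_⟩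
      rw [map_smul]
      rw [LinearMap.domRestrict_apply] at he
      rw [he, ← Pi.single_smul', smul_eq_mul, inv_mul_cancel₀ hne]
    have := hval (qt P2 (y i) 0 • vecTail (κ.1.1 (y i)) - qt P1 (y i) 0 • vecTail (κ.1.2 (y i)))
    rw [dotProduct_self_eq_zero] at this
    exact sub_eq_zero.1 this
  have hv : (WW H P1 P2 ⊓ LinearMap.ker (Th P1 P2 q0)).map
      (LinearMap.fst ℝ ((Y → Fin (m + 1) → ℝ) × (Y → Fin (m + 1) → ℝ))
        ((Y → Fin (m + 2) → ℝ) × (Y → Fin (m + 2) → ℝ))) ≤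
      LinearMap.range (Ps (qt P1) (qt P2)) := by
    rintro _ ⟨κ, hκ, rfl⟩
    have hc := hcoef κ hκ
    obtain ⟨⟨⟨n1, n2⟩, _⟩, _⟩ := (mem_WW P1 P2 κ).1 hκ.1
    obtain ⟨A1, b1, hA1, hv1⟩ := r1 _ n1
    obtain ⟨A2, b2, hA2, hv2⟩ := r2 _ n2
    have hx := hG y hyi ((⟨A1.submatrix Fin.succ Fin.succ, skew_sub hA1⟩,
      ⟨A2.submatrix Fin.succ Fin.succ, skew_sub hA2⟩), vecTail b1, vecTail b2,
      (fun k : Fin m => A1 k.succ 0) - (fun k : Fin m => A2 k.succ 0)) (by
        funext i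
        have h6 := hc i
        rw [hv1, hv2, triv_tail, triv_tail] at h6
        simp only [cg, LinearMap.coe_mk, AddHom.coe_mk, one_smul, Pi.zero_apply]
        funext k
        have h7 := congrFun h6 k
        simp only [Pi.add_apply, Pi.smul_apply, Pi.sub_apply, smul_eq_mul, Pi.zero_apply] at h7 ⊢
        linarith)
    have z1 : A1.submatrix Fin.succ (Fin.succ : Fin m → Fin (m + 1)) = 0 :=
      congrArg (fun x : PM m => (x.1.1 : Matrix (Fin m) (Fin m) ℝ)) hx
    have z2 : A2.submatrix Fin.succ (Fin.succ : Fin m → Fin (m + 1)) = 0 :=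
      congrArg (fun x : PM m => (x.1.2 : Matrix (Fin m) (Fin m) ℝ)) hx
    have z3 : vecTail b1 = 0 := congrArg (fun x : PM m => x.2.1) hx
    have z4 : vecTail b2 = 0 := congrArg (fun x : PM m => x.2.2.1) hx
    have z5 : (fun k : Fin m => A1 k.succ 0) = (fun k : Fin m => A2 k.succ 0) :=
      sub_eq_zero.1 (congrArg (fun x : PM m => x.2.2.2) hx)
    refine ⟨(fun k : Fin m => A1 k.succ 0, b1 0, b2 0), ?_⟩
    refine Prod.ext ?_ ?_
    · funext z
      refine vec_ext ?_ ?_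
      · change _ = κ.1.1 z 0
        rw [hv1, triv_head hA1]
        rfl
      · change _ = vecTail (κ.1.1 z)
        rw [hv1, triv_tail, z1, z3, zero_mulVec, zero_add, zero_add]
        rfl
    · funext z
      refine vec_ext ?_ ?_
      · change _ = κ.1.2 z 0
        rw [hv2, triv_head hA2, ← z5]
        rfl
      · change _ = vecTail (κ.1.2 z)
        rw [hv2, triv_tail, z2, z4, zero_mulVec, zero_add, zero_add, ← z5]
        rfl
  exact dim_le_add (L := WW H P1 P2 ⊓ LinearMap.ker (Th P1 P2 q0))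
    (LinearMap.fst ℝ ((Y → Fin (m + 1) → ℝ) × (Y → Fin (m + 1) → ℝ))
        ((Y → Fin (m + 2) → ℝ) × (Y → Fin (m + 2) → ℝ))) (a := m + 2)
    ((Submodule.finrank_mono hv).trans ((LinearMap.finrank_range_le _).trans (by simp)))
    (dim_zero_part P1 P2 q0 hD)

/-- affine functions are in the range of the reduced system if the second layer is not perturbed -/
theorem aff_mem_R (P1 P2 : Y → Fin (m + 2) → ℝ) (h2 : ∀ y, P2 y 0 = 0)
    (q0 : Y → Fin (m + 1) → ℝ) (a : Fin (m + 1) → ℝ) (b : ℝ) :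
    (fun y => (q0 y 0 * (qt P2 y 0 - qt P1 y 0) + qt P1 y 0) * (a ⬝ᵥ qt P1 y + b)) ∈
      (WW H P1 P2).map (Th P1 P2 q0) := by
  let κ : ET Y m := ((0, 0), (fun y => vecCons (a ⬝ᵥ qt P1 y + b) (-(P1 y 0) • a),
    fun y => vecCons (a ⬝ᵥ qt P1 y + b) 0))
  refine ⟨κ, ?_, ?_⟩
  · change κ ∈ WW H P1 P2
    rw [mem_WW]
    refine ⟨⟨⟨?_, ?_⟩, ?_, ?_⟩, ?_⟩
    · intro y y' _
      change _ ⬝ᵥ ((0 : Fin (m + 1) → ℝ) - 0) = 0
      rw [sub_zero, dotProduct_zero]
    · intro y y' _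
      change _ ⬝ᵥ ((0 : Fin (m + 1) → ℝ) - 0) = 0
      rw [sub_zero, dotProduct_zero]
    · intro y y' _
      change (P1 y - P1 y') ⬝ᵥ (vecCons (a ⬝ᵥ qt P1 y + b) (-(P1 y 0) • a) -
        vecCons (a ⬝ᵥ qt P1 y' + b) (-(P1 y' 0) • a)) = 0
      rw [dot_split]
      have e1 : vecTail (P1 y - P1 y') = qt P1 y - qt P1 y' := rfl
      simp only [tail_sub, Pi.sub_apply, cons_val_zero, tail_cons]
      have e2 : vecTail (P1 y) - vecTail (P1 y') = qt P1 y - qt P1 y' := rfl
      rw [e2, ← sub_smul, dotProduct_smul, dotProduct_comm _ a, dotProduct_sub, smul_eq_mul]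
      ring
    · intro y y' _
      change (P2 y - P2 y') ⬝ᵥ (vecCons (a ⬝ᵥ qt P1 y + b) 0 -
        vecCons (a ⬝ᵥ qt P1 y' + b) 0) = 0
      rw [dot_split]
      simp only [tail_sub, Pi.sub_apply, cons_val_zero, tail_cons, h2, sub_self, zero_mul,
        dotProduct_zero, add_zero]
    · intro y
      change (a ⬝ᵥ qt P1 y + b) - (a ⬝ᵥ qt P1 y + b) + (qt P2 y - qt P1 y) ⬝ᵥ
        ((0 : Fin (m + 1) → ℝ) - 0) = 0
      rw [sub_self, sub_zero, dotProduct_zero, add_zero]
  · funext y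
    change qt P2 y 0 * ((vecTail (q0 y) - vecTail (qt P1 y)) ⬝ᵥ (0 : Fin m → ℝ) -
      qt P1 y 0 * (0 : ℝ) + q0 y 0 * (a ⬝ᵥ qt P1 y + b)) -
      qt P1 y 0 * ((vecTail (q0 y) - vecTail (qt P2 y)) ⬝ᵥ (0 : Fin m → ℝ) -
      qt P2 y 0 * (0 : ℝ) + (q0 y 0 - 1) * (a ⬝ᵥ qt P1 y + b)) = _
    rw [dotProduct_zero, dotProduct_zero]
    ring

/-- affine interpolation at points in general position -/
theorem interp {d : ℕ} {q : Y → Fin d → ℝ}
    (hq : ∀ (n : ℕ) (x : Fin n → Y), n ≤ d + 1 → Function.Injective x →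
      AffineIndependent ℝ (fun i => q (x i))) (S : Finset Y) (hS : S.card ≤ d + 1) (y0 : Y)
    (hy0 : y0 ∈ S) : ∃ (a : Fin d → ℝ) (b : ℝ), a ⬝ᵥ q y0 + b = 1 ∧
      ∀ y ∈ S, y ≠ y0 → a ⬝ᵥ q y + b = 0 := by
  classical
  have h1 := hq S.card (fun i => (S.equivFin.symm i : Y)) hS
    (fun i j hij => S.equivFin.symm.injective (Subtype.ext hij))
  rw [affineIndependent_iff_linearIndependent_vsub ℝ _ (S.equivFin ⟨y0, hy0⟩)] at h1
  obtain ⟨g, hg⟩ := LinearMap.exists_extend ((Module.Basis.span h1).constr ℝ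
    (fun _ : {i : Fin S.card // i ≠ S.equivFin ⟨y0, hy0⟩} => (1 : ℝ)))
  have hgz : ∀ i : {i : Fin S.card // i ≠ S.equivFin ⟨y0, hy0⟩},
      g (q (S.equivFin.symm i) - q y0) = 1 := by
    intro z
    have h2 := LinearMap.congr_fun hg (Module.Basis.span h1 z)
    rw [LinearMap.comp_apply, Module.Basis.constr_basis] at h2
    rw [← h2, Submodule.subtype_apply, Module.Basis.span_apply]
    simp
  set a : Fin d → ℝ := fun i => g (fun j => if i = j then 1 else 0) with ha
  have hnd : ∀ x : Fin d → ℝ, a ⬝ᵥ x = g x := by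
    intro x
    rw [dotProduct_comm, LinearMap.pi_apply_eq_sum_univ g]
    rfl
  refine ⟨-a, 1 + g (q y0), ?_, ?_⟩
  · rw [neg_dotProduct, hnd]; ring
  · intro y hy hne
    have h2 := hgz ⟨S.equivFin ⟨y, hy⟩, by
      intro h
      have := S.equivFin.injective h
      exact hne (congrArg Subtype.val this)⟩
    simp only [Equiv.symm_apply_apply, map_sub] at h2
    rw [neg_dotProduct, hnd]
    linarith

/-- the reduced system, if the second layer is not perturbed -/
theorem ker_Th_le3 [Finite Y] (P1 P2 : Y → Fin (m + 2) → ℝ) (h2 : ∀ y, P2 y 0 = 0)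
    (q0 : Y → Fin (m + 1) → ℝ)
    (hQ : Module.finrank ℝ (LinearMap.ker (qm H 0 (P1, P2))) ≤ Nat.card Y + (m + 2))
    (r1 : InfRigid H (qt P1)) (r2 : InfRigid H (qt P2))
    (hpos : ∀ (n : ℕ) (x : Fin n → Y), n ≤ m + 1 + 1 → Function.Injective x →
      AffineIndependent ℝ (fun i => qt P1 (x i)))
    (hG : ∀ y : Fin (m + 2) → Y, Function.Injective y →
      ∀ x, cg 1 y (qt P1, qt P2) x = 0 → x = 0)
    (hD : ∀ y, q0 y 0 * (qt P2 y 0 - qt P1 y 0) + qt P1 y 0 ≠ 0)
    (hmax : ∀ q0', Module.finrank ℝ (LinearMap.ker ((Th P1 P2 q0).domRestrict (WW H P1 P2))) ≤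
      Module.finrank ℝ (LinearMap.ker ((Th P1 P2 q0').domRestrict (WW H P1 P2)))) :
    Module.finrank ℝ (WW H P1 P2 ⊓ LinearMap.ker (Th P1 P2 q0) : Submodule ℝ (ET Y m)) ≤
      (m + 2) + (mo H (qt P1) + mo H (qt P2)) := by
  classical
  have := Fintype.ofFinite Y
  by_contra hlt
  rw [not_le] at hlt
  have h1 := dim_split (WW H P1 P2) (Th P1 P2 q0)
  have h2' := dim_WW (H := H) P1 P2
  set R := (WW H P1 P2).map (Th P1 P2 q0) with hR
  have h3 : Module.finrank ℝ R < Nat.card Y := by omega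
  set T : Finset Y := Finset.univ.filter (fun y => (Pi.single y 1 : Y → ℝ) ∉ R) with hT
  -- more than `m + 2` points
  have h4 : m + 2 < T.card := by
    by_contra hcard
    rw [not_lt] at hcard
    have hall : ∀ y, (Pi.single y 1 : Y → ℝ) ∈ R := by
      intro y0
      by_contra hy0
      have hy0T : y0 ∈ T := by
        rw [hT, Finset.mem_filter]
        exact ⟨Finset.mem_univ _, hy0⟩
      obtain ⟨a, b, hab, hab'⟩ := interp hpos T hcard y0 hy0T
      have hm := aff_mem_R (H := H) P1 P2 h2 q0 a b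
      rw [← hR] at hm
      set D : Y → ℝ := fun y => q0 y 0 * (qt P2 y 0 - qt P1 y 0) + qt P1 y 0 with hDdef
      have hsum : (fun y => D y * (a ⬝ᵥ qt P1 y + b)) =
          ∑ y, (D y * (a ⬝ᵥ qt P1 y + b)) • (Pi.single y 1 : Y → ℝ) := by
        funext z
        rw [Finset.sum_apply, Finset.sum_eq_single z]
        · simp
        · intro y _ hy
          simp [Pi.single_eq_of_ne hy.symm]
        · intro h
          exact absurd (Finset.mem_univ _) h
      have hm' : (∑ y, (D y * (a ⬝ᵥ qt P1 y + b)) • (Pi.single y 1 : Y → ℝ)) ∈ R := by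
        rw [← hsum]; exact hm
      rw [← Finset.add_sum_erase _ _ (Finset.mem_univ y0)] at hm'
      have hrest : ∑ y ∈ Finset.univ.erase y0, (D y * (a ⬝ᵥ qt P1 y + b)) •
          (Pi.single y 1 : Y → ℝ) ∈ R := by
        apply Submodule.sum_mem
        intro y hy
        by_cases hyT : y ∈ T
        · rw [hab' y hyT (Finset.ne_of_mem_erase hy), mul_zero, zero_smul]
          exact R.zero_mem
        · apply Submodule.smul_mem
          by_contra hc
          exact hyT (by rw [hT, Finset.mem_filter]; exact ⟨Finset.mem_univ _, hc⟩)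
      have h5 := (Submodule.add_mem_iff_left R hrest).1 hm'
      rw [hab, mul_one] at h5
      exact hy0 ((R.smul_mem_iff (hD y0)).1 h5)
    have h6 := card_single_le R
    have h7 : Fintype.card {y : Y // (Pi.single y 1 : Y → ℝ) ∈ R} = Nat.card Y := by
      rw [Nat.card_eq_fintype_card, Fintype.card_subtype, Finset.filter_true_of_mem]
      · rfl
      · intro y _
        exact hall y
    omega
  have h5 : Fintype.card (Fin (m + 2)) ≤
      Fintype.card {y : Y // ¬ (Pi.single y 1 : Y → ℝ) ∈ R} := by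
    rw [Fintype.card_fin, Fintype.card_subtype]
    exact h4.le
  obtain ⟨e⟩ := Function.Embedding.nonempty_of_card_le h5
  have h6 := ker_Th_le_of P1 P2 q0 r1 r2 hG hD hmax (fun i => (e i).1)
    (Subtype.val_injective.comp e.injective) (fun i => (e i).2)
  omega

end Pool.Agent.T2h34.CP
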