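import Mathlib
import Pool.Agent.T2h34.CP.R3

set_option autoImplicit false
set_option linter.unusedSectionVars false

/-! The system of the sliders: a dichotomy. -/

namespace Pool.Agent.T2h34.CP

open Matrix Pool.Agent.H283R2.DR Pool.Agent.H283R2.DR.TA Pool.Agent.H789R5

variable {Y : Type} {m : ℕ} {H : SimpleGraph Y}

/-- general position -/
def Pos {d : ℕ} (q : Y → Fin d → ℝ) : Prop :=
  ∀ (n : ℕ) (x : Fin n → Y), n ≤ d + 1 → Function.Injective x →
      AffineIndependent ℝ (fun i => q (x i))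

theorem pos_good (Y : Type) [Finite Y] (d : ℕ) : Good (fun q : Y → Fin d → ℝ => Pos q) := by
  have h : Good (fun q : Y → Fin d → ℝ => ∀ a : (Σ n : Fin (d + 2), (Fin n → Y)),
      Function.Injective a.2 → AffineIndependent ℝ (fun i => q (a.2 i))) :=
    good_forall fun a => good_imp fun _ => affine_good a.2
  refine good_congr h ?_
  intro q
  constructor
  · intro h n x hn hx
    exact h ⟨⟨n, by omega⟩, x⟩ hx
  · intro h a ha
    exact h a.1 a.2 (by have := a.1.2; omega) ha

theorem pos_exists (Y : Type) [Finite Y] (d : ℕ) : ∃ q : Y → Fin d → ℝ, Pos q := by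
  obtain ⟨p, hp⟩ := exists_gen Y d
  exact ⟨p, hp.pos⟩

/-- a trivial motion vanishing at `d` points in general position is zero -/
theorem triv_zero {d : ℕ} {q : Y → Fin d → ℝ} (hq : Pos q) {S : Finset Y} (hS : d ≤ S.card)
    {A : Matrix (Fin d) (Fin d) ℝ} {b : Fin d → ℝ} (hA : Aᵀ = -A)
    (h : ∀ v ∈ S, A *ᵥ q v + b = 0) : A = 0 ∧ b = 0 := by
  classical
  rcases Nat.eq_zero_or_pos d with hd | hd
  · subst hd
    exact ⟨Subsingleton.elim _ _, Subsingleton.elim _ _⟩
  · obtain ⟨T, hTS, hTc⟩ := Finset.exists_subset_card_eq hS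
    let x : Fin d → Y := fun i => (T.equivFin.symm (Fin.cast hTc.symm i) : Y)
    have hx : Function.Injective x := by
      intro i j hij
      have h1 := Subtype.ext hij
      have h2 := T.equivFin.symm.injective h1
      exact Fin.cast_injective _ h2
    have hxS : ∀ i, x i ∈ S := fun i => hTS (T.equivFin.symm (Fin.cast hTc.symm i)).2
    have hai := hq d x (Nat.le_succ d) hx
    let i0 : Fin d := ⟨0, hd⟩
    rw [affineIndependent_iff_linearIndependent_vsub ℝ _ i0] at hai
    have h0 : ∀ v ∈ S, A *ᵥ q v = - b := by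
      intro v hv
      rw [eq_neg_iff_add_eq_zero]
      exact h v hv
    have hAA : A = 0 := by
      refine skew_zero hA (Submodule.span ℝ (Set.range fun i : {i // i ≠ i0} =>
        (q (x i) -ᵥ q (x i0) : Fin d → ℝ))) ?_ ?_
      · rw [finrank_span_eq_card hai]
        simp [Fintype.card_subtype_compl]
        omega
      · intro w hw
        induction hw using Submodule.span_induction with
        | mem w hw =>
          obtain ⟨i, rfl⟩ := hw
          simp only [vsub_eq_sub, Matrix.mulVec_sub]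
          rw [h0 _ (hxS _), h0 _ (hxS _), sub_self]
        | zero => simp
        | add a b _ _ ha hb => rw [Matrix.mulVec_add, ha, hb, add_zero]
        | smul r a _ ha => rw [Matrix.mulVec_smul, ha, smul_zero]
    refine ⟨hAA, ?_⟩
    have h2 := h (x i0) (hxS i0)
    rwa [hAA, zero_mulVec, zero_add] at h2

/-- the system of the sliders -/
def Ts (σ : Y → Fin (m + 1) → ℝ) :
    ((Y → Fin (m + 1) → ℝ) × (Y → Fin (m + 2) → ℝ)) →ₗ[ℝ] (Y → ℝ) where
  toFun κ y := σ y ⬝ᵥ κ.1 y - κ.2 y 0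
  map_add' κ κ' := by
    funext y
    simp only [Prod.fst_add, Prod.snd_add, Pi.add_apply, dotProduct_add]
    ring
  map_smul' c κ := by
    funext y
    simp only [Prod.smul_fst, Prod.smul_snd, Pi.smul_apply, dotProduct_smul, smul_eq_mul,
      RingHom.id_apply]
    ring

theorem Ts_aff : Aff (Ts (Y := Y) (m := m)) := by
  intro a b s
  refine LinearMap.ext fun κ => funext fun y => ?_
  simp only [Ts, LinearMap.coe_mk, AddHom.coe_mk, LinearMap.add_apply, LinearMap.smul_apply,
    LinearMap.sub_apply, Pi.add_apply, Pi.smul_apply, Pi.sub_apply, smul_eq_mul,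
    sub_dotProduct, add_dotProduct, smul_dotProduct]
  ring

theorem Ts_deriv [DecidableEq Y] (σ : Y → Fin (m + 1) → ℝ) (y : Y) (ξ : Fin (m + 1) → ℝ)
    (κ : (Y → Fin (m + 1) → ℝ) × (Y → Fin (m + 2) → ℝ)) (s : ℝ) :
    Ts (σ + s • (Pi.single y ξ : Y → Fin (m + 1) → ℝ)) κ =
      Ts σ κ + s • Pi.single y (ξ ⬝ᵥ κ.1 y) := by
  funext z
  simp only [Ts, LinearMap.coe_mk, AddHom.coe_mk, Pi.add_apply, Pi.smul_apply, add_dotProduct,
    smul_dotProduct, smul_eq_mul]
  by_cases hz : z = y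
  · subst hz
    rw [Pi.single_eq_same, Pi.single_eq_same]
    ring
  · rw [Pi.single_eq_of_ne hz, Pi.single_eq_of_ne hz, zero_dotProduct]
    ring

/-- the domain of the system -/
noncomputable def DD (H : SimpleGraph Y) (P : Y → Fin (m + 2) → ℝ) :
    Submodule ℝ ((Y → Fin (m + 1) → ℝ) × (Y → Fin (m + 2) → ℝ)) :=
  (Mot H (qt P)).prod (Mot H P)

theorem mem_DD (P : Y → Fin (m + 2) → ℝ) (κ : (Y → Fin (m + 1) → ℝ) × (Y → Fin (m + 2) → ℝ)) :
    κ ∈ DD H P ↔ IsMotion H (qt P) κ.1 ∧ IsMotion H P κ.2 := by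
  simp only [DD, Submodule.mem_prod, mem_mot]

/-- the motion whose first coordinate is affine -/
theorem aff_motion (P : Y → Fin (m + 2) → ℝ) (a : Fin (m + 1) → ℝ) (b : ℝ) :
    IsMotion H P (fun y => vecCons (a ⬝ᵥ qt P y + b) (-(P y 0) • a)) := by
  intro y y' _
  rw [dot_split]
  simp only [tail_sub, Pi.sub_apply, cons_val_zero, tail_cons]
  have e2 : vecTail (P y) - vecTail (P y') = qt P y - qt P y' := rfl
  rw [e2, ← sub_smul, dotProduct_smul, dotProduct_comm _ a, dotProduct_sub, smul_eq_mul]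
  ring

theorem Ts_dich [Finite Y] (P : Y → Fin (m + 2) → ℝ) (hr : InfRigid H (qt P)) (hpos : Pos (qt P))
    (σ : Y → Fin (m + 1) → ℝ)
    (hσ : ∀ σ', Module.finrank ℝ (LinearMap.ker ((Ts (m := m) σ).domRestrict (DD H P))) ≤
      Module.finrank ℝ (LinearMap.ker ((Ts (m := m) σ').domRestrict (DD H P)))) :
    (∀ κ ∈ DD H P, Ts (m := m) σ κ = 0 → κ.1 = 0) ∨ (DD H P).map (Ts (m := m) σ) = ⊤ := by
  classical
  have := Fintype.ofFinite Y
  by_cases hcase : ∀ κ ∈ DD H P, Ts (m := m) σ κ = 0 → κ.1 = 0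
  · exact Or.inl hcase
  right
  push Not at hcase
  obtain ⟨κ, hκ, h0, hne⟩ := hcase
  set R := (DD H P).map (Ts (m := m) σ) with hRdef
  have hvm : IsMotion H (qt P) κ.1 := ((mem_DD P κ).1 hκ).1
  obtain ⟨A, b, hA, hb⟩ := hr _ hvm
  -- many points
  have hpt : ∀ y, κ.1 y ≠ 0 → (Pi.single y 1 : Y → ℝ) ∈ R := by
    intro y hy
    have hd := deriv_mem ((Ts (m := m) σ).domRestrict (DD H P))
      ((Ts (m := m) (σ + (Pi.single y (κ.1 y) : Y → Fin (m + 1) → ℝ)) -
        Ts (m := m) σ).domRestrict (DD H P)) (by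
        intro s
        have e2 : (Ts (m := m) σ).domRestrict (DD H P) +
            s • (Ts (m := m) (σ + (Pi.single y (κ.1 y) : Y → Fin (m + 1) → ℝ)) -
              Ts (m := m) σ).domRestrict (DD H P) =
            (Ts (m := m) (σ + s • (Pi.single y (κ.1 y) : Y → Fin (m + 1) → ℝ))).domRestrict
              (DD H P) := by
          refine LinearMap.ext fun z => ?_
          rw [LinearMap.add_apply, LinearMap.smul_apply, LinearMap.domRestrict_apply,
            LinearMap.domRestrict_apply, LinearMap.domRestrict_apply, LinearMap.sub_apply,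
            Ts_deriv]
          have := Ts_deriv σ y (κ.1 y) (z : (Y → Fin (m + 1) → ℝ) × (Y → Fin (m + 2) → ℝ)) 1
          rw [one_smul, one_smul] at this
          rw [this, add_sub_cancel_left]
        rw [e2]
        exact hσ _) ⟨κ, hκ⟩ (by
          rw [LinearMap.mem_ker, LinearMap.domRestrict_apply]
          exact h0)
    rw [LinearMap.domRestrict_apply, LinearMap.sub_apply] at hd
    have h1 := Ts_deriv σ y (κ.1 y) κ 1
    rw [one_smul, one_smul] at h1
    rw [h1, add_sub_cancel_left] at hd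
    obtain ⟨⟨κ', hκ'⟩, he⟩ := hd
    have hne' : κ.1 y ⬝ᵥ κ.1 y ≠ 0 := by
      rw [Ne, dotProduct_self_eq_zero]
      exact hy
    refine ⟨(κ.1 y ⬝ᵥ κ.1 y)⁻¹ • κ', Submodule.smul_mem _ _ hκ', ?_⟩
    rw [map_smul]
    rw [LinearMap.domRestrict_apply] at he
    rw [he, ← Pi.single_smul', smul_eq_mul, inv_mul_cancel₀ hne']
  -- the affine functions
  have haf : ∀ (a : Fin (m + 1) → ℝ) (b : ℝ), (fun y => a ⬝ᵥ qt P y + b) ∈ R := by
    intro a b
    refine ⟨(0, fun y => vecCons (-a ⬝ᵥ qt P y + -b) (-(P y 0) • -a)), ?_, ?_⟩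
    · exact (mem_DD P _).2 ⟨(mem_mot _ _ _).1 (Submodule.zero_mem _), aff_motion P (-a) (-b)⟩
    · funext y
      change σ y ⬝ᵥ (0 : Fin (m + 1) → ℝ) - (-a ⬝ᵥ qt P y + -b) = _
      rw [dotProduct_zero, neg_dotProduct]
      ring
  -- the zeros
  set Z : Finset Y := Finset.univ.filter (fun y => κ.1 y = 0) with hZ
  have hZc : Z.card ≤ m + 1 + 1 := by
    by_contra hlt
    rw [not_le] at hlt
    obtain ⟨a1, a2⟩ := triv_zero hpos (S := Z) (by omega) hA (b := b) (by
      intro v hv
      rw [hZ, Finset.mem_filter] at hv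
      rw [← hb v]
      exact hv.2)
    apply hne
    funext z
    rw [hb z, a1, a2, zero_mulVec, zero_add]
    rfl
  have hall : ∀ y, (Pi.single y 1 : Y → ℝ) ∈ R := by
    intro y0
    by_cases hy : κ.1 y0 = 0
    · have hy0Z : y0 ∈ Z := by
        rw [hZ, Finset.mem_filter]
        exact ⟨Finset.mem_univ _, hy⟩
      obtain ⟨a, c, hab, hab'⟩ := interp hpos Z hZc y0 hy0Z
      have hm := haf a c
      have hsum : (fun y => a ⬝ᵥ qt P y + c) =
          ∑ y, (a ⬝ᵥ qt P y + c) • (Pi.single y 1 : Y → ℝ) := by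
        funext z
        rw [Finset.sum_apply, Finset.sum_eq_single z]
        · simp
        · intro y _ hy
          simp [Pi.single_eq_of_ne hy.symm]
        · intro h
          exact absurd (Finset.mem_univ _) h
      rw [hsum, ← Finset.add_sum_erase _ _ (Finset.mem_univ y0)] at hm
      have hrest : ∑ y ∈ Finset.univ.erase y0, (a ⬝ᵥ qt P y + c) •
          (Pi.single y 1 : Y → ℝ) ∈ R := by
        apply Submodule.sum_mem
        intro y hy
        by_cases hyZ : y ∈ Z
        · rw [hab' y hyZ (Finset.ne_of_mem_erase hy), zero_smul]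
          exact R.zero_mem
        · apply Submodule.smul_mem
          apply hpt
          intro hc
          exact hyZ (by rw [hZ, Finset.mem_filter]; exact ⟨Finset.mem_univ _, hc⟩)
      have h5 := (Submodule.add_mem_iff_left R hrest).1 hm
      rwa [hab, one_smul] at h5
    · exact hpt y0 hy
  rw [Submodule.eq_top_iff']
  intro f
  have hsum : f = ∑ y, f y • (Pi.single y 1 : Y → ℝ) := by
    funext z
    rw [Finset.sum_apply, Finset.sum_eq_single z]
    · simp
    · intro y _ hy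
      simp [Pi.single_eq_of_ne hy.symm]
    · intro h
      exact absurd (Finset.mem_univ _) h
  rw [hsum]
  exact Submodule.sum_mem _ fun y _ => Submodule.smul_mem _ _ (hall y)

theorem dim_prod_eq {E E' : Type*} [AddCommGroup E] [Module ℝ E] [AddCommGroup E'] [Module ℝ E']
    [FiniteDimensional ℝ E] [FiniteDimensional ℝ E'] (p : Submodule ℝ E) (q : Submodule ℝ E') :
    Module.finrank ℝ (p.prod q) = Module.finrank ℝ p + Module.finrank ℝ q := by
  refine le_antisymm (dim_prod_le p q) ?_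
  have h := dim_split (p.prod q) (LinearMap.fst ℝ E E')
  have h1 : (p.prod q).map (LinearMap.fst ℝ E E') = p := by
    ext x
    constructor
    · rintro ⟨z, hz, rfl⟩
      exact hz.1
    · intro hx
      exact ⟨(x, 0), ⟨hx, q.zero_mem⟩, rfl⟩
  have h2 : Module.finrank ℝ q ≤ Module.finrank ℝ
      ((p.prod q) ⊓ LinearMap.ker (LinearMap.fst ℝ E E') : Submodule ℝ (E × E')) := by
    refine dim_le_of_inj (LinearMap.inr ℝ E E') _ ?_ ?_
    · intro x hx
      exact ⟨⟨p.zero_mem, hx⟩, rfl⟩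
    · intro x _ h0
      exact congrArg Prod.snd h0
  rw [h1] at h
  omega

/-- the kernel contains the motions of the second factor with first coordinate zero -/
theorem ker_ge [Finite Y] (P : Y → Fin (m + 2) → ℝ) (σ : Y → Fin (m + 1) → ℝ) :
    mo H (qt P) ≤ Module.finrank ℝ ((DD H P ⊓ LinearMap.ker (Ts (m := m) σ)) ⊓ LinearMap.ker
      (LinearMap.fst ℝ (Y → Fin (m + 1) → ℝ) (Y → Fin (m + 2) → ℝ)) :
        Submodule ℝ ((Y → Fin (m + 1) → ℝ) × (Y → Fin (m + 2) → ℝ))) := by
  have := Fintype.ofFinite Y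
  let φ : (Y → Fin (m + 1) → ℝ) →ₗ[ℝ] ((Y → Fin (m + 1) → ℝ) × (Y → Fin (m + 2) → ℝ)) :=
    { toFun := fun v => (0, fun y => vecCons 0 (v y))
      map_add' := fun v v' => by
        refine Prod.ext (by simp) ?_
        funext y
        refine vec_ext ?_ rfl
        simp
      map_smul' := fun c v => by
        refine Prod.ext (by simp) ?_
        funext y
        refine vec_ext ?_ rfl
        simp }
  refine dim_le_of_inj φ _ ?_ ?_
  · intro v hv
    refine ⟨⟨⟨Submodule.zero_mem _, ?_⟩, ?_⟩, rfl⟩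
    · exact (mem_mot _ _ _).2 (motion_of_tail (u := fun y => vecCons 0 (v y))
        ((mem_mot _ _ _).1 hv) (fun y => rfl))
    · change Ts (m := m) σ (φ v) = 0
      funext y
      change σ y ⬝ᵥ (0 : Fin (m + 1) → ℝ) - 0 = 0
      rw [dotProduct_zero, sub_zero]
  · intro v _ hv
    have h4 : (fun y => (vecCons 0 (v y) : Fin (m + 2) → ℝ)) = 0 := congrArg Prod.snd hv
    funext y
    exact congrArg vecTail (congrFun h4 y)

/-- few motions: the kernel is the least possible -/
theorem Ts_few [Finite Y] (P : Y → Fin (m + 2) → ℝ) (hr : InfRigid H (qt P)) (hpos : Pos (qt P))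
    (hk : mo H P ≤ Nat.card Y) (σ : Y → Fin (m + 1) → ℝ)
    (hσ : ∀ σ', Module.finrank ℝ (LinearMap.ker ((Ts (m := m) σ).domRestrict (DD H P))) ≤
      Module.finrank ℝ (LinearMap.ker ((Ts (m := m) σ').domRestrict (DD H P)))) :
    ∀ κ ∈ DD H P, Ts (m := m) σ κ = 0 → κ.1 = 0 := by
  have := Fintype.ofFinite Y
  rcases Ts_dich P hr hpos σ hσ with h | h
  · exact h
  intro κ hκ h0
  by_contra hne
  have h8 := dim_split (DD H P) (Ts (m := m) σ)
  rw [h, finrank_top, Module.finrank_fintype_fun_eq_card, ← Nat.card_eq_fintype_card] at h8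
  have h9 : Module.finrank ℝ (DD H P) = mo H (qt P) + mo H P := dim_prod_eq _ _
  have h11 := dim_split (DD H P ⊓ LinearMap.ker (Ts (m := m) σ))
    (LinearMap.fst ℝ (Y → Fin (m + 1) → ℝ) (Y → Fin (m + 2) → ℝ))
  have h12 : 1 ≤ Module.finrank ℝ ((DD H P ⊓ LinearMap.ker (Ts (m := m) σ)).map
      (LinearMap.fst ℝ (Y → Fin (m + 1) → ℝ) (Y → Fin (m + 2) → ℝ))) := by
    rw [Nat.one_le_iff_ne_zero, Ne, Submodule.finrank_eq_zero]
    intro h
    have : κ.1 ∈ (DD H P ⊓ LinearMap.ker (Ts (m := m) σ)).map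
      (LinearMap.fst ℝ (Y → Fin (m + 1) → ℝ) (Y → Fin (m + 2) → ℝ)) := ⟨κ, ⟨hκ, h0⟩, rfl⟩
    rw [h, Submodule.mem_bot] at this
    exact hne this
  have h13 := ker_ge (H := H) P σ
  omega

/-- many motions: the system is surjective -/
theorem Ts_many [Finite Y] (P : Y → Fin (m + 2) → ℝ) (hr : InfRigid H (qt P)) (hpos : Pos (qt P))
    (hk : Nat.card Y ≤ mo H P) (σ : Y → Fin (m + 1) → ℝ)
    (hσ : ∀ σ', Module.finrank ℝ (LinearMap.ker ((Ts (m := m) σ).domRestrict (DD H P))) ≤
      Module.finrank ℝ (LinearMap.ker ((Ts (m := m) σ').domRestrict (DD H P)))) :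
    (DD H P).map (Ts (m := m) σ) = ⊤ := by
  have := Fintype.ofFinite Y
  rcases Ts_dich P hr hpos σ hσ with h | h
  · have h8 := dim_split (DD H P) (Ts (m := m) σ)
    have h9 : Module.finrank ℝ (DD H P) = mo H (qt P) + mo H P := dim_prod_eq _ _
    have h10 : Module.finrank ℝ (DD H P ⊓ LinearMap.ker (Ts (m := m) σ) :
        Submodule ℝ ((Y → Fin (m + 1) → ℝ) × (Y → Fin (m + 2) → ℝ))) ≤ mo H (qt P) := by
      let φ : ((Y → Fin (m + 1) → ℝ) × (Y → Fin (m + 2) → ℝ)) →ₗ[ℝ] (Y → Fin (m + 1) → ℝ) :=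
        { toFun := fun κ y => vecTail (κ.2 y)
          map_add' := fun _ _ => rfl
          map_smul' := fun _ _ => rfl }
      have hz : ∀ κ ∈ DD H P ⊓ LinearMap.ker (Ts (m := m) σ), κ.1 = 0 ∧ ∀ y, κ.2 y 0 = 0 := by
        intro κ hκ
        have h1 := h κ hκ.1 hκ.2
        refine ⟨h1, fun y => ?_⟩
        have h2 : σ y ⬝ᵥ κ.1 y - κ.2 y 0 = 0 := congrFun (LinearMap.mem_ker.1 hκ.2) y
        rw [h1, Pi.zero_apply, dotProduct_zero, zero_sub, neg_eq_zero] at h2
        exact h2
      refine dim_le_of_inj φ (Mot H (qt P)) ?_ ?_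
      · intro κ hκ
        exact (mem_mot _ _ _).2 (tail_motion ((mem_DD P κ).1 hκ.1).2 (hz κ hκ).2)
      · intro κ hκ h0
        obtain ⟨a1, a2⟩ := hz κ hκ
        refine Prod.ext a1 ?_
        funext y
        exact vec_ext (a2 y) (congrFun h0 y)
    apply Submodule.eq_top_of_finrank_eq
    have h11 := Submodule.finrank_le ((DD H P).map (Ts (m := m) σ))
    rw [Module.finrank_fintype_fun_eq_card] at h11 ⊢
    rw [Nat.card_eq_fintype_card] at hk
    omega
  · exact h

end Pool.Agent.T2h34.CP
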