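import Mathlib
import Pool.Agent.T2h34.CP.Dich

set_option autoImplicit false
set_option linter.unusedSectionVars false

/-! Products with a graph which is rigid in the dimension below. -/

namespace Pool.Agent.T2h34.CP

open Matrix Pool.Agent.H283R2.DR Pool.Agent.H283R2.DR.TA Pool.Agent.H789R5

variable {Y : Type} {m : ℕ} {H : SimpleGraph Y}

/-- a graph which is rigid in the dimension below and has few motions is pinned by sliders -/
theorem sl_gen [Finite Y] (hR : GenRigid (m + 1) H)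
    (hK : ∃ P : Y → Fin (m + 2) → ℝ, mo H P ≤ Nat.card Y) : Sl (m + 2) H := by
  classical
  have := Fintype.ofFinite Y
  obtain ⟨q, hq⟩ := hR
  have g1 : Good (fun P : Y → Fin (m + 2) → ℝ => mo H P ≤ Nat.card Y) := mo_good H _
  have g2 : Good (fun P : Y → Fin (m + 2) → ℝ => InfRigid H (qt P)) :=
    Aff.good (infRigid_good H) (F := fun P : Y → Fin (m + 2) → ℝ => qt P) (by intro a b s; rfl)
  have g6 : Good (fun P : Y → Fin (m + 2) → ℝ => Pos (qt P)) :=
    Aff.good (pos_good Y (m + 1)) (F := fun P : Y → Fin (m + 2) → ℝ => qt P)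
      (by intro a b s; rfl)
  have e2 : ∃ P : Y → Fin (m + 2) → ℝ, InfRigid H (qt P) := by
    obtain ⟨P, hP⟩ := exists_lift q
    exact ⟨P, by rw [hP]; exact hq⟩
  have e6 : ∃ P : Y → Fin (m + 2) → ℝ, Pos (qt P) := by
    obtain ⟨q', hq'⟩ := pos_exists Y (m + 1)
    obtain ⟨P, hP⟩ := exists_lift q'
    exact ⟨P, by rw [hP]; exact hq'⟩
  obtain ⟨P, c1, c2, c3⟩ := good_and_exists g1 (good_and g2 g6) hK (good_and_exists g2 g6 e2 e6)
  obtain ⟨σ, hσ⟩ := exists_minker (fun σ : Y → Fin (m + 1) → ℝ =>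
    (Ts (m := m) σ).domRestrict (DD H P))
  have key := Ts_few P c2 c3 c1 σ hσ
  -- the perturbation of the vertical sliders
  set f := (rig H P).prod (sld (fun _ : Y => (vecCons 1 0 : Fin (m + 2) → ℝ))) with hf
  set g := (0 : (Y → Fin (m + 2) → ℝ) →ₗ[ℝ] (Y × Y → ℝ)).prod
    (sld (fun y : Y => (vecCons 0 (σ y) : Fin (m + 2) → ℝ))) with hg
  have hker : (LinearMap.ker f ⊓ (LinearMap.range f).comap g :
      Submodule ℝ (Y → Fin (m + 2) → ℝ)) = ⊥ := by
    rw [eq_bot_iff]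
    rintro w ⟨hw1, ⟨w', hw'⟩⟩
    rw [hf] at hw1
    have a1 : rig H P w = 0 ∧ sld (fun _ : Y => (vecCons 1 0 : Fin (m + 2) → ℝ)) w = 0 := by
      have := LinearMap.mem_ker.1 hw1
      rwa [prod_ap, Prod.mk_eq_zero] at this
    have a2 : ∀ y, w y 0 = 0 := by
      intro y
      have := (sld_eq_zero _ _).1 a1.2 y
      rw [dot_split] at this
      simpa using this
    rw [hf, hg, prod_ap, prod_ap, LinearMap.zero_apply, Prod.mk.injEq] at hw'
    have a3 : ∀ y, w' y 0 = σ y ⬝ᵥ vecTail (w y) := by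
      intro y
      have := congrFun hw'.2 y
      change (vecCons 1 0 : Fin (m + 2) → ℝ) ⬝ᵥ w' y =
        (vecCons 0 (σ y) : Fin (m + 2) → ℝ) ⬝ᵥ w y at this
      rw [dot_split, dot_split] at this
      simpa using this
    have a4 := key (fun y => vecTail (w y), w') ((mem_DD P _).2
      ⟨tail_motion ((rig_eq_zero _ _ _).1 a1.1) a2, (rig_eq_zero _ _ _).1 hw'.1⟩) (by
        funext y
        change σ y ⬝ᵥ vecTail (w y) - w' y 0 = 0
        rw [a3, sub_self])
    rw [Submodule.mem_bot]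
    funext y
    exact vec_ext (a2 y) (congrFun a4 y)
  have hfin := (first_order f g).union (Set.finite_singleton (0 : ℝ))
  obtain ⟨s, hs⟩ := hfin.infinite_compl.nonempty
  rw [Set.mem_compl_iff, Set.mem_union, not_or, Set.mem_ofPred_eq, not_and, not_lt,
    Set.mem_singleton_iff] at hs
  have h7 := hs.1 hs.2
  rw [hker, finrank_bot, Nat.le_zero, Submodule.finrank_eq_zero] at h7
  refine ⟨P, fun y => vecCons 1 (s • σ y), ?_⟩
  intro w hw hsl
  have h8 : w ∈ LinearMap.ker (f + s • g) := by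
    rw [LinearMap.mem_ker, LinearMap.add_apply, LinearMap.smul_apply, hf, hg, prod_ap, prod_ap,
      (rig_eq_zero _ _ _).2 hw]
    refine Prod.ext ?_ ?_
    · simp
    · funext y
      change (vecCons 1 0 : Fin (m + 2) → ℝ) ⬝ᵥ w y +
        s * ((vecCons 0 (σ y) : Fin (m + 2) → ℝ) ⬝ᵥ w y) = 0
      have := hsl y
      have i1 : (vecCons 1 0 : Fin (m + 2) → ℝ) ⬝ᵥ w y = w y 0 := by rw [dot_split]; simp
      have i2 : (vecCons 0 (σ y) : Fin (m + 2) → ℝ) ⬝ᵥ w y = σ y ⬝ᵥ vecTail (w y) := by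
        rw [dot_split]; simp
      have i3 : (vecCons 1 (s • σ y) : Fin (m + 2) → ℝ) ⬝ᵥ w y =
          w y 0 + s * (σ y ⬝ᵥ vecTail (w y)) := by
        rw [dot_split]; simp [smul_dotProduct]
      rw [i1, i2, ← i3]
      exact this
  rw [h7, Submodule.mem_bot] at h8
  exact h8

/-- the matching condition is surjective -/
theorem dim_WW_gen [Finite Y] (P1 P2 : Y → Fin (m + 2) → ℝ) (hr : InfRigid H (qt P1))
    (hs : (DD H P1).map (Ts (m := m) (qt P2)) = ⊤) :
    Module.finrank ℝ (WW H P1 P2) + Nat.card Y ≤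
      (mo H (qt P1) + mo H (qt P2)) + (mo H P1 + mo H P2) := by
  have := Fintype.ofFinite Y
  set D := ((Mot H (qt P1)).prod (Mot H (qt P2))).prod ((Mot H P1).prod (Mot H P2)) with hD
  have h1 := dim_split D (lin12 P1 P2)
  have h2 : D ⊓ LinearMap.ker (lin12 P1 P2) = WW H P1 P2 := rfl
  have h3 : D.map (lin12 P1 P2) = ⊤ := by
    rw [Submodule.eq_top_iff']
    intro f
    have hf : f ∈ (DD H P1).map (Ts (m := m) (qt P2)) := by rw [hs]; exact Submodule.mem_top
    obtain ⟨⟨v, w⟩, hvw, hf⟩ := hf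
    obtain ⟨hv, hw⟩ := (mem_DD P1 _).1 hvw
    simp only at hv hw
    obtain ⟨A, b, hA, hb⟩ := hr v hv
    refine ⟨((-v, 0), (w - fun y => vecCons (b ⬝ᵥ qt P1 y + 0) (-(P1 y 0) • b), 0)), ?_, ?_⟩
    · refine ⟨⟨?_, ?_⟩, ?_, ?_⟩
      · exact Submodule.neg_mem _ ((mem_mot _ _ _).2 hv)
      · exact Submodule.zero_mem _
      · exact Submodule.sub_mem _ ((mem_mot _ _ _).2 hw) ((mem_mot _ _ _).2 (aff_motion P1 b 0))
      · exact Submodule.zero_mem _
    · rw [← hf]
      funext y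
      change (0 : ℝ) - (w y 0 - (b ⬝ᵥ qt P1 y + 0)) + (qt P2 y - qt P1 y) ⬝ᵥ (0 - - v y) =
        qt P2 y ⬝ᵥ v y - w y 0
      have e1 : qt P1 y ⬝ᵥ v y = b ⬝ᵥ qt P1 y := by
        rw [hb y, dotProduct_add, skew_dot_self hA, zero_add, dotProduct_comm]
      rw [sub_neg_eq_add, zero_add, sub_dotProduct, e1]
      ring
  rw [h3, finrank_top, Module.finrank_fintype_fun_eq_card, ← Nat.card_eq_fintype_card, h2] at h1
  have h4 : Module.finrank ℝ D ≤ (mo H (qt P1) + mo H (qt P2)) + (mo H P1 + mo H P2) :=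
    (dim_prod_le _ _).trans (Nat.add_le_add (dim_prod_le _ _) (dim_prod_le _ _))
  have h5 : Nat.card Y + Module.finrank ℝ (WW H P1 P2) = Module.finrank ℝ D := h1
  omega

theorem ker_Th_le_gen [Finite Y] (P1 P2 : Y → Fin (m + 2) → ℝ) (q0 : Y → Fin (m + 1) → ℝ)
    (hQ : Module.finrank ℝ (WW H P1 P2) ≤ (mo H (qt P1) + mo H (qt P2)) + Nat.card Y)
    (r1 : InfRigid H (qt P1)) (r2 : InfRigid H (qt P2))
    (hG : ∀ y : Fin (m + 2) → Y, Function.Injective y →
      ∀ x, cg 1 y (qt P1, qt P2) x = 0 → x = 0)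
    (hD : ∀ y, q0 y 0 * (qt P2 y 0 - qt P1 y 0) + qt P1 y 0 ≠ 0)
    (hmax : ∀ q0', Module.finrank ℝ (LinearMap.ker ((Th P1 P2 q0).domRestrict (WW H P1 P2))) ≤
      Module.finrank ℝ (LinearMap.ker ((Th P1 P2 q0').domRestrict (WW H P1 P2)))) :
    Module.finrank ℝ (WW H P1 P2 ⊓ LinearMap.ker (Th P1 P2 q0) : Submodule ℝ (ET Y m)) ≤
      (m + 2) + (mo H (qt P1) + mo H (qt P2)) := by
  classical
  have := Fintype.ofFinite Y
  by_contra hlt
  rw [not_le] at hlt
  have h1 := dim_split (WW H P1 P2) (Th P1 P2 q0)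
  have h3 := card_single_le ((WW H P1 P2).map (Th P1 P2 q0))
  have h4 : Fintype.card {y : Y // (Pi.single y 1 : Y → ℝ) ∈ (WW H P1 P2).map (Th P1 P2 q0)} +
      Fintype.card {y : Y // ¬ (Pi.single y 1 : Y → ℝ) ∈ (WW H P1 P2).map (Th P1 P2 q0)} =
      Nat.card Y := by
    rw [Nat.card_eq_fintype_card, Fintype.card_subtype_compl]
    have := Fintype.card_subtype_le
      (fun y : Y => (Pi.single y 1 : Y → ℝ) ∈ (WW H P1 P2).map (Th P1 P2 q0))
    omega
  have h5 : Fintype.card (Fin (m + 2)) ≤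
      Fintype.card {y : Y // ¬ (Pi.single y 1 : Y → ℝ) ∈ (WW H P1 P2).map (Th P1 P2 q0)} := by
    rw [Fintype.card_fin]
    omega
  obtain ⟨e⟩ := Function.Embedding.nonempty_of_card_le h5
  have h6 := ker_Th_le_of P1 P2 q0 r1 r2 hG hD hmax (fun i => (e i).1)
    (Subtype.val_injective.comp e.injective) (fun i => (e i).2)
  omega

/-- the product of a triangle with a graph which is rigid in the dimension below -/
theorem base_gen [Finite Y] (hR : GenRigid (m + 1) H)
    (hK : ∃ P : Y → Fin (m + 2) → ℝ, mo H P ≤ Nat.card Y)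
    (hK' : ∀ P : Y → Fin (m + 2) → ℝ, Nat.card Y ≤ mo H P) :
    ∃ P : Fin 3 × Y → Fin (m + 2) → ℝ, mo (K3 □ H) P ≤ (m + 2) * (m + 3) / 2 := by
  classical
  have := Fintype.ofFinite Y
  obtain ⟨q, hq⟩ := hR
  -- the first layer
  let E := (Y → Fin (m + 2) → ℝ) × (Y → Fin (m + 2) → ℝ)
  have g1 : Good (fun P : E => mo H P.1 ≤ Nat.card Y) :=
    Aff.good (mo_good H _) (F := fun P : E => P.1) (by intro a b s; rfl)
  have g2 : Good (fun P : E => InfRigid H (qt P.1)) :=
    Aff.good (infRigid_good H) (F := fun P : E => qt P.1) (by intro a b s; rfl)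
  have g4 : Good (fun P : E => ∀ y, qt P.1 y 0 ≠ 0) := good_forall fun y => good_ne (F := fun P :
        E => qt P.1 y 0) (by intro a b s; rfl)
  have g5 : Good (fun P : E => (∀ y : Fin (m + 2) → Y, Function.Injective y →
        ∀ x, cg 1 y (qt P.1, qt P.2) x = 0 → x = 0)) := good_forall fun y => good_imp fun _ =>
        Aff.good (cg_good y) (F := fun P : E => (qt P.1, qt P.2)) (by intro a b s; rfl)
  have g6 : Good (fun P : E => Pos (qt P.1)) :=
    Aff.good (pos_good Y (m + 1)) (F := fun P : E => qt P.1) (by intro a b s; rfl)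
  have e1 : ∃ P : E, mo H P.1 ≤ Nat.card Y := by
    obtain ⟨P, hP⟩ := hK
    exact ⟨(P, 0), hP⟩
  have e2 : ∃ P : E, InfRigid H (qt P.1) := by
    obtain ⟨P, hP⟩ := exists_lift q
    exact ⟨(P, 0), by rw [hP]; exact hq⟩
  have e4 : ∃ P : E, ∀ y, qt P.1 y 0 ≠ 0 := ⟨(fun _ => 1, 0), fun y => one_ne_zero⟩
  have e5 : ∃ P : E, (∀ y : Fin (m + 2) → Y, Function.Injective y →
        ∀ x, cg 1 y (qt P.1, qt P.2) x = 0 → x = 0) := by
    have hf := good_family (E := (Y → Fin (m + 1) → ℝ) × (Y → Fin (m + 1) → ℝ))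
      (ι := Fin (m + 2) → Y) (fun y p => Function.Injective y → ∀ x, cg 1 y p x = 0 → x = 0)
      (fun y => good_imp fun _ => cg_good y) (fun y => by
        by_cases hy : Function.Injective y
        · obtain ⟨p, hp⟩ := cg_sat y hy
          exact ⟨p, fun _ => hp⟩
        · exact ⟨0, fun h => absurd h hy⟩)
    obtain ⟨⟨p1, p2⟩, hp⟩ := hf
    obtain ⟨P1, hP1⟩ := exists_lift p1
    obtain ⟨P2, hP2⟩ := exists_lift p2
    refine ⟨(P1, P2), ?_⟩
    rw [hP1, hP2]
    exact hp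
  have e6 : ∃ P : E, Pos (qt P.1) := by
    obtain ⟨q', hq'⟩ := pos_exists Y (m + 1)
    obtain ⟨P, hP⟩ := exists_lift q'
    exact ⟨(P, 0), by rw [hP]; exact hq'⟩
  obtain ⟨⟨P1, P2'⟩, c1, c2, c4, c5, c6⟩ :=
    good_and_exists g1 (good_and g2 (good_and g4 (good_and g5 g6))) e1
    (good_and_exists g2 (good_and g4 (good_and g5 g6)) e2
        (good_and_exists g4 (good_and g5 g6) e4 (good_and_exists g5 g6 e5 e6)))
  simp only at c1 c2 c4 c5 c6
  -- the second layer
  have l1 : Good (fun P2 : Y → Fin (m + 2) → ℝ => mo H P2 ≤ Nat.card Y) := mo_good H _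
  have l2 : Good (fun P2 : Y → Fin (m + 2) → ℝ => InfRigid H (qt P2)) :=
    Aff.good (infRigid_good H) (F := fun P : Y → Fin (m + 2) → ℝ => qt P) (by intro a b s; rfl)
  have l3 : Good (fun P2 : Y → Fin (m + 2) → ℝ => (∀ y : Fin (m + 2) → Y, Function.Injective y →
        ∀ x, cg 1 y (qt P1, qt P2) x = 0 → x = 0)) := good_forall fun y => good_imp fun _ =>
        Aff.good (cg_good y) (F := fun P2 : Y → Fin (m + 2) → ℝ => (qt P1, qt P2)) (by
          intro a b s
          refine Prod.ext ?_ rfl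
          change qt P1 = qt P1 + s • (qt P1 - qt P1)
          rw [sub_self, smul_zero, add_zero])
  have haffT : Aff (fun P2 : Y → Fin (m + 2) → ℝ =>
      (Ts (m := m) (qt P2)).domRestrict (DD H P1)) := by
    intro a b s
    have e1 := Ts_aff (qt a) (qt b) s
    have e2 : qt (a + s • (b - a)) = qt a + s • (qt b - qt a) := rfl
    simp only
    rw [e2, e1]
    rfl
  have l4 := good_minker haffT
  obtain ⟨P2, d1, d2, d3, d4⟩ := good_and_exists l1 (good_and l2 (good_and l3 l4)) hK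
    (good_and_exists l2 (good_and l3 l4) (by
      obtain ⟨P, hP⟩ := exists_lift q
      exact ⟨P, by rw [hP]; exact hq⟩) (good_and_exists l3 l4 ⟨P2', c5⟩ (exists_minker _)))
  have d5 : (DD H P1).map (Ts (m := m) (qt P2)) = ⊤ := by
    refine Ts_many P1 c2 c6 (hK' P1) (qt P2) ?_
    intro σ'
    obtain ⟨P, hP⟩ := exists_lift σ'
    have := d4 P
    rwa [hP] at this
  have hW := dim_WW_gen P1 P2 c2 d5
  -- the third layer
  have k1 : Good (fun q0 : Y → Fin (m + 1) → ℝ => InfRigid H q0) := infRigid_good H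
  have k2 : Good (fun q0 : Y → Fin (m + 1) → ℝ =>
      ∀ y, q0 y 0 * (qt P2 y 0 - qt P1 y 0) + qt P1 y 0 ≠ 0) := good_forall fun y => good_ne (F :=
        fun q0 : Y → Fin (m + 1) → ℝ => q0 y 0 * (qt P2 y 0 - qt P1 y 0) + qt P1 y 0) (by
          intro a b s
          simp only [Pi.add_apply, Pi.smul_apply, Pi.sub_apply, smul_eq_mul]
          ring)
  have haff : Aff (fun q0 => (Th P1 P2 q0).domRestrict (WW H P1 P2)) := by
    intro a b s
    have e1 := Th_aff P1 P2 a b s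
    simp only
    rw [e1]
    rfl
  have k3 := good_minker haff
  have e2' : ∃ q0 : Y → Fin (m + 1) → ℝ,
      ∀ y, q0 y 0 * (qt P2 y 0 - qt P1 y 0) + qt P1 y 0 ≠ 0 :=
    ⟨0, fun y => by simpa using c4 y⟩
  obtain ⟨q0, h1, h2, h3⟩ := good_and_exists k1 (good_and k2 k3) ⟨q, hq⟩
    (good_and_exists k2 k3 e2' (exists_minker _))
  have h4 := ker_Th_le_gen P1 P2 q0 (by omega) c2 d2 d3 h2 h3
  have h5 := dim_LL q0 P1 P2 c4 h4
  have h6 := mo_of_infRigid h1
  have hfin := (first_order (rig (K3 □ H) (lay 0 ![q0, qt P1, qt P2]))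
    (rig (K3 □ H) (pd P1 P2))).union (Set.finite_singleton (0 : ℝ))
  obtain ⟨s, hs⟩ := hfin.infinite_compl.nonempty
  rw [Set.mem_compl_iff, Set.mem_union, not_or, Set.mem_ofPred_eq, not_and, not_lt,
    Set.mem_singleton_iff] at hs
  have h7 := hs.1 hs.2
  refine ⟨lay 0 ![q0, qt P1, qt P2] + s • pd P1 P2, ?_⟩
  unfold mo Mot
  rw [rig_line]
  refine h7.trans (h5.trans ?_)
  have e3 : (m + 2) * (m + 3) = (m + 1) * (m + 1 + 1) + 2 * (m + 2) := by ring
  rw [e3, Nat.add_mul_div_left _ _ (by norm_num)]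
  omega

end Pool.Agent.T2h34.CP
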