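import Mathlib
import Pool.Agent.T2h34.CP.Gen
import Pool.Agent.T2h34.CP.Mono

set_option autoImplicit false
set_option linter.unusedSectionVars false

/-! Products with a graph which is rigid in the dimension below: both directions. -/

namespace Pool.Agent.T2h34.CP

open Matrix Pool.Agent.H283R2.DR Pool.Agent.H283R2.DR.TA Pool.Agent.H789R5

theorem edge_ncard {V : Type} [Fintype V] (B : SimpleGraph V) (u v : V) :
    ((B ⊔ SimpleGraph.edge u v).edgeSet \ B.edgeSet).ncard ≤ 1 := by
  classical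
  have h : ((B ⊔ SimpleGraph.edge u v).edgeSet \ B.edgeSet) ⊆ {s(u, v)} := by
    intro e
    induction e using Sym2.ind with
    | _ x y =>
      rintro ⟨h, h'⟩
      rw [SimpleGraph.mem_edgeSet, SimpleGraph.sup_adj] at h
      rw [SimpleGraph.mem_edgeSet] at h'
      rcases h with h | h
      · exact absurd h h'
      · rw [SimpleGraph.edge_adj] at h
        rw [Set.mem_singleton_iff]
        rcases h.1 with ⟨rfl, rfl⟩ | ⟨rfl, rfl⟩
        · rfl
        · exact Sym2.eq_swap
  calc _ ≤ ({s(u, v)} : Set (Sym2 V)).ncard := Set.ncard_le_ncard h (Set.toFinite _)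
    _ = 1 := Set.ncard_singleton _

/-- a subgraph with the same motions and few edges -/
theorem exists_basis {V : Type} [Fintype V] {d : ℕ} (G : SimpleGraph V) (p : V → Fin d → ℝ) :
    ∃ B ≤ G, Mot B p = Mot G p ∧ B.edgeSet.ncard + mo B p ≤ d * Fintype.card V := by
  classical
  obtain ⟨B, -, hB⟩ := (Set.toFinite {B : SimpleGraph V | B ≤ G ∧
    B.edgeSet.ncard + mo B p ≤ d * Fintype.card V}).exists_le_maximal
    (a := (⊥ : SimpleGraph V)) ⟨bot_le, by rw [mo_bot]; simp⟩
  refine ⟨B, hB.1.1, ?_, hB.1.2⟩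
  refine le_antisymm ?_ (mot_anti hB.1.1 p)
  intro q hq
  by_contra hq'
  rw [mem_mot] at hq'
  unfold IsMotion at hq'
  push Not at hq'
  obtain ⟨u, v, huv, hne⟩ := hq'
  have h1 : B ≤ B ⊔ SimpleGraph.edge u v := le_sup_left
  have hadj : (B ⊔ SimpleGraph.edge u v).Adj u v :=
    Or.inr (SimpleGraph.edge_adj u v u v |>.2 ⟨Or.inl ⟨rfl, rfl⟩, huv.ne⟩)
  have h2 : B ⊔ SimpleGraph.edge u v ≤ G := by
    refine sup_le hB.1.1 ?_
    intro x y h
    rw [SimpleGraph.edge_adj] at h
    rcases h.1 with ⟨rfl, rfl⟩ | ⟨rfl, rfl⟩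
    · exact huv
    · exact huv.symm
  have h3 : Mot (B ⊔ SimpleGraph.edge u v) p < Mot B p := by
    refine lt_of_le_of_ne (mot_anti h1 p) ?_
    intro h
    rw [← h, mem_mot] at hq
    exact hne (hq u v hadj)
  have h4 : mo (B ⊔ SimpleGraph.edge u v) p < mo B p := Submodule.finrank_lt_finrank_of_lt h3
  have h5 := edge_ncard B u v
  have h6 : (B ⊔ SimpleGraph.edge u v).edgeSet.ncard ≤ B.edgeSet.ncard + 1 := by
    have := Set.ncard_le_ncard_sdiff_add_ncard (B ⊔ SimpleGraph.edge u v).edgeSet B.edgeSet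
    omega
  have h7 := hB.2 (y := B ⊔ SimpleGraph.edge u v) ⟨h2, by have := hB.1.2; omega⟩ h1
  have h8 : B ⊔ SimpleGraph.edge u v = B := le_antisymm h7 h1
  rw [h8] at h4
  exact lt_irrefl _ h4

/-- a graph between two graphs with a given number of motions -/
theorem exists_between {V : Type} [Fintype V] {d k : ℕ} {B H : SimpleGraph V}
    (p : V → Fin d → ℝ) (hBH : B ≤ H) (hB : k ≤ mo B p) (hH : mo H p ≤ k) :
    ∃ K : SimpleGraph V, B ≤ K ∧ K ≤ H ∧ mo K p = k := by
  classical
  obtain ⟨K, -, hK⟩ := (Set.toFinite {K : SimpleGraph V | (B ≤ K ∧ K ≤ H) ∧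
    k ≤ mo K p}).exists_le_maximal (a := B) ⟨⟨le_rfl, hBH⟩, hB⟩
  refine ⟨K, hK.1.1.1, hK.1.1.2, ?_⟩
  by_contra hne
  have h0 : k < mo K p := lt_of_le_of_ne hK.1.2 (Ne.symm hne)
  have h1 : ¬ H ≤ K := by
    intro h
    have := le_antisymm h hK.1.1.2
    rw [← this] at h0
    omega
  have h2 : ∃ u v, H.Adj u v ∧ ¬ K.Adj u v := by
    by_contra h
    push Not at h
    exact h1 (fun u v => h u v)
  obtain ⟨u, v, huv, hne'⟩ := h2
  have h3 : K ≤ K ⊔ SimpleGraph.edge u v := le_sup_left
  have hadj : (K ⊔ SimpleGraph.edge u v).Adj u v :=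
    Or.inr (SimpleGraph.edge_adj u v u v |>.2 ⟨Or.inl ⟨rfl, rfl⟩, huv.ne⟩)
  have h4 : K ⊔ SimpleGraph.edge u v ≤ H := by
    refine sup_le hK.1.1.2 ?_
    intro x y h
    rw [SimpleGraph.edge_adj] at h
    rcases h.1 with ⟨rfl, rfl⟩ | ⟨rfl, rfl⟩
    · exact huv
    · exact huv.symm
  have h5 := edge_ncard K u v
  have h6 := mo_le_add (G := K) (G' := K ⊔ SimpleGraph.edge u v) p
  have h7 := hK.2 (y := K ⊔ SimpleGraph.edge u v) ⟨⟨hK.1.1.1.trans h3, h4⟩, by omega⟩ h3
  exact hne' (h7 hadj)

theorem infRigid_mono {V : Type} {d : ℕ} {B H : SimpleGraph V} {p : V → Fin d → ℝ} (h : B ≤ H)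
    (hB : InfRigid B p) : InfRigid H p := fun q hq => hB q fun u v huv => hq u v (h huv)

theorem genRank_le_edges {V : Type} [Fintype V] {d : ℕ} (H : SimpleGraph V) :
    genRank d H ≤ H.edgeSet.ncard := by
  obtain ⟨p, hp⟩ := exists_mg V d
  have h1 := genRank_add hp H
  have h2 := mo_le_add (G := ⊥) (G' := H) p
  rw [mo_bot] at h2
  simp only [SimpleGraph.edgeSet_bot, Set.sdiff_empty] at h2
  omega

/-- many independent edges need many vertices -/
theorem card_of_rank {V : Type} [Fintype V] {m : ℕ} {H : SimpleGraph V}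
    (hr : (m + 1) * Fintype.card V ≤ genRank (m + 2) H) (hV : 0 < Fintype.card V) :
    m + 2 ≤ Fintype.card V := by
  classical
  have h1 := hr.trans (genRank_le_edges H)
  have h2 : H.edgeSet.ncard ≤ (Fintype.card V).choose 2 := by
    rw [Set.ncard_eq_toFinset_card']
    exact SimpleGraph.card_edgeFinset_le_card_choose_two
  have h3 : (Fintype.card V).choose 2 * 2 ≤ Fintype.card V * (Fintype.card V - 1) := by
    rw [Nat.choose_two_right]
    exact Nat.div_mul_le_self _ _
  have h4 : Fintype.card V * ((m + 1) * 2) ≤ Fintype.card V * (Fintype.card V - 1) := by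
    calc Fintype.card V * ((m + 1) * 2) = ((m + 1) * Fintype.card V) * 2 := by ring
      _ ≤ (Fintype.card V).choose 2 * 2 := Nat.mul_le_mul_right _ (h1.trans h2)
      _ ≤ _ := h3
  have h5 := Nat.le_of_mul_le_mul_left h4 hV
  omega

/-- **Products raise the dimension.** -/
theorem gen_suff {V Y : Type} [Fintype V] [Fintype Y] {G : SimpleGraph V} {H : SimpleGraph Y}
    {m : ℕ} (hH : GenRigid (m + 1) H) (hr : (m + 1) * Fintype.card Y ≤ genRank (m + 2) H)
    (hG : G.Connected) (hA : ¬ G.IsAcyclic) : GenRigid (m + 2) (G □ H) := by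
  classical
  rcases isEmpty_or_nonempty Y with hY | hY
  · exact ⟨0, fun q _ => ⟨0, 0, by simp, fun v => hY.elim v.2⟩⟩
  have hY0 : 0 < Fintype.card Y := Fintype.card_pos
  have hc := card_of_rank hr hY0
  obtain ⟨P, hP⟩ := exists_mg Y (m + 2)
  have h1 := genRank_add hP H
  obtain ⟨p, hp⟩ := hH
  obtain ⟨B, hBH, hB1, hB2⟩ := exists_basis H p
  have h2 : mo H P ≤ Fintype.card Y := by
    have e1 : (m + 2) * Fintype.card Y = (m + 1) * Fintype.card Y + Fintype.card Y := by ring
    omega
  have h3 : Fintype.card Y ≤ mo B P := by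
    have e1 : (m + 2) * Fintype.card Y = (m + 1) * Fintype.card Y + Fintype.card Y := by ring
    have e2 := mo_le_add (G := ⊥) (G' := B) P
    rw [mo_bot] at e2
    simp only [SimpleGraph.edgeSet_bot, Set.sdiff_empty] at e2
    omega
  obtain ⟨K, hBK, hKH, hK⟩ := exists_between P hBH h3 h2
  have hBr : InfRigid B p := by
    rw [infRigid_iff] at hp ⊢
    have e1 : LinearMap.ker (rig B p) = LinearMap.ker (rig H p) := hB1
    rw [e1]
    exact hp
  have hKr : GenRigid (m + 1) K := ⟨p, infRigid_mono hBK hBr⟩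
  have hK1 : ∃ P : Y → Fin (m + 2) → ℝ, mo K P ≤ Nat.card Y :=
    ⟨P, by rw [Nat.card_eq_fintype_card, hK]⟩
  have hK2 : ∀ P' : Y → Fin (m + 2) → ℝ, Nat.card Y ≤ mo K P' := by
    intro P'
    rw [Nat.card_eq_fintype_card, ← hK]
    exact hP.min K P'
  obtain ⟨f, hf⟩ := exists_contr G hG hA
  obtain ⟨P', hP'⟩ := contr_R hf (base_gen hKr hK1 hK2) (sl_gen hKr hK1)
  obtain ⟨q, hq⟩ := exists_mg (V × Y) (m + 2)
  have h4 := card_of_nonacyclic hG hA
  rw [Nat.card_eq_fintype_card] at h4
  rw [genRigid_iff hq]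
  · have h5 : SimpleGraph.boxProd G K ≤ SimpleGraph.boxProd G H := by
      intro x y h
      rw [SimpleGraph.boxProd_adj] at h ⊢
      rcases h with h | h
      · exact Or.inl h
      · exact Or.inr ⟨hKH h.1, h.2⟩
    exact (hq.min _ P').trans ((mo_anti h5 P').trans hP')
  · rw [Fintype.card_prod]
    nlinarith

/-- the layers of the product move independently if the edges of `G` are removed -/
theorem mo_layers {V Y : Type} [Fintype V] [Fintype Y] {H : SimpleGraph Y} {d k : ℕ}
    (P : V × Y → Fin d → ℝ) (hk : ∀ P' : Y → Fin d → ℝ, k ≤ mo H P') :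
    Fintype.card V * k ≤ mo ((⊥ : SimpleGraph V) □ H) P := by
  classical
  let Φ : (∀ u : V, Mot H (fun y => P (u, y))) →ₗ[ℝ] (V × Y → Fin d → ℝ) :=
    { toFun := fun w x => (w x.1 : Y → Fin d → ℝ) x.2
      map_add' := fun _ _ => rfl
      map_smul' := fun _ _ => rfl }
  have h1 : ∀ w, Φ w ∈ Mot ((⊥ : SimpleGraph V) □ H) P := by
    intro w
    rw [mem_mot]
    rintro ⟨u, y⟩ ⟨u', y'⟩ h
    rw [SimpleGraph.boxProd_adj] at h
    rcases h with ⟨h, _⟩ | ⟨h, h'⟩
    · exact absurd h (by simp)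
    · simp only at h h'
      subst h'
      exact (mem_mot _ _ _).1 (w u).2 y y' h
  have hinj : Function.Injective (LinearMap.codRestrict _ Φ h1) := by
    rw [injective_iff_map_eq_zero]
    intro w hw
    have h2 : Φ w = 0 := congrArg Subtype.val hw
    funext u
    apply Subtype.ext
    funext y
    exact congrFun h2 (u, y)
  have h3 := LinearMap.finrank_le_finrank_of_injective hinj
  rw [Module.finrank_pi_fintype] at h3
  refine le_trans ?_ h3
  calc Fintype.card V * k = ∑ _u : V, k := by simp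
    _ ≤ _ := Finset.sum_le_sum fun u _ => hk _

theorem edges_match {V Y : Type} [Fintype V] [Fintype Y] (G : SimpleGraph V) (H : SimpleGraph Y) :
    ((G □ H).edgeSet \ ((⊥ : SimpleGraph V) □ H).edgeSet).ncard ≤
      G.edgeSet.ncard * Fintype.card Y := by
  classical
  let F : G.edgeSet × Y → Sym2 (V × Y) := fun z => Sym2.map (fun a => (a, z.2)) z.1.1
  have h1 : ((G □ H).edgeSet \ ((⊥ : SimpleGraph V) □ H).edgeSet) ⊆ Set.range F := by
    intro e
    induction e using Sym2.ind with
    | _ x y =>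
      rintro ⟨h, h'⟩
      rw [SimpleGraph.mem_edgeSet, SimpleGraph.boxProd_adj] at h h'
      push Not at h'
      rcases h with ⟨h, hy⟩ | ⟨h, hx⟩
      · obtain ⟨a, b⟩ := x
        obtain ⟨a', b'⟩ := y
        simp only at h hy
        subst hy
        exact ⟨(⟨s(a, a'), h⟩, b), by simp [F]⟩
      · exact absurd hx (h'.2 h)
  calc _ ≤ (Set.range F).ncard := Set.ncard_le_ncard h1 (Set.toFinite _)
    _ ≤ Nat.card (G.edgeSet × Y) := by
      rw [← Set.image_univ, ← Set.ncard_univ]
      exact Set.ncard_image_le (Set.toFinite _)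
    _ = _ := by rw [Nat.card_prod, Nat.card_coe_set_eq, Nat.card_eq_fintype_card]

/-- the count for a rigid product -/
theorem gen_count {V Y : Type} [Fintype V] [Fintype Y] {G : SimpleGraph V} {H : SimpleGraph Y}
    {d : ℕ} (h : GenRigid d (G □ H)) (hc : d ≤ Fintype.card (V × Y)) :
    d * (Fintype.card V * Fintype.card Y) ≤
      G.edgeSet.ncard * Fintype.card Y + Fintype.card V * genRank d H + d * (d + 1) / 2 := by
  obtain ⟨p, hp⟩ := exists_mg (V × Y) d
  obtain ⟨q, hq⟩ := exists_mg Y d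
  have h1 := (genRigid_iff hp hc _).1 h
  have h2 := mo_le_add (G := (⊥ : SimpleGraph V) □ H) (G' := G □ H) p
  have h3 := edges_match G H
  have h4 := mo_layers (H := H) (k := mo H q) p (fun P' => hq.min H P')
  have h5 := genRank_add hq H
  have h6 : Fintype.card V * genRank d H + Fintype.card V * mo H q =
      d * (Fintype.card V * Fintype.card Y) := by
    rw [← mul_add, h5]; ring
  omega

theorem gen_iff {V Y : Type} [Fintype V] [Fintype Y] {G : SimpleGraph V} {H : SimpleGraph Y}
    {m : ℕ} (hH : GenRigid (m + 1) H) (hG : G.Connected)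
    (hE : G.edgeSet.ncard = Fintype.card V) (hV : (m + 2) * (m + 3) / 2 < Fintype.card V) :
    GenRigid (m + 2) (G □ H) ↔ (m + 1) * Fintype.card Y ≤ genRank (m + 2) H := by
  classical
  constructor
  · intro h
    rcases Nat.eq_zero_or_pos (Fintype.card Y) with h0 | h0
    · rw [h0]; exact Nat.zero_le _
    · have e0 : m + 2 ≤ (m + 2) * (m + 3) / 2 := by
        rw [Nat.le_div_iff_mul_le (by norm_num)]
        exact Nat.mul_le_mul_left _ (by omega)
      have h1 := gen_count h (by rw [Fintype.card_prod]; nlinarith)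
      rw [hE] at h1
      by_contra hlt
      rw [not_le] at hlt
      have h2 : genRank (m + 2) H + 1 ≤ (m + 1) * Fintype.card Y := hlt
      have h3 : Fintype.card V * (genRank (m + 2) H + 1) ≤
          Fintype.card V * ((m + 1) * Fintype.card Y) := Nat.mul_le_mul_left _ h2
      have e1 : (m + 2) * (Fintype.card V * Fintype.card Y) =
          Fintype.card V * ((m + 1) * Fintype.card Y) + Fintype.card V * Fintype.card Y := by ring
      have e2 : Fintype.card V * (genRank (m + 2) H + 1) =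
          Fintype.card V * genRank (m + 2) H + Fintype.card V := by ring
      have e3 : (m + 2) * (m + 2 + 1) = (m + 2) * (m + 3) := by ring
      rw [e3] at h1
      omega
  · intro hr
    refine gen_suff hH hr hG ?_
    intro hA
    have hT : G.IsTree := ⟨hG, hA⟩
    have h2 := hT.card_edgeFinset
    rw [Set.ncard_eq_toFinset_card'] at hE
    have h4 : G.edgeSet.toFinset.card = G.edgeFinset.card := rfl
    omega

end Pool.Agent.T2h34.CP
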